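import Pool.Agent.Lib.MP_be7f9f_nt.Slack

/-!
# The inequality for three pairs

`D = DD c k`, `d = DD c j`.  If `NN j ≥ D + d + 2` then `HH D d (NN j) = 0` and `bd2 = 0`.
Otherwise `HH ≤ 15 * 4^(D + d - NN j)` as a real number and `NN j ≤ (NN k + c) / (c - 1)`.
`bd2 ≤ (D+2d+6)^k * 32 * 225 * 27 * 2 * (T₁ + T₂)` with
* `T₁ = 4^(2(D+d-NN j) + 3d + (D+1+NN j+j-2d-(NN k-NN j))) = 4^(3D + 3d - NN k + j + 1)`,
* `T₂ = 4^(2(D+d-NN j) + 3d)`.
Need both `≤ 4^(NN k + D - δ NN k)` (then `slack_loss` absorbs all other factors).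
T₁: `2D + 3d ≤ (2 NN k + 3 NN j) / c ≤ NN k (2 + 3/(c-1)) / c + const`, and
`(2 + 3/(c-1)) / c < 2` iff `2c^2 - 4c - 1 > 0`.
T₂: `D + 5d - 2 NN j ≤ NN k / c + (5/c - 2) NN j ≤ max (1/c, 6/c - 2) NN k` and this factor is
`< 1` as `c > 2`.
-/

namespace BG

theorem asy2_NN_mono {j k : ℕ} (h : j ≤ k) : NN j ≤ NN k :=
  Finset.sum_le_sum_of_subset (Finset.range_subset_range.mpr h)

theorem asy2_HH_zero {D d N : ℕ} (h : D + d + 2 ≤ N) : HH D d N = 0 := by
  refine Nat.div_eq_of_lt ?_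
  calc 15 * 4 ^ (D + d) < 16 * 4 ^ (D + d) := by
        have : 0 < 4 ^ (D + d) := by positivity
        omega
    _ = 4 ^ (D + d + 2) := by rw [pow_add 4 (D + d) 2]; ring
    _ ≤ 4 ^ N := Nat.pow_le_pow_right (by norm_num) h

theorem asy2_DD_le {c : ℝ} (hc : 0 < c) (k : ℕ) : (DD c k : ℝ) ≤ (NN k : ℝ) / c :=
  Nat.floor_le (by positivity)

theorem asy2_HH_le (D d N : ℕ) :
    (HH D d N : ℝ) ≤ 15 * (4 : ℝ) ^ ((D : ℝ) + d - N) := by
  have h : (HH D d N : ℝ) ≤ ((15 * 4 ^ (D + d) : ℕ) : ℝ) / ((4 ^ N : ℕ) : ℝ) := Nat.cast_div_le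
  refine h.trans (le_of_eq ?_)
  push_cast
  rw [Real.rpow_sub (by norm_num), Real.rpow_add (by norm_num), Real.rpow_natCast,
    Real.rpow_natCast, Real.rpow_natCast, pow_add]
  ring

/-- `J ≤ (K + c) / (c - 1)` -/
theorem asy2_J_le {c K J D d : ℝ} (hc : 2 < c) (hD : D ≤ K / c) (hd : d ≤ J / c)
    (h : J ≤ D + d + 1) : J ≤ (K + c) / (c - 1) := by
  rw [le_div_iff₀ (by linarith)]
  have hc0 : 0 < c := by linarith
  have h1 : J ≤ K / c + J / c + 1 := by linarith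
  have h2 : J * c ≤ (K / c + J / c + 1) * c := by nlinarith
  have h3 : (K / c + J / c + 1) * c = K + J + c := by field_simp
  linarith

theorem asy2_e1 {c K J D d j k : ℝ} (hc : 2 < c) (hJ : J ≤ (K + c) / (c - 1))
    (hD : D ≤ K / c) (hd : d ≤ J / c) (hjk : j ≤ k) :
    3 * D + 3 * d + 1 + j - K ≤
      K + D - (2 - (2 + 3 / (c - 1)) / c) * K + (4 + k) := by
  have hc0 : 0 < c := by linarith
  have hc1 : 0 < c - 1 := by linarith
  have h1 : J / c ≤ ((K + c) / (c - 1)) / c := by gcongr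
  have h2 : ((K + c) / (c - 1)) / c = K / (c - 1) / c + 1 / (c - 1) := by
    field_simp
  have h3 : (2 - (2 + 3 / (c - 1)) / c) * K = 2 * K - 2 * (K / c) - 3 * (K / (c - 1) / c) := by
    field_simp
    ring
  have h4 : 1 / (c - 1) ≤ 1 := by
    rw [div_le_one hc1]
    linarith
  rw [h3]
  linarith

theorem asy2_e2 {c K J D d : ℝ} (hc : 2 < c) (hJ0 : 0 ≤ J) (hJK : J ≤ K)
    (hD : D ≤ K / c) (hd : d ≤ J / c) :
    2 * D + 5 * d - 2 * J ≤ K + D - (1 - max (1 / c) (6 / c - 2)) * K := by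
  have hc0 : 0 < c := by linarith
  have hK : 0 ≤ K := hJ0.trans hJK
  have e1 : J / c = J * (1 / c) := by ring
  have e2 : K / c = K * (1 / c) := by ring
  have e3 : 6 / c = 6 * (1 / c) := by ring
  rw [e1] at hd
  rw [e2] at hD
  rw [e3]
  generalize 1 / c = u at *
  rcases le_total (5 * u) 2 with h | h
  · have h1 : K * u ≤ K * max u (6 * u - 2) := mul_le_mul_of_nonneg_left (le_max_left _ _) hK
    have h2 : (5 * u) * J ≤ 2 * J := mul_le_mul_of_nonneg_right h hJ0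
    nlinarith
  · have h1 : K * (6 * u - 2) ≤ K * max u (6 * u - 2) :=
      mul_le_mul_of_nonneg_left (le_max_right _ _) hK
    have h2 : (5 * u - 2) * J ≤ (5 * u - 2) * K := mul_le_mul_of_nonneg_left hJK (by linarith)
    nlinarith

theorem asy2_bd2_le {D d j k : ℕ} (hjk : j ≤ k) :
    (bd2 D d j k : ℝ) ≤ ((D + 2 * d + 6) ^ k : ℕ) * (388800 *
      ((4 : ℝ) ^ (3 * (D : ℝ) + 3 * d + 1 + j - NN k) +
        (4 : ℝ) ^ (2 * (D : ℝ) + 5 * d - 2 * NN j))) := by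
  have hN := asy2_NN_mono hjk
  have h1 := asy2_HH_le D d (NN j)
  have h0 : (0 : ℝ) ≤ HH D d (NN j) := Nat.cast_nonneg _
  have h2 : ((4 ^ (D + 1 + NN j + j) / 4 ^ (2 * d + (NN k - NN j)) : ℕ) : ℝ) ≤
      (4 : ℝ) ^ ((D : ℝ) + 1 + NN j + j - (2 * d + (NN k - NN j))) := by
    refine Nat.cast_div_le.trans (le_of_eq ?_)
    rw [Real.rpow_sub (by norm_num)]
    congr 1
    · push_cast
      rw [← Real.rpow_natCast]
      congr 1
      push_cast
      ring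
    · push_cast
      rw [← Real.rpow_natCast]
      congr 1
      push_cast [Nat.cast_sub hN]
      ring
  have hd3 : ((3 * 4 ^ d : ℕ) : ℝ) = 3 * (4 : ℝ) ^ (d : ℝ) := by
    rw [Real.rpow_natCast]
    push_cast
    ring
  unfold bd2
  rw [Nat.cast_mul, Nat.cast_mul, Nat.cast_mul]
  have h3 : ((32 * HH D d (NN j) ^ 2 * (3 * 4 ^ d) ^ 2 : ℕ) : ℝ) ≤
      32 * (15 * (4 : ℝ) ^ ((D : ℝ) + d - NN j)) ^ 2 * (3 * (4 : ℝ) ^ (d : ℝ)) ^ 2 := by
    rw [Nat.cast_mul, Nat.cast_mul, Nat.cast_pow, Nat.cast_pow, hd3]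
    push_cast
    gcongr
  have h4 : ((2 * (4 ^ (D + 1 + NN j + j) / 4 ^ (2 * d + (NN k - NN j)) + 1) : ℕ) : ℝ) ≤
      2 * ((4 : ℝ) ^ ((D : ℝ) + 1 + NN j + j - (2 * d + (NN k - NN j))) + 1) := by
    rw [Nat.cast_mul, Nat.cast_add]
    push_cast
    linarith
  rw [hd3, mul_assoc, mul_assoc]
  refine mul_le_mul_of_nonneg_left ?_ (Nat.cast_nonneg _)
  calc ((32 * HH D d (NN j) ^ 2 * (3 * 4 ^ d) ^ 2 : ℕ) : ℝ) * (3 * (4 : ℝ) ^ (d : ℝ) *
        ((2 * (4 ^ (D + 1 + NN j + j) / 4 ^ (2 * d + (NN k - NN j)) + 1) : ℕ) : ℝ))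
      ≤ (32 * (15 * (4 : ℝ) ^ ((D : ℝ) + d - NN j)) ^ 2 * (3 * (4 : ℝ) ^ (d : ℝ)) ^ 2) *
        (3 * (4 : ℝ) ^ (d : ℝ) *
          (2 * ((4 : ℝ) ^ ((D : ℝ) + 1 + NN j + j - (2 * d + (NN k - NN j))) + 1))) := by
        gcongr
    _ = 388800 * (((4 : ℝ) ^ ((D : ℝ) + d - NN j)) ^ 2 * ((4 : ℝ) ^ (d : ℝ)) ^ 3 *
          (4 : ℝ) ^ ((D : ℝ) + 1 + NN j + j - (2 * d + (NN k - NN j))) +
          ((4 : ℝ) ^ ((D : ℝ) + d - NN j)) ^ 2 * ((4 : ℝ) ^ (d : ℝ)) ^ 3) := by ring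
    _ = _ := by
        have p0 : (0 : ℝ) ≤ 4 := by norm_num
        have p1 : (0 : ℝ) < 4 := by norm_num
        congr 2
        · rw [← Real.rpow_natCast, ← Real.rpow_natCast, ← Real.rpow_mul p0, ← Real.rpow_mul p0,
            ← Real.rpow_add p1, ← Real.rpow_add p1]
          congr 1
          push_cast
          ring
        · rw [← Real.rpow_natCast, ← Real.rpow_natCast, ← Real.rpow_mul p0, ← Real.rpow_mul p0,
            ← Real.rpow_add p1]
          congr 1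
          push_cast
          ring

theorem asy2 (c : ℝ) (hc : 2 < c) (hc' : c < 3) (h : 0 < 2 * c ^ 2 - 4 * c - 1) (C : ℕ) :
    ∃ k₀ : ℕ, ∀ k, k₀ ≤ k → ∀ j, j < k →
      bd2 (DD c k) (DD c j) j k * loss C (DD c k) k ≤ 4 ^ (NN k + DD c k) := by
  have hc0 : 0 < c := by linarith
  have hc1 : 0 < c - 1 := by linarith
  have ha1 : 0 < 2 - (2 + 3 / (c - 1)) / c := by
    have : (2 + 3 / (c - 1)) / c < 2 := by
      rw [div_lt_iff₀ hc0]
      have : 3 / (c - 1) < 2 * c - 2 := by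
        rw [div_lt_iff₀ hc1]
        nlinarith
      linarith
    linarith
  have ha2 : 0 < 1 - max (1 / c) (6 / c - 2) := by
    have h1 : 1 / c < 1 := by
      rw [div_lt_one hc0]
      linarith
    have h2 : 6 / c < 3 := by
      rw [div_lt_iff₀ hc0]
      linarith
    have := max_lt h1 (by linarith : 6 / c - 2 < 1)
    linarith
  obtain ⟨δ, hδ0, hδ1, hδ2⟩ : ∃ δ : ℝ, 0 < δ ∧ δ ≤ 2 - (2 + 3 / (c - 1)) / c ∧
      δ ≤ 1 - max (1 / c) (6 / c - 2) :=
    ⟨_, lt_min ha1 ha2, min_le_left _ _, min_le_right _ _⟩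
  obtain ⟨k₀, hk₀⟩ := slack_loss C 15 δ hδ0
  refine ⟨k₀, fun k hk j hj => ?_⟩
  have hN : NN j ≤ NN k := asy2_NN_mono hj.le
  have hD := asy2_DD_le hc0 k
  have hd := asy2_DD_le hc0 j
  have hKn : (0 : ℝ) ≤ NN k := Nat.cast_nonneg _
  have hJn : (0 : ℝ) ≤ NN j := Nat.cast_nonneg _
  have hNr : (NN j : ℝ) ≤ NN k := by exact_mod_cast hN
  rcases le_or_gt (DD c k + DD c j + 2) (NN j) with hcase | hcase
  · have : bd2 (DD c k) (DD c j) j k = 0 := by
      simp [bd2, asy2_HH_zero hcase]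
    rw [this]
    simp
  · have hJ1 : (NN j : ℝ) ≤ (DD c k : ℝ) + (DD c j : ℝ) + 1 := by
      have : NN j ≤ DD c k + DD c j + 1 := by omega
      exact_mod_cast this
    have hJ := asy2_J_le hc hD hd hJ1
    have hjk : (j : ℝ) ≤ k := by exact_mod_cast hj.le
    have e1 := asy2_e1 hc hJ hD hd hjk
    have e2 := asy2_e2 hc hJn hNr hD hd
    have hDK : DD c k ≤ NN k := by
      have : (DD c k : ℝ) ≤ NN k := hD.trans (div_le_self hKn (by linarith))
      exact_mod_cast this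
    have hdK : DD c j ≤ NN k := by
      have : (DD c j : ℝ) ≤ NN k := (hd.trans (div_le_self hJn (by linarith))).trans hNr
      exact_mod_cast this
    have hs := hk₀ k hk (DD c k) (DD c j) hDK hdK
    have hb := asy2_bd2_le (D := DD c k) (d := DD c j) hj.le
    generalize DD c k = D at *
    generalize DD c j = d at *
    set E : ℝ := (NN k : ℝ) + D - δ * NN k with hE
    have f1 : (4 : ℝ) ^ (3 * (D : ℝ) + 3 * d + 1 + j - NN k) ≤ 4 ^ E * 4 ^ (k + 4) := by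
      rw [← Real.rpow_natCast, ← Real.rpow_add (by norm_num)]
      refine Real.rpow_le_rpow_of_exponent_le (by norm_num) (e1.trans ?_)
      have : δ * NN k ≤ (2 - (2 + 3 / (c - 1)) / c) * NN k := by gcongr
      push_cast
      linarith
    have f2 : (4 : ℝ) ^ (2 * (D : ℝ) + 5 * d - 2 * NN j) ≤ 4 ^ E * 4 ^ (k + 4) := by
      rw [← Real.rpow_natCast, ← Real.rpow_add (by norm_num)]
      refine Real.rpow_le_rpow_of_exponent_le (by norm_num) (e2.trans ?_)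
      have : δ * NN k ≤ (1 - max (1 / c) (6 / c - 2)) * NN k := by gcongr
      push_cast
      linarith
    have hl : (0 : ℝ) ≤ loss C D k := Nat.cast_nonneg _
    have hkey : ((bd2 D d j k * loss C D k : ℕ) : ℝ) ≤ ((4 ^ (NN k + D) : ℕ) : ℝ) := by
      rw [Nat.cast_mul]
      calc (bd2 D d j k : ℝ) * (loss C D k : ℝ)
          ≤ (((D + 2 * d + 6) ^ k : ℕ) * (388800 *
            ((4 : ℝ) ^ E * 4 ^ (k + 4) + (4 : ℝ) ^ E * 4 ^ (k + 4)))) * (loss C D k : ℝ) := by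
            refine mul_le_mul_of_nonneg_right (hb.trans ?_) hl
            gcongr
        _ ≤ (((D + 2 * d + 6) ^ k : ℕ) * ((4 : ℝ) ^ E * 4 ^ (k + 15))) * (loss C D k : ℝ) := by
            refine mul_le_mul_of_nonneg_right ?_ hl
            refine mul_le_mul_of_nonneg_left ?_ (Nat.cast_nonneg _)
            have hp : (0 : ℝ) ≤ (4 : ℝ) ^ E * 4 ^ k := by positivity
            have q1 : (4 : ℝ) ^ (k + 4) = 256 * 4 ^ k := by rw [pow_add]; ring
            have q2 : (4 : ℝ) ^ (k + 15) = 1073741824 * 4 ^ k := by rw [pow_add]; ring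
            rw [q1, q2]
            nlinarith
        _ = (4 : ℝ) ^ E * (((D + 2 * d + 6) ^ k * 4 ^ (k + 15) * loss C D k : ℕ) : ℝ) := by
            push_cast
            ring
        _ ≤ (4 : ℝ) ^ E * (4 : ℝ) ^ (δ * (NN k : ℝ)) := by gcongr
        _ = (4 : ℝ) ^ ((NN k + D : ℕ) : ℝ) := by
            rw [← Real.rpow_add (by norm_num)]
            congr 1
            rw [hE]
            push_cast
            ring
        _ = ((4 ^ (NN k + D) : ℕ) : ℝ) := by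
            rw [Real.rpow_natCast]
            push_cast
            ring
    exact_mod_cast hkey

end BG
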