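import Pool.Agent.Lib.MP_be7f9f_nt.Defs

/-!
# Markov's inequality

Proof.  `k ≥ 1` (otherwise the event is empty: `card < 0`).  Let `T j = ∑_f nbad`.  Every `f` in
the event satisfies `card (Pr D) ≤ 2 ∑_j nbad`, so `#E * card (Pr D) ≤ 2 ∑_{j ∈ Ico k₀ k} T j`.
Summing `hT` over the at most `k` values of `j` and cancelling `k`:
`(∑_j T j) * 2^(k+3) * C^k * k! * (C (D+1)) ≤ 4^(NN k) * 4^D`.  By `hC`, `4^(NN k) = ∏_{i<k} 4^i
≤ ∏_{i<k} (C (i+1) card (Pr i)) = C^k * k! * card (Om k)` and `4^D ≤ C (D+1) card (Pr D)`.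
Cancel: `2^(k+3) ∑_j T j ≤ card (Om k) * card (Pr D)`.  Hence
`#E * card (Pr D) * 2^(k+2) ≤ card (Om k) * card (Pr D)` and `card (Pr D) > 0`.
-/

namespace BG

private theorem prod_le (k C : ℕ) (hC : ∀ n : ℕ, 4 ^ n ≤ C * (n + 1) * (Pr n).card) :
    4 ^ NN k ≤ C ^ k * k.factorial * (Om k).card := by
  have h1 : (Om k).card = ∏ i ∈ Finset.range k, (Pr i).card := by
    unfold Om
    rw [Fintype.card_piFinset]
    exact Fin.prod_univ_eq_prod_range (fun i => (Pr i).card) k
  rw [h1]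
  unfold NN
  clear h1
  induction k with
  | zero => simp
  | succ k ih =>
    rw [Finset.sum_range_succ, Finset.prod_range_succ, pow_add, pow_succ, Nat.factorial_succ]
    calc 4 ^ (∑ i ∈ Finset.range k, i) * 4 ^ k
        ≤ (C ^ k * k.factorial * ∏ i ∈ Finset.range k, (Pr i).card) *
          (C * (k + 1) * (Pr k).card) := Nat.mul_le_mul ih (hC k)
      _ = _ := by ring

theorem avg (c : ℝ) (g k₀ k C : ℕ) (hC0 : 0 < C)
    (hC : ∀ n : ℕ, 4 ^ n ≤ C * (n + 1) * (Pr n).card)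
    (hT : ∀ j ∈ Finset.Ico k₀ k,
      (∑ f ∈ Om k, nbad g (DD c k) (DD c j) j k (ext f)) * loss C (DD c k) k ≤
        4 ^ (NN k + DD c k)) :
    {f : Fin k → ℕ | (∀ i : Fin k, f i ∈ Pr i) ∧ Ev c g k₀ k f}.ncard * 2 ^ (k + 2) ≤
      (Fintype.piFinset fun i : Fin k => Pr i).card := by
  classical
  set D := DD c k with hD
  set E : Finset (Fin k → ℕ) := (Om k).filter fun f => Ev c g k₀ k f with hE
  have hset : {f : Fin k → ℕ | (∀ i : Fin k, f i ∈ Pr i) ∧ Ev c g k₀ k f} =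
      (E : Set (Fin k → ℕ)) := by
    ext f
    rw [hE, Finset.coe_filter]
    simp only [Set.mem_ofPred_eq, Om, Fintype.mem_piFinset]
  rw [hset, Set.ncard_coe_finset]
  change E.card * 2 ^ (k + 2) ≤ (Om k).card
  rcases Nat.eq_zero_or_pos k with hk | hk
  · have h1 : E = ∅ := by
      rw [hE, Finset.filter_eq_empty_iff]
      rintro f _ ⟨h2, h3⟩
      rw [Finset.Ico_eq_empty (by omega), Finset.sum_empty, mul_zero] at h3
      exact absurd h3 (Nat.not_lt_zero _)
    rw [h1, Finset.card_empty, zero_mul]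
    exact Nat.zero_le _
  have hp : 0 < (Pr D).card := by
    have h1 := hC D
    have h2 : 0 < 4 ^ D := by positivity
    rcases Nat.eq_zero_or_pos (Pr D).card with h3 | h3
    · rw [h3, mul_zero] at h1
      omega
    · exact h3
  set S : ℕ := ∑ j ∈ Finset.Ico k₀ k, ∑ f ∈ Om k, nbad g D (DD c j) j k (ext f) with hS
  -- the sum over the event
  have h1 : E.card * (Pr D).card ≤ 2 * S := by
    calc E.card * (Pr D).card = ∑ _f ∈ E, (Pr D).card := by
          rw [Finset.sum_const, smul_eq_mul]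
      _ ≤ ∑ f ∈ E, 2 * ∑ j ∈ Finset.Ico k₀ k, nbad g D (DD c j) j k (ext f) := by
          refine Finset.sum_le_sum fun f hf => ?_
          rw [hE, Finset.mem_filter] at hf
          exact hf.2.2.le
      _ ≤ ∑ f ∈ Om k, 2 * ∑ j ∈ Finset.Ico k₀ k, nbad g D (DD c j) j k (ext f) :=
          Finset.sum_le_sum_of_subset (Finset.filter_subset _ _)
      _ = 2 * S := by
          rw [← Finset.mul_sum, Finset.sum_comm]
  -- the sum of the hypotheses
  have h2 : S * loss C D k ≤ k * 4 ^ (NN k + D) := by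
    rw [hS, Finset.sum_mul]
    calc _ ≤ ∑ _j ∈ Finset.Ico k₀ k, 4 ^ (NN k + D) := Finset.sum_le_sum hT
      _ = (k - k₀) * 4 ^ (NN k + D) := by
          rw [Finset.sum_const, Nat.card_Ico, smul_eq_mul]
      _ ≤ k * 4 ^ (NN k + D) := Nat.mul_le_mul_right _ (Nat.sub_le _ _)
  have h3 : S * (2 ^ (k + 3) * C ^ k * k.factorial * (C * (D + 1))) ≤ 4 ^ NN k * 4 ^ D := by
    have h4 : k * (S * (2 ^ (k + 3) * C ^ k * k.factorial * (C * (D + 1)))) ≤
        k * (4 ^ NN k * 4 ^ D) := by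
      calc _ = S * loss C D k := by
            unfold loss
            ring
        _ ≤ k * 4 ^ (NN k + D) := h2
        _ = _ := by rw [pow_add]
    exact Nat.le_of_mul_le_mul_left h4 hk
  have h5 : 4 ^ NN k * 4 ^ D ≤
      (C ^ k * k.factorial * (Om k).card) * (C * (D + 1) * (Pr D).card) :=
    Nat.mul_le_mul (prod_le k C hC) (hC D)
  have h6 : S * 2 ^ (k + 3) ≤ (Om k).card * (Pr D).card := by
    have hpos : 0 < C ^ k * k.factorial * (C * (D + 1)) := by positivity
    refine Nat.le_of_mul_le_mul_left ?_ hpos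
    calc C ^ k * k.factorial * (C * (D + 1)) * (S * 2 ^ (k + 3))
        = S * (2 ^ (k + 3) * C ^ k * k.factorial * (C * (D + 1))) := by ring
      _ ≤ _ := h3.trans h5
      _ = _ := by ring
  refine Nat.le_of_mul_le_mul_left (c := (Pr D).card) ?_ hp
  calc (Pr D).card * (E.card * 2 ^ (k + 2)) = E.card * (Pr D).card * 2 ^ (k + 2) := by ring
    _ ≤ 2 * S * 2 ^ (k + 2) := Nat.mul_le_mul_right _ h1
    _ = S * 2 ^ (k + 3) := by ring
    _ ≤ (Om k).card * (Pr D).card := h6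
    _ = _ := by ring

end BG
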