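import Pool.Agent.Lib.MP_be7f9f_nt.Defs

/-!
# From logarithms to congruences

Proof.  By `IsLog` the congruences hold modulo every `q i`; the `q i ∈ Pr i` are primes in
disjoint intervals `(4^i, 4^(i+1)]`, so pairwise coprime, and the congruences hold modulo the
products (e.g. `Finset.prod_dvd_of_coprime` / `Nat.ModEq` via `Int` divisibility).
-/

namespace BG

private theorem toMod_prime {n a : ℕ} (h : a ∈ Pr n) : a.Prime := (Finset.mem_filter.1 h).2

private theorem toMod_ne {n m a b : ℕ} (ha : a ∈ Pr n) (hb : b ∈ Pr m) (h : n < m) : a < b := by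
  have h1 := (Finset.mem_Ioc.1 (Finset.mem_filter.1 ha).1).2
  have h2 := (Finset.mem_Ioc.1 (Finset.mem_filter.1 hb).1).1
  have h3 : 4 ^ (n + 1) ≤ 4 ^ m := Nat.pow_le_pow_right (by norm_num) h
  omega

private theorem toMod_coprime (q : ℕ → ℕ) (hq : ∀ i, q i ∈ Pr i) {i l : ℕ} (h : i ≠ l) :
    IsCoprime (q i : ℤ) (q l : ℤ) := by
  rw [Nat.isCoprime_iff_coprime, Nat.coprime_primes (toMod_prime (hq i)) (toMod_prime (hq l))]
  rcases lt_or_gt_of_ne h with h1 | h1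
  · exact (toMod_ne (hq i) (hq l) h1).ne
  · exact (toMod_ne (hq l) (hq i) h1).ne'

private theorem toMod_prod (q : ℕ → ℕ) (hq : ∀ i, q i ∈ Pr i) (s : Finset ℕ) {a b : ℕ}
    (h : ∀ i ∈ s, a ≡ b [MOD q i]) : a ≡ b [MOD ∏ i ∈ s, q i] := by
  rw [Nat.modEq_iff_dvd]
  push_cast
  refine Finset.prod_dvd_of_coprime ?_ fun i hi => (Nat.modEq_iff_dvd.1 (h i hi))
  intro i _ l _ hil
  exact toMod_coprime q hq hil

theorem to_mod (q : ℕ → ℕ) (hq : ∀ i, q i ∈ Pr i) (lg : ℕ → ℕ → ℕ) (hlg : IsLog lg)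
    {j k p r p' r' : ℕ} (hj : j ≤ k) (hp : ∀ i < k, p.Coprime (q i))
    (hp' : ∀ i < k, p'.Coprime (q i)) (hr : ∀ i < j, r.Coprime (q i))
    (hr' : ∀ i < j, r'.Coprime (q i))
    (h1 : ∀ i < j, lg (q i) p + lg (q i) r = lg (q i) p' + lg (q i) r')
    (h2 : ∀ i, j ≤ i → i < k → lg (q i) p = lg (q i) p') :
    p * r ≡ p' * r' [MOD QQ q j] ∧ p ≡ p' [MOD RR q j k] := by
  constructor
  · refine toMod_prod q hq _ fun i hi => ?_
    have hi' := Finset.mem_range.1 hi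
    exact (hlg (q i) (toMod_prime (hq i))).2.2 p r p' r' (hp i (by omega)) (hr i hi')
      (hp' i (by omega)) (hr' i hi') (h1 i hi')
  · refine toMod_prod q hq _ fun i hi => ?_
    have hi' := Finset.mem_Ico.1 hi
    exact (hlg (q i) (toMod_prime (hq i))).2.1 p p' (hp i hi'.2) (hp' i hi'.2)
      (h2 i hi'.1 hi'.2)

end BG
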