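import Pool.Agent.Lib.MP_be7f9f_nt.Defs

/-!
# Choice of the infinite sequence of moduli (compactness)

Proof.  Let `G n ⊆ ∏_{i<n} M i` be the set of the finite sequences no initial segment of length
`k ≤ n` of which satisfies `E k`.  The fraction of sequences of length `n` whose initial segment
of length `k` is in `E k` is at most `2^(-k-2)`, and `∑_{k ≥ 0} 2^(-k-2) = 1/2 < 1`, so `G n` is
nonempty for every `n`.  Restriction maps `G (n+1)` to `G n`, all `G n` are finite and nonempty: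
the inverse limit is nonempty (`nonempty_sections_of_finite_inverse_system`, or Kőnig's lemma, or
compactness of the product of the finite discrete spaces `M i`:
`IsCompact.nonempty_iInter_of_sequence_nonempty_isCompact_isClosed`).

Here: the same union bound, for the product of the uniform measures on the `M i`.
-/

namespace BG

open MeasureTheory
open scoped ENNReal

/-- the uniform measure on `M i` -/
private noncomputable def cmpU (M : ℕ → Finset ℕ) (hM : ∀ i, (M i).Nonempty) (i : ℕ) :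
    Measure ℕ := (PMF.uniformOfFinset (M i) (hM i)).toMeasure

private instance cmpU_prob (M : ℕ → Finset ℕ) (hM : ∀ i, (M i).Nonempty) (i : ℕ) :
    IsProbabilityMeasure (cmpU M hM i) := by
  unfold cmpU
  infer_instance

private theorem cmp_cyl (M : ℕ → Finset ℕ) (hM : ∀ i, (M i).Nonempty) {k : ℕ} (f : Fin k → ℕ)
    (hf : ∀ i : Fin k, f i ∈ M i) :
    Measure.infinitePi (cmpU M hM) {q : ℕ → ℕ | ∀ i : Fin k, q i = f i} =
      ∏ i ∈ Finset.range k, ((M i).card : ℝ≥0∞)⁻¹ := by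
  have h1 : {q : ℕ → ℕ | ∀ i : Fin k, q i = f i} =
      Set.pi (Finset.range k : Set ℕ) (fun i => {ext f i}) := by
    ext q
    simp only [Set.mem_ofPred_eq, Set.mem_pi, Finset.coe_range, Set.mem_Iio,
      Set.mem_singleton_iff]
    constructor
    · intro h i hi
      rw [ext, dif_pos hi]
      exact h ⟨i, hi⟩
    · intro h i
      have h2 := h i i.2
      rw [ext, dif_pos i.2] at h2
      exact h2
  rw [h1, Measure.infinitePi_pi _ (fun i _ => MeasurableSet.singleton _)]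
  refine Finset.prod_congr rfl fun i hi => ?_
  rw [Finset.mem_range] at hi
  have h2 : ext f i ∈ M i := by
    rw [ext, dif_pos hi]
    exact hf ⟨i, hi⟩
  rw [cmpU, PMF.toMeasure_apply_singleton _ _ (MeasurableSet.singleton _),
    PMF.uniformOfFinset_apply_of_mem _ h2]

private theorem cmp_bad (M : ℕ → Finset ℕ) (hM : ∀ i, (M i).Nonempty) (k : ℕ)
    (E : (Fin k → ℕ) → Prop)
    (hE : {f : Fin k → ℕ | (∀ i : Fin k, f i ∈ M i) ∧ E f}.ncard * 2 ^ (k + 2) ≤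
      (Fintype.piFinset fun i : Fin k => M i).card) :
    Measure.infinitePi (cmpU M hM)
      {q : ℕ → ℕ | (∀ i : Fin k, q i ∈ M i) ∧ E (fun i : Fin k => q i)} ≤
        ((2 : ℝ≥0∞) ^ (k + 2))⁻¹ := by
  classical
  set B : Set (Fin k → ℕ) := {f | (∀ i : Fin k, f i ∈ M i) ∧ E f} with hB
  have hfin : B.Finite := by
    refine (Finset.finite_toSet (Fintype.piFinset fun i : Fin k => M i)).subset ?_
    intro f hf
    rw [Finset.mem_coe, Fintype.mem_piFinset]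
    exact hf.1
  have hcard : (Fintype.piFinset fun i : Fin k => M i).card =
      ∏ i ∈ Finset.range k, (M i).card := by
    rw [Fintype.card_piFinset, Finset.prod_range]
  set C : ℕ := ∏ i ∈ Finset.range k, (M i).card with hC
  have hC0 : C ≠ 0 := by
    rw [hC, Finset.prod_ne_zero_iff]
    intro i _
    exact (Finset.card_pos.2 (hM i)).ne'
  have hprod : ∏ i ∈ Finset.range k, ((M i).card : ℝ≥0∞)⁻¹ = (C : ℝ≥0∞)⁻¹ := by
    rw [hC, Nat.cast_prod, ENNReal.prod_inv_distrib]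
    intro i _ j _ _
    exact Or.inl (by exact_mod_cast (Finset.card_pos.2 (hM i)).ne')
  have hsub : {q : ℕ → ℕ | (∀ i : Fin k, q i ∈ M i) ∧ E (fun i : Fin k => q i)} ⊆
      ⋃ f ∈ hfin.toFinset, {q : ℕ → ℕ | ∀ i : Fin k, q i = f i} := by
    intro q hq
    simp only [Set.mem_iUnion]
    exact ⟨fun i : Fin k => q i, hfin.mem_toFinset.2 hq, fun i => rfl⟩
  have h1 : Measure.infinitePi (cmpU M hM)
      {q : ℕ → ℕ | (∀ i : Fin k, q i ∈ M i) ∧ E (fun i : Fin k => q i)} ≤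
        (B.ncard : ℝ≥0∞) * (C : ℝ≥0∞)⁻¹ := by
    refine (measure_mono hsub).trans ((measure_biUnion_finset_le _ _).trans ?_)
    rw [Finset.sum_congr rfl fun f hf => cmp_cyl M hM f (hfin.mem_toFinset.1 hf).1, hprod,
      Finset.sum_const, nsmul_eq_mul, Set.ncard_eq_toFinset_card B hfin]
  refine h1.trans ?_
  rw [hcard] at hE
  have hE' : (B.ncard : ℝ≥0∞) * 2 ^ (k + 2) ≤ C := by exact_mod_cast hE
  have h2 : (2 : ℝ≥0∞) ^ (k + 2) ≠ 0 := by positivity
  have h3 : (2 : ℝ≥0∞) ^ (k + 2) ≠ ⊤ := ENNReal.pow_ne_top ENNReal.ofNat_ne_top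
  have hCt : (C : ℝ≥0∞) ≠ ⊤ := ENNReal.natCast_ne_top C
  have hC0' : (C : ℝ≥0∞) ≠ 0 := by exact_mod_cast hC0
  calc (B.ncard : ℝ≥0∞) * (C : ℝ≥0∞)⁻¹
      = ((B.ncard : ℝ≥0∞) * 2 ^ (k + 2)) * (C : ℝ≥0∞)⁻¹ * ((2 : ℝ≥0∞) ^ (k + 2))⁻¹ := by
        rw [mul_right_comm _ ((2 : ℝ≥0∞) ^ (k + 2)), mul_assoc _ ((2 : ℝ≥0∞) ^ (k + 2)),
          ENNReal.mul_inv_cancel h2 h3, mul_one]
    _ ≤ C * (C : ℝ≥0∞)⁻¹ * ((2 : ℝ≥0∞) ^ (k + 2))⁻¹ := by gcongr
    _ = _ := by rw [ENNReal.mul_inv_cancel hC0' hCt, one_mul]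

theorem exists_seq (M : ℕ → Finset ℕ) (hM : ∀ i, (M i).Nonempty)
    (E : (k : ℕ) → (Fin k → ℕ) → Prop)
    (hE : ∀ k, {f : Fin k → ℕ | (∀ i : Fin k, f i ∈ M i) ∧ E k f}.ncard * 2 ^ (k + 2) ≤
      (Fintype.piFinset fun i : Fin k => M i).card) :
    ∃ q : ℕ → ℕ, (∀ i, q i ∈ M i) ∧ ∀ k, ¬ E k (fun i : Fin k => q i) := by
  by_contra hcon
  push Not at hcon
  set μ := Measure.infinitePi (cmpU M hM) with hμ
  have hcov : (Set.univ : Set (ℕ → ℕ)) ⊆
      (⋃ k, {q : ℕ → ℕ | (∀ i : Fin k, q i ∈ M i) ∧ E k (fun i : Fin k => q i)}) ∪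
        ⋃ i, {q : ℕ → ℕ | q i ∉ M i} := by
    intro q _
    by_cases hq : ∀ i, q i ∈ M i
    · obtain ⟨k, hk⟩ := hcon q hq
      exact Or.inl (Set.mem_iUnion.2 ⟨k, fun i => hq i, hk⟩)
    · push Not at hq
      obtain ⟨i, hi⟩ := hq
      exact Or.inr (Set.mem_iUnion.2 ⟨i, hi⟩)
  have hnull : ∀ i, μ {q : ℕ → ℕ | q i ∉ M i} = 0 := by
    intro i
    have h1 : {q : ℕ → ℕ | q i ∉ M i} =
        Set.pi (({i} : Finset ℕ) : Set ℕ) (fun i => ((M i : Set ℕ))ᶜ) := by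
      ext q
      simp
    rw [h1, hμ, Measure.infinitePi_pi _ (fun i _ => (Finset.measurableSet _).compl),
      Finset.prod_singleton, cmpU,
      PMF.toMeasure_apply_eq_zero_iff _ (Finset.measurableSet _).compl,
      PMF.support_uniformOfFinset]
    exact disjoint_compl_right
  have hone : (1 : ℝ≥0∞) ≤ ∑' k : ℕ, ((2 : ℝ≥0∞) ^ (k + 2))⁻¹ := by
    calc (1 : ℝ≥0∞) = μ Set.univ := measure_univ.symm
      _ ≤ μ ((⋃ k, {q : ℕ → ℕ | (∀ i : Fin k, q i ∈ M i) ∧ E k (fun i : Fin k => q i)}) ∪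
          ⋃ i, {q : ℕ → ℕ | q i ∉ M i}) := measure_mono hcov
      _ ≤ μ (⋃ k, {q : ℕ → ℕ | (∀ i : Fin k, q i ∈ M i) ∧ E k (fun i : Fin k => q i)}) +
          μ (⋃ i, {q : ℕ → ℕ | q i ∉ M i}) := measure_union_le _ _
      _ ≤ (∑' k : ℕ, ((2 : ℝ≥0∞) ^ (k + 2))⁻¹) + 0 := by
          gcongr
          · exact (measure_iUnion_le _).trans
              (ENNReal.tsum_le_tsum fun k => cmp_bad M hM k (E k) (hE k))
          · rw [nonpos_iff_eq_zero, measure_iUnion_null_iff]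
            exact hnull
      _ = _ := add_zero _
  have hsum : ∑' k : ℕ, ((2 : ℝ≥0∞) ^ (k + 2))⁻¹ = 2⁻¹ := by
    have h1 : ∀ k : ℕ, ((2 : ℝ≥0∞) ^ (k + 2))⁻¹ = 2⁻¹ ^ (k + 1) * 2⁻¹ := by
      intro k
      rw [ENNReal.inv_pow, pow_succ]
    simp only [h1]
    rw [ENNReal.tsum_mul_right, ENNReal.tsum_geometric_add_one, ENNReal.one_sub_inv_two,
      inv_inv, ENNReal.inv_mul_cancel two_ne_zero ENNReal.ofNat_ne_top, one_mul]
  rw [hsum] at hone
  have h2 : (2⁻¹ : ℝ≥0∞) < 1 := ENNReal.inv_lt_one.2 (by norm_num)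
  exact absurd hone (not_le.2 h2)

end BG
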