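import Pool.Agent.Lib.MP_be7f9f_nt.Lat

/-!
# The fibre of the data map for three pairs

Proof.  Let `v = (p₀, Q)`, `v' = (p₀', Q')` be different elements and `W = p₀ Q' - Q p₀'`.
For `s = 1, 2`: `r s (p s Q' - p s' Q) = (p₀ r₀ + Q h s) Q' - (p₀' r₀ + Q' h s) Q = r₀ W`, so the
prime `r s ≠ r₀` divides `W`.  Also `R ∣ l p₀ - Q`, `R ∣ l p₀' - Q'` give
`W ≡ p₀ l p₀' - l p₀ p₀' = 0` mod `R`.  So `r₁ r₂ R ∣ W`.  `W ≠ 0`: otherwise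
`p₀ Q' = Q p₀'` with `gcd (p₀, Q) = gcd (p₀', Q') = 1`, i.e. `v = v'`.  Apply `lat` with
`A = 4 P`, `B = Qm`, `G = r₁ r₂ R`.
-/

namespace BG

namespace Fib2

theorem prime_dvd {r r₀ : ℕ} (hr : r.Prime) (hr₀ : r₀.Prime) (h : r₀ ≠ r) {h₁ a b c d p p' : ℤ}
    (e1 : h₁ * b = p * r - a * r₀) (e2 : h₁ * d = p' * r - c * r₀) :
    (r : ℤ) ∣ a * d - b * c := by
  have h1 : (r : ℤ) ∣ (r₀ : ℤ) * (a * d - b * c) :=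
    ⟨p * d - p' * b, by linear_combination d * e1 - b * e2⟩
  have h2 : IsCoprime (r : ℤ) (r₀ : ℤ) :=
    Nat.isCoprime_iff_coprime.2 ((Nat.coprime_primes hr hr₀).2 h.symm)
  exact h2.dvd_of_dvd_mul_left h1

theorem lin_dvd {R l a b c d : ℤ} (e1 : R ∣ l * a - b) (e2 : R ∣ l * c - d) :
    R ∣ a * d - b * c := by
  obtain ⟨x, hx⟩ := e1
  obtain ⟨y, hy⟩ := e2
  exact ⟨c * x - a * y, by linear_combination c * hx - a * hy⟩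

theorem eq_of {v w : ℕ × ℕ} (hv : 0 < v.1) (c1 : v.1.Coprime v.2) (c2 : w.1.Coprime w.2)
    (h : v.1 * w.2 = v.2 * w.1) : v = w := by
  have h1 : v.1 ∣ w.1 := c1.dvd_of_dvd_mul_left ⟨w.2, h.symm⟩
  have h2 : w.1 ∣ v.1 := c2.dvd_of_dvd_mul_right ⟨v.2, by rw [h, mul_comm]⟩
  have h3 : v.1 = w.1 := Nat.dvd_antisymm h1 h2
  refine Prod.ext h3 ?_
  have h4 : v.1 * w.2 = v.1 * v.2 := by
    rw [h, ← h3, mul_comm]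
  exact (Nat.eq_of_mul_eq_mul_left hv h4).symm

end Fib2

theorem fib2 (S : Finset (ℕ × ℕ)) (P Qm R l r₀ r₁ r₂ : ℕ) (h₁ h₂ : ℤ) (hR : 0 < R)
    (hr₀ : r₀.Prime) (hr₁ : r₁.Prime) (hr₂ : r₂.Prime) (h01 : r₀ ≠ r₁) (h02 : r₀ ≠ r₂)
    (h12 : r₁ ≠ r₂) (hc1 : r₁.Coprime R) (hc2 : r₂.Coprime R)
    (hS : ∀ v ∈ S, 0 < v.1 ∧ v.1 ≤ 4 * P ∧ 0 < v.2 ∧ v.2 ≤ Qm ∧ v.1.Coprime v.2 ∧
      (R : ℤ) ∣ (l : ℤ) * v.1 - v.2 ∧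
      (∃ p₁ : ℤ, h₁ * v.2 = p₁ * r₁ - v.1 * r₀) ∧ (∃ p₂ : ℤ, h₂ * v.2 = p₂ * r₂ - v.1 * r₀)) :
    S.card ≤ 2 * (4 * P * Qm / (r₁ * r₂ * R) + 1) := by
  refine lat S (4 * P) Qm (r₁ * r₂ * R)
    (Nat.mul_pos (Nat.mul_pos hr₁.pos hr₂.pos) hR)
    (fun v hv => ⟨(hS v hv).1, (hS v hv).2.1, (hS v hv).2.2.1, (hS v hv).2.2.2.1⟩) ?_
  intro v hv w hw hvw
  obtain ⟨v1, -, -, -, v5, v6, ⟨p₁, v7⟩, ⟨p₂, v8⟩⟩ := hS v hv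
  obtain ⟨w1, -, -, -, w5, w6, ⟨p₁', w7⟩, ⟨p₂', w8⟩⟩ := hS w hw
  refine ⟨?_, fun h0 => hvw (Fib2.eq_of v1 v5 w5 ?_)⟩
  · have d1 := Fib2.prime_dvd hr₁ hr₀ h01 v7 w7
    have d2 := Fib2.prime_dvd hr₂ hr₀ h02 v8 w8
    have d3 := Fib2.lin_dvd v6 w6
    have k1 : IsCoprime (r₁ : ℤ) (r₂ : ℤ) :=
      Nat.isCoprime_iff_coprime.2 ((Nat.coprime_primes hr₁ hr₂).2 h12)
    have k2 : IsCoprime ((r₁ : ℤ) * r₂) (R : ℤ) :=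
      IsCoprime.mul_left (Nat.isCoprime_iff_coprime.2 hc1) (Nat.isCoprime_iff_coprime.2 hc2)
    push_cast
    exact k2.mul_dvd (k1.mul_dvd d1 d2) d3
  · have h1 : (v.1 : ℤ) * w.2 = v.2 * w.1 := sub_eq_zero.1 h0
    exact_mod_cast h1

end BG
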