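import Pool.Agent.Lib.MP_be7f9f_nt.Defs

/-!
# Basic facts about configurations

Proofs (all elementary; `h s` is defined by `h s * Q = p s * r s - p 0 * r 0`, `x s = r s - r 0`).

* `cfg_p`: if `p s = p t` then `Q ∣ p s * (r s - r t)`, so `Q ∣ r s - r t`, and
  `|r s - r t| < 3 Y ≤ Q`, so `r s = r t` and `s = t`.
* `cfg_r`: if `r s = r t` then `Q ∣ p s - p t` and `R ∣ p s - p t`, so `Q R ∣ p s - p t`,
  `|p s - p t| < 3 P ≤ Q R`, so `p s = p t`.
* `cfg_pr`: `p s * r s = p t * r t` with primes: `p s = p t` or `p s = r t`; the latter is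
  impossible since `r t ≤ 4 Y ≤ P < p s`.
* `cfg_det`: write `p s = p 0 + R m s`; then `h s * Q = p 0 * x s + R * m s * r s` and
  `Q (h s x t - h t x s) = R (m s r s x t - m t r t x s)`.  So `R ∣ h s x t - h t x s`
  (`Q`, `R` coprime).  If it is zero then `m s r s x t = m t r t x s`, so the prime `r s` divides
  `m t`, `r t` or `x s = r s - r 0`; the last two are impossible by `cfg_r`, and `m t ≠ 0`,
  `|m t| < 3 P / R ≤ Y < r s`, a contradiction.
-/

namespace BG

variable {m P Y Q R : ℕ} {p r : Fin (m + 1) → ℕ}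

theorem cfg_p (hc : Cfg m P Y Q R p r) : Function.Injective p := by
  obtain ⟨h1, h2, h3, h4, h5, h6, h7, h8, h9, h10, h11⟩ := hc
  intro s t hst
  apply h3
  have e1 : p s * r s ≡ p s * r t [MOD Q] := by
    have := (h4 s).2.trans (h4 t).2.symm
    rwa [← hst] at this
  have e2 : r s ≡ r t [MOD Q] :=
    Nat.ModEq.cancel_left_of_coprime
      ((h6 s).coprime_dvd_right (dvd_mul_right Q R)).symm e1
  have e3 : r s = r t := by
    refine Nat.ModEq.eq_of_abs_lt e2 ?_
    have a1 := (h2 s).2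
    have a2 := (h2 t).2
    rw [abs_lt]
    constructor <;> omega
  exact Prod.ext hst e3

theorem cfg_r (hc : Cfg m P Y Q R p r) : Function.Injective r := by
  obtain ⟨h1, h2, h3, h4, h5, h6, h7, h8, h9, h10, h11⟩ := hc
  intro s t hst
  apply h3
  have e1 : p s * r s ≡ p t * r s [MOD Q] := by
    have := (h4 s).2.trans (h4 t).2.symm
    rwa [← hst] at this
  have e2 : p s ≡ p t [MOD Q] :=
    Nat.ModEq.cancel_right_of_coprime
      ((h7 s).coprime_dvd_right (dvd_mul_right Q R)).symm e1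
  have e4 : p s ≡ p t [MOD R] := (h4 s).1.trans (h4 t).1.symm
  have e5 : p s ≡ p t [MOD Q * R] := (Nat.modEq_and_modEq_iff_modEq_mul h5).1 ⟨e2, e4⟩
  have e3 : p s = p t := by
    refine Nat.ModEq.eq_of_abs_lt e5 ?_
    have a1 := (h1 s).2
    have a2 := (h1 t).2
    rw [abs_lt]
    constructor <;> omega
  exact Prod.ext e3 hst

theorem cfg_pr (hc : Cfg m P Y Q R p r) {s t : Fin (m + 1)} (h : p s * r s = p t * r t) :
    s = t := by
  have hc' := hc
  obtain ⟨h1, h2, h3, h4, h5, h6, h7, h8, h9, h10, h11⟩ := hc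
  have e1 : p s ∣ p t * r t := ⟨r s, h.symm⟩
  rcases (h1 s).1.dvd_mul.1 e1 with e2 | e2
  · exact cfg_p hc' ((Nat.prime_dvd_prime_iff_eq (h1 s).1 (h1 t).1).1 e2)
  · have e3 := (Nat.prime_dvd_prime_iff_eq (h1 s).1 (h2 t).1).1 e2
    have a1 := (h1 s).2
    have a2 := (h2 t).2
    omega

theorem cfg_h (hc : Cfg m P Y Q R p r) (s : Fin (m + 1)) :
    ∃ h : ℤ, h * Q = (p s : ℤ) * r s - p 0 * r 0 ∧ |h| * Q < 15 * (P * Y) ∧ (s ≠ 0 → h ≠ 0) := by
  have hc' := hc
  obtain ⟨h1, h2, h3, h4, h5, h6, h7, h8, h9, h10, h11⟩ := hc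
  have e1 := Nat.modEq_iff_dvd.1 (h4 s).2.symm
  obtain ⟨h, hh⟩ := e1
  push_cast at hh
  have hq : h * Q = (p s : ℤ) * r s - p 0 * r 0 := by rw [hh]; ring
  refine ⟨h, hq, ?_, ?_⟩
  · have a1 := (h1 s).2
    have a2 := (h2 s).2
    have b1 := (h1 0).2
    have b2 := (h2 0).2
    have c1 : ∀ u : Fin (m + 1), (P : ℤ) * Y < (p u : ℤ) * r u ∧
        (p u : ℤ) * r u ≤ 16 * (P * Y) := by
      intro u
      have d1 := (h1 u).2
      have d2 := (h2 u).2
      have f1 : (P : ℤ) < p u := by exact_mod_cast d1.1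
      have f2 : (p u : ℤ) ≤ 4 * P := by exact_mod_cast d1.2
      have f3 : (Y : ℤ) < r u := by exact_mod_cast d2.1
      have f4 : (r u : ℤ) ≤ 4 * Y := by exact_mod_cast d2.2
      have f5 : (0 : ℤ) ≤ P := Int.natCast_nonneg P
      have f6 : (0 : ℤ) ≤ Y := Int.natCast_nonneg Y
      constructor
      · nlinarith
      · nlinarith
    have habs : |h| * (Q : ℤ) = |h * Q| := by
      rw [abs_mul, abs_of_nonneg (Int.natCast_nonneg Q)]
    rw [habs, hq, abs_lt]
    have c2 := c1 s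
    have c3 := c1 0
    constructor <;> linarith
  · intro hs h0
    apply hs
    apply cfg_pr hc'
    rw [h0, zero_mul] at hq
    have : (p s : ℤ) * r s = p 0 * r 0 := by linarith
    exact_mod_cast this

theorem cfg_det (hc : Cfg m P Y Q R p r) {s t : Fin (m + 1)} (hs : s ≠ 0) (ht : t ≠ 0)
    (hst : s ≠ t) {h h' : ℤ} (h1 : h * Q = (p s : ℤ) * r s - p 0 * r 0)
    (h2 : h' * Q = (p t : ℤ) * r t - p 0 * r 0) :
    h * ((r t : ℤ) - r 0) - h' * ((r s : ℤ) - r 0) ≠ 0 ∧
      (R : ℤ) ∣ h * ((r t : ℤ) - r 0) - h' * ((r s : ℤ) - r 0) := by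
  have hc' := hc
  obtain ⟨g1, g2, g3, g4, g5, g6, g7, g8, g9, g10, g11⟩ := hc
  obtain ⟨a, ha⟩ := Nat.modEq_iff_dvd.1 (g4 s).1.symm
  obtain ⟨b, hb⟩ := Nat.modEq_iff_dvd.1 (g4 t).1.symm
  have key : (Q : ℤ) * (h * ((r t : ℤ) - r 0) - h' * ((r s : ℤ) - r 0)) =
      R * (a * r s * ((r t : ℤ) - r 0) - b * r t * ((r s : ℤ) - r 0)) := by
    have e1 : (p s : ℤ) = p 0 + R * a := by linarith
    have e2 : (p t : ℤ) = p 0 + R * b := by linarith
    rw [e1] at h1
    rw [e2] at h2
    linear_combination ((r t : ℤ) - r 0) * h1 - ((r s : ℤ) - r 0) * h2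
  have hP : 0 < P := by
    have := (g1 0).2
    omega
  have hR : 0 < R := by
    rcases Nat.eq_zero_or_pos R with h0 | h0
    · rw [h0] at g11
      omega
    · exact h0
  constructor
  · intro h0
    rw [h0, mul_zero] at key
    have hR' : (R : ℤ) ≠ 0 := by exact_mod_cast hR.ne'
    have k1 : a * r s * ((r t : ℤ) - r 0) - b * r t * ((r s : ℤ) - r 0) = 0 := by
      rcases mul_eq_zero.1 key.symm with h3 | h3
      · exact absurd h3 hR'
      · exact h3
    have hpr : Prime (r s : ℤ) := Nat.prime_iff_prime_int.1 (g2 s).1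
    have k2 : (r s : ℤ) ∣ b * r t * ((r s : ℤ) - r 0) :=
      ⟨a * ((r t : ℤ) - r 0), by linarith⟩
    rcases hpr.dvd_or_dvd k2 with k3 | k3
    · rcases hpr.dvd_or_dvd k3 with k4 | k4
      · have k5 : b = 0 := by
          refine Int.eq_zero_of_abs_lt_dvd k4 ?_
          have f1 := (g1 t).2
          have f2 := (g1 0).2
          have f3 := (g2 s).2
          have k6 : |b| * R < 3 * P := by
            have k7 : |b| * (R : ℤ) = |(p t : ℤ) - p 0| := by
              rw [hb, abs_mul, abs_of_nonneg (Int.natCast_nonneg R)]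
              ring
            rw [k7, abs_lt]
            constructor <;> omega
          have k8 : (3 * P : ℤ) ≤ Y * R := by exact_mod_cast g11
          have k9 : |b| * (R : ℤ) < Y * R := lt_of_lt_of_le k6 k8
          have k10 : |b| < (Y : ℤ) := lt_of_mul_lt_mul_right k9 (Int.natCast_nonneg R)
          have k11 : (Y : ℤ) < r s := by exact_mod_cast f3.1
          exact k10.trans k11
        rw [k5, mul_zero] at hb
        apply ht
        apply cfg_p hc'
        have : (p t : ℤ) = p 0 := by linarith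
        exact_mod_cast this
      · have k5 : r s ∣ r t := by exact_mod_cast k4
        exact hst (cfg_r hc' ((Nat.prime_dvd_prime_iff_eq (g2 s).1 (g2 t).1).1 k5))
    · have k4 : (r s : ℤ) ∣ r 0 := by
        have := dvd_sub (dvd_refl (r s : ℤ)) k3
        simpa using this
      have k5 : r s ∣ r 0 := by exact_mod_cast k4
      exact hs (cfg_r hc' ((Nat.prime_dvd_prime_iff_eq (g2 s).1 (g2 0).1).1 k5))
  · have hcop : IsCoprime (R : ℤ) (Q : ℤ) := Nat.isCoprime_iff_coprime.2 g5.symm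
    exact hcop.dvd_of_dvd_mul_left ⟨_, key⟩

end BG
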