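import Pool.Agent.Lib.MP_be7f9f_nt.Defs

/-!
# The residue `l = Q / p 0` modulo `R`

* `lam_exists`: `p 0` is invertible modulo `R > 0`.
* `lam_dvd`: `p 0 * (l h - x) ≡ Q h - p 0 x = R m r s ≡ 0` mod `R` where `h * Q = p s * r s - p 0 *
  r 0`, `x = r s - r 0`, `p s ≡ p 0` mod `R`; and `p 0` is coprime to `R`.
* `lam_card`: let `e = gcd (h₁, h₂, R)`.  If some `l₀` satisfies the two congruences, the others
  satisfy `R ∣ (l - l₀) h₁, (l - l₀) h₂`, i.e. `R / e ∣ l - l₀`, so there are at most `e` of them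
  below `R`.  And `e ∣ h₁, h₂`, `e ∣ R ∣ l₀ h₁ - x₁` gives `e ∣ x₁`, also `e ∣ x₂`; so
  `e ∣ gcd4 h₁ h₂ x₁ x₂`, which is positive as `h₁ ≠ 0`.
-/

namespace BG

theorem lam_exists (p Q R : ℕ) (hR : 0 < R) (hp : p.Coprime R) :
    ∃ l : ℕ, l < R ∧ (R : ℤ) ∣ (l : ℤ) * p - Q := by
  have h1 : IsCoprime (p : ℤ) (R : ℤ) := Nat.isCoprime_iff_coprime.2 hp
  obtain ⟨a, b, hab⟩ := h1
  have hR' : (0 : ℤ) < R := by exact_mod_cast hR
  have h2 : 0 ≤ (a * Q) % (R : ℤ) := Int.emod_nonneg _ hR'.ne'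
  have h3 : (a * Q) % (R : ℤ) < R := Int.emod_lt_of_pos _ hR'
  refine ⟨((a * Q) % (R : ℤ)).toNat, by omega, ?_⟩
  rw [Int.toNat_of_nonneg h2]
  obtain ⟨c, hc⟩ : (R : ℤ) ∣ a * Q - (a * Q) % (R : ℤ) := Int.dvd_self_sub_emod
  have h4 : (a * Q) % (R : ℤ) = a * Q - R * c := by linarith
  rw [h4]
  refine ⟨-(Q * b) - c * p, ?_⟩
  linear_combination (Q : ℤ) * hab

theorem lam_dvd (p₀ r₀ p r Q R l : ℕ) (h : ℤ) (hp : p₀.Coprime R) (hm : p ≡ p₀ [MOD R])
    (hh : h * Q = (p : ℤ) * r - p₀ * r₀) (hl : (R : ℤ) ∣ (l : ℤ) * p₀ - Q) :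
    (R : ℤ) ∣ (l : ℤ) * h - ((r : ℤ) - r₀) := by
  have h1 : IsCoprime (R : ℤ) (p₀ : ℤ) := (Nat.isCoprime_iff_coprime.2 hp).symm
  refine h1.dvd_of_dvd_mul_left ?_
  obtain ⟨a, ha⟩ := hl
  obtain ⟨b, hb⟩ := (Nat.modEq_iff_dvd.1 hm.symm)
  refine ⟨a * h + b * r, ?_⟩
  linear_combination h * ha + (r : ℤ) * hb + hh

theorem lam_card (R : ℕ) (hR : 0 < R) (h₁ h₂ x₁ x₂ : ℤ) (hh : h₁ ≠ 0) :
    ((Finset.range R).filter fun l : ℕ => (R : ℤ) ∣ (l : ℤ) * h₁ - x₁ ∧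
      (R : ℤ) ∣ (l : ℤ) * h₂ - x₂).card ≤ gcd4 h₁ h₂ x₁ x₂ := by
  classical
  set g : ℕ := Int.gcd h₁ h₂ with hg
  have hg0 : 0 < g := Int.gcd_pos_of_ne_zero_left _ hh
  set e : ℕ := Nat.gcd g R with he
  have he0 : 0 < e := Nat.gcd_pos_of_pos_left _ hg0
  obtain ⟨R', hR'⟩ : e ∣ R := Nat.gcd_dvd_right _ _
  obtain ⟨g', hg'⟩ : e ∣ g := Nat.gcd_dvd_left _ _
  have hcop : Nat.Coprime g' R' := by
    have h1 := Nat.coprime_div_gcd_div_gcd (m := g) (n := R) he0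
    rw [← he] at h1
    have h2 : g / e = g' := by rw [hg', Nat.mul_div_cancel_left _ he0]
    have h3 : R / e = R' := by
      conv_lhs => rw [hR']
      rw [Nat.mul_div_cancel_left _ he0]
    rwa [h2, h3] at h1
  set S := (Finset.range R).filter fun l : ℕ => (R : ℤ) ∣ (l : ℤ) * h₁ - x₁ ∧
      (R : ℤ) ∣ (l : ℤ) * h₂ - x₂ with hS
  rcases S.eq_empty_or_nonempty with h | ⟨l₀, hl₀⟩
  · rw [h, Finset.card_empty]
    exact Nat.zero_le _
  · have hm₀ := hl₀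
    rw [hS, Finset.mem_filter] at hm₀
    have hR'0 : 0 < R' := Nat.pos_of_mul_pos_left (hR' ▸ hR)
    have hcong : ∀ l ∈ S, l % R' = l₀ % R' := by
      intro l hl
      rw [hS, Finset.mem_filter] at hl
      obtain ⟨a, ha⟩ := hl.2.1
      obtain ⟨b, hb⟩ := hl.2.2
      obtain ⟨a', ha'⟩ := hm₀.2.1
      obtain ⟨b', hb'⟩ := hm₀.2.2
      have h1 : (R : ℤ) ∣ ((l : ℤ) - l₀) * g := by
        rw [hg, Int.gcd_eq_gcd_ab]
        refine ⟨(a - a') * Int.gcdA h₁ h₂ + (b - b') * Int.gcdB h₁ h₂, ?_⟩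
        linear_combination Int.gcdA h₁ h₂ * (ha - ha') + Int.gcdB h₁ h₂ * (hb - hb')
      have h2 : (R' : ℤ) ∣ ((l : ℤ) - l₀) * g' := by
        obtain ⟨c, hc⟩ := h1
        refine ⟨c, ?_⟩
        have he1 : (e : ℤ) ≠ 0 := by exact_mod_cast he0.ne'
        apply mul_left_cancel₀ he1
        have h3 : (R : ℤ) = e * R' := by exact_mod_cast hR'
        have h4 : (g : ℤ) = e * g' := by exact_mod_cast hg'
        rw [h3, h4] at hc
        linear_combination hc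
      have h3 : (R' : ℤ) ∣ (l : ℤ) - l₀ :=
        (Nat.isCoprime_iff_coprime.2 hcop).symm.dvd_of_dvd_mul_right h2
      exact ((Nat.modEq_iff_dvd (n := R') (a := l₀) (b := l)).2 h3).symm
    have hcard : S.card ≤ (Finset.range e).card := by
      refine Finset.card_le_card_of_injOn (fun l => l / R') (fun l hl => ?_) ?_
      · have hl' : l ∈ S := hl
        rw [hS, Finset.mem_filter, Finset.mem_range] at hl'
        simp only [Finset.coe_range, Set.mem_Iio]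
        rw [Nat.div_lt_iff_lt_mul hR'0]
        calc l < R := hl'.1
          _ = e * R' := hR'
      · intro l hl l' hl' hll
        have h1 := hcong l hl
        have h2 := hcong l' hl'
        have h3 : l / R' = l' / R' := hll
        rw [← Nat.div_add_mod l R', ← Nat.div_add_mod l' R', h1, h2, h3]
    rw [Finset.card_range] at hcard
    refine hcard.trans (Nat.le_of_dvd ?_ ?_)
    · exact Nat.gcd_pos_of_pos_left _ hg0
    · have heR : (e : ℤ) ∣ R := ⟨R', by exact_mod_cast hR'⟩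
      have heg : (e : ℤ) ∣ g := ⟨g', by exact_mod_cast hg'⟩
      have heh1 : (e : ℤ) ∣ h₁ := heg.trans (Int.gcd_dvd_left _ _)
      have heh2 : (e : ℤ) ∣ h₂ := heg.trans (Int.gcd_dvd_right _ _)
      have hex1 : (e : ℤ) ∣ x₁ := by
        have h1 := heR.trans hm₀.2.1
        exact (dvd_sub_right (heh1.mul_left _)).1 h1
      have hex2 : (e : ℤ) ∣ x₂ := by
        have h1 := heR.trans hm₀.2.2
        exact (dvd_sub_right (heh2.mul_left _)).1 h1
      refine Nat.dvd_gcd ⟨g', hg'⟩ (Nat.dvd_gcd ?_ ?_)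
      · exact Int.natCast_dvd.1 hex1
      · exact Int.natCast_dvd.1 hex2

end BG
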