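import Pool.Agent.Lib.MP_be7f9f_nt.Fac
import Pool.Agent.Lib.MP_be7f9f_nt.Bas
import Pool.Agent.Lib.MP_be7f9f_nt.Lam

/-!
# From a bad prime to its data

Proof.  Unfold `Bad`; `Cfg m (4^D) (4^d) (QQ ..) (RR ..) p r` holds: the primes `p s ∈ Pr D` are in
`(4^D, 4^(D+1)]`, `r s ∈ Pr d`; `coprime_of_lt` with `4^k ≤ 4^d < r s`, `4^k ≤ 4^D < p s`;
`3 * 4^d ≤ 4^(d+1) ≤ 4^(NN j) ≤ QQ`; `3 * 4^D ≤ 4^(D+1) ≤ 4^(NN k) ≤ QQ * RR` (with
`NN j ≤ NN k`); `4 * 4^d ≤ 4^D`; `3 * 4^D ≤ 4^(D+1) ≤ 4^(d + (NN k - NN j)) ≤ 4^d * RR`.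
The `h s` come from `cfg_h`: `|h s| * 4^(NN j) ≤ |h s| * Q < 15 * 4^(D+d)`, so
`|h s| ≤ HH D d (NN j)`.  The `r s - r 0` are nonzero by `cfg_r` and `< 3 * 4^d` in absolute
value.  `l` comes from `lam_exists`, `lam_dvd`; the determinants from `cfg_det`.
-/

namespace BG

private theorem map_NN_mono {j k : ℕ} (h : j ≤ k) : NN j ≤ NN k := by
  unfold NN
  exact Finset.sum_le_sum_of_subset (Finset.range_mono h)

private theorem map_mem_Pr {n p : ℕ} (h : p ∈ Pr n) : p.Prime ∧ 4 ^ n < p ∧ p ≤ 4 * 4 ^ n := by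
  unfold Pr at h
  rw [Finset.mem_filter, Finset.mem_Ioc] at h
  refine ⟨h.2, h.1.1, ?_⟩
  have h1 := h.1.2
  rw [pow_succ, mul_comm] at h1
  exact h1

private theorem map_Bx {x : ℤ} {H : ℕ} (h0 : x ≠ 0) (h : x.natAbs ≤ H) : x ∈ Bx H := by
  unfold Bx
  rw [Finset.mem_filter, Finset.mem_Icc]
  refine ⟨⟨?_, ?_⟩, h0⟩ <;> omega

private theorem map_three {a b : ℕ} (h : a + 1 ≤ b) : 3 * 4 ^ a ≤ 4 ^ b := by
  have h1 : 4 ^ (a + 1) ≤ 4 ^ b := Nat.pow_le_pow_right (by norm_num) h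
  rw [pow_succ] at h1
  omega

theorem bad_data (m D d j k : ℕ) (hjk : j < k) (h1 : d + 1 ≤ D) (h2 : D + 1 ≤ NN k)
    (h3 : d + 1 ≤ NN j) (h4 : D + 1 ≤ d + (NN k - NN j)) (h5 : k ≤ d)
    {f : Fin k → ℕ} (hf : f ∈ Om k) {p₀ : ℕ}
    (hb : Bad m (QQ (ext f) j) (RR (ext f) j k) (Pr D) (Pr d) p₀) :
    ∃ p r : Fin (m + 1) → ℕ, p 0 = p₀ ∧ (∀ s, p s ∈ Pr D) ∧ (∀ s, r s ∈ Pr d) ∧
      Function.Injective p ∧ Function.Injective r ∧
      Cfg m (4 ^ D) (4 ^ d) (QQ (ext f) j) (RR (ext f) j k) p r ∧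
      ∃ h : Fin (m + 1) → ℤ,
        (∀ s, h s * (QQ (ext f) j : ℤ) = (p s : ℤ) * r s - p 0 * r 0) ∧
        (∀ s, s ≠ 0 → h s ∈ Bx (HH D d (NN j))) ∧
        (∀ s, s ≠ 0 → (r s : ℤ) - r 0 ∈ Bx (3 * 4 ^ d)) ∧
        (∀ s t, s ≠ 0 → t ≠ 0 → s ≠ t →
          h s * ((r t : ℤ) - r 0) - h t * ((r s : ℤ) - r 0) ≠ 0 ∧
          (RR (ext f) j k : ℤ) ∣ h s * ((r t : ℤ) - r 0) - h t * ((r s : ℤ) - r 0)) ∧
        ∃ l : ℕ, l < RR (ext f) j k ∧
          (RR (ext f) j k : ℤ) ∣ (l : ℤ) * p₀ - QQ (ext f) j ∧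
          ∀ s, (RR (ext f) j k : ℤ) ∣ (l : ℤ) * h s - ((r s : ℤ) - r 0) := by
  obtain ⟨p, r, hp0, hpS, hrT, hinj, hcong⟩ := hb
  have hQ := (QQ_bounds hjk.le hf).1
  have hR := (RR_bounds hjk.le hf).1
  have hNN := map_NN_mono hjk.le
  set Q := QQ (ext f) j with hQdef
  set R := RR (ext f) j k with hRdef
  have hc : Cfg m (4 ^ D) (4 ^ d) Q R p r := by
    refine ⟨fun s => map_mem_Pr (hpS s), fun s => map_mem_Pr (hrT s), hinj, hcong,
      QR_coprime hjk.le hf, fun s => ?_, fun s => ?_, ?_, ?_, ?_, ?_⟩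
    · refine coprime_of_lt hjk.le hf (map_mem_Pr (hpS s)).1
        (lt_of_le_of_lt ?_ (map_mem_Pr (hpS s)).2.1)
      exact Nat.pow_le_pow_right (by norm_num) (by omega)
    · refine coprime_of_lt hjk.le hf (map_mem_Pr (hrT s)).1
        (lt_of_le_of_lt ?_ (map_mem_Pr (hrT s)).2.1)
      exact Nat.pow_le_pow_right (by norm_num) h5
    · exact (map_three h3).trans hQ
    · refine (map_three h2).trans ?_
      have e1 : 4 ^ NN k = 4 ^ NN j * 4 ^ (NN k - NN j) := by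
        rw [← pow_add]
        congr 1
        omega
      rw [e1]
      exact Nat.mul_le_mul hQ hR
    · have e1 : 4 ^ (d + 1) ≤ 4 ^ D := Nat.pow_le_pow_right (by norm_num) h1
      rw [pow_succ] at e1
      omega
    · refine (map_three h4).trans ?_
      rw [pow_add]
      exact Nat.mul_le_mul_left _ hR
  choose h hh using fun s => cfg_h hc s
  have hR0 : 0 < R := lt_of_lt_of_le (by positivity) hR
  have hcop : p₀.Coprime R := by
    have e1 := hc.2.2.2.2.2.1 0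
    rw [hp0] at e1
    exact e1.coprime_dvd_right (dvd_mul_left R Q)
  obtain ⟨l, hl, hlQ⟩ := lam_exists p₀ Q R hR0 hcop
  refine ⟨p, r, hp0, hpS, hrT, cfg_p hc, cfg_r hc, hc, h, fun s => (hh s).1, ?_, ?_, ?_,
    l, hl, hlQ, fun s => ?_⟩
  · intro s hs
    refine map_Bx ((hh s).2.2 hs) ?_
    unfold HH
    rw [Nat.le_div_iff_mul_le (by positivity)]
    have e1 := (hh s).2.1
    have e2 : ((h s).natAbs * Q : ℤ) < 15 * (4 ^ D * 4 ^ d) := by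
      rw [Int.natCast_natAbs]
      exact_mod_cast e1
    have e3 : (h s).natAbs * Q < 15 * (4 ^ D * 4 ^ d) := by exact_mod_cast e2
    rw [pow_add]
    exact (Nat.mul_le_mul_left _ hQ).trans e3.le
  · intro s hs
    have a1 := map_mem_Pr (hrT s)
    have a2 := map_mem_Pr (hrT 0)
    refine map_Bx ?_ ?_
    · intro h0
      apply hs
      apply cfg_r hc
      have : (r s : ℤ) = r 0 := by linarith
      exact_mod_cast this
    · omega
  · intro s t hs ht hst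
    exact cfg_det hc hs ht hst (hh s).1 (hh t).1
  · have e1 := (hh s).1
    have e2 := (hcong s).1
    rw [hp0] at e1 e2
    exact lam_dvd p₀ (r 0) (p s) (r s) Q R l (h s) hcop e2 e1 hlQ

end BG
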