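import Pool.Agent.Lib.MP_be7f9f_nt.Dat
import Pool.Agent.Lib.MP_be7f9f_nt.Map
import Pool.Agent.Lib.MP_be7f9f_nt.Fib2

/-!
# The number of bad primes, three pairs

Proof.  The sum is the cardinality of `U = {(f, p₀) : f ∈ Om k, p₀ ∈ Pr D bad}`.  `bad_data`
(`m = 2`) attaches to `(f, p₀) ∈ U` an element
`((h 1, h 2), (r 1 - r 0, r 2 - r 0), R, l, r 0)` of `Dat j k H X d`, `H = HH D d (NN j)`,
`X = 3 * 4^d` (`R ≤ 4^(NN k + k)` by `RR_bounds`, `l < R`).  The fibre over an element: `R` is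
fixed, and `(f, p₀)` is determined by `(p₀, Q)` (`om_inj`); the points `(p₀, Q)` satisfy the
hypotheses of `fib2` with `P = 4^D`, `Qm = 4^(NN j + j)` (`QQ_bounds`; `r 1 = r 0 + x 1`,
`r 2 = r 0 + x 2` are fixed), and `r 1 * r 2 * R ≥ 4^(2 d + (NN k - NN j))`.  So
`card U ≤ card (Dat ..) * (2 * (4^(D+1+NN j+j) / 4^(2d+(NN k - NN j)) + 1))`
(`Finset.card_le_mul_card_image_of_maps_to`), and `dat_card` with `B = D + 2 d + 4`
(`2 H X ≤ 2 * 15 * 4^(D+d) * 3 * 4^d = 90 * 4^(D+2d) ≤ 4^B`), `Pr_card_le` finish.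
-/

namespace BG

/-- The prime `r 1` (or `r 2`) recovered from the data. -/
private def cnt2_r (r₀ : ℕ) (x : ℤ) : ℕ := ((r₀ : ℤ) + x).toNat

private theorem cnt2_r_eq (a b : ℕ) : cnt2_r a ((b : ℤ) - a) = b := by
  unfold cnt2_r
  rw [add_sub_cancel]
  exact Int.toNat_natCast b

/-- The relation between a bad prime and its data. -/
private structure Cnt2Rel (D d j k : ℕ) (f : Fin k → ℕ) (p₀ : ℕ)
    (t : (ℤ × ℤ) × (ℤ × ℤ) × ℕ × ℕ × ℕ) : Prop where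
  eR : t.2.2.1 = RR (ext f) j k
  q0 : t.2.2.2.2.Prime
  q1 : (cnt2_r t.2.2.2.2 t.2.1.1).Prime
  q2 : (cnt2_r t.2.2.2.2 t.2.1.2).Prime
  n01 : t.2.2.2.2 ≠ cnt2_r t.2.2.2.2 t.2.1.1
  n02 : t.2.2.2.2 ≠ cnt2_r t.2.2.2.2 t.2.1.2
  n12 : cnt2_r t.2.2.2.2 t.2.1.1 ≠ cnt2_r t.2.2.2.2 t.2.1.2
  c1 : (cnt2_r t.2.2.2.2 t.2.1.1).Coprime (RR (ext f) j k)
  c2 : (cnt2_r t.2.2.2.2 t.2.1.2).Coprime (RR (ext f) j k)
  l1 : 4 ^ d ≤ cnt2_r t.2.2.2.2 t.2.1.1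
  l2 : 4 ^ d ≤ cnt2_r t.2.2.2.2 t.2.1.2
  dl : (RR (ext f) j k : ℤ) ∣ (t.2.2.2.1 : ℤ) * p₀ - QQ (ext f) j
  e1 : ∃ p₁ : ℤ, t.1.1 * (QQ (ext f) j : ℤ) =
    p₁ * cnt2_r t.2.2.2.2 t.2.1.1 - p₀ * t.2.2.2.2
  e2 : ∃ p₂ : ℤ, t.1.2 * (QQ (ext f) j : ℤ) =
    p₂ * cnt2_r t.2.2.2.2 t.2.1.2 - p₀ * t.2.2.2.2

private theorem cnt2_rel (D d j k : ℕ) (hjk : j < k) (h1 : d + 1 ≤ D) (h2 : D + 1 ≤ NN k)
    (h3 : d + 1 ≤ NN j) (h4 : D + 1 ≤ d + (NN k - NN j)) (h5 : k ≤ d)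
    {f : Fin k → ℕ} (hf : f ∈ Om k) {p₀ : ℕ}
    (hb : Bad 2 (QQ (ext f) j) (RR (ext f) j k) (Pr D) (Pr d) p₀) :
    ∃ t ∈ Dat j k (HH D d (NN j)) (3 * 4 ^ d) d, Cnt2Rel D d j k f p₀ t := by
  obtain ⟨p, r, hp0, hpD, hrd, hpi, hri, hcfg, h, hh, hhB, hxB, hdet, l, hl, hlp, hlh⟩ :=
    bad_data 2 D d j k hjk h1 h2 h3 h4 h5 hf hb
  have n10 : (1 : Fin 3) ≠ 0 := by decide
  have n20 : (2 : Fin 3) ≠ 0 := by decide
  have n12 : (1 : Fin 3) ≠ 2 := by decide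
  have hr : ∀ s, (r s).Prime ∧ 4 ^ d < r s := by
    intro s
    have := hrd s
    rw [Pr, Finset.mem_filter, Finset.mem_Ioc] at this
    exact ⟨this.2, this.1.1⟩
  have hcR : ∀ s, (r s).Coprime (RR (ext f) j k) := by
    intro s
    have h6 := coprime_of_lt hjk.le hf (hr s).1
      (lt_of_le_of_lt (Nat.pow_le_pow_right (by norm_num) h5) (hr s).2)
    exact h6.coprime_mul_left_right
  refine ⟨((h 1, h 2), ((r 1 : ℤ) - r 0, (r 2 : ℤ) - r 0), RR (ext f) j k, l, r 0), ?_, ?_⟩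
  · rw [Dat, Finset.mem_filter]
    refine ⟨?_, (hdet 1 2 n10 n20 n12).1, (hdet 1 2 n10 n20 n12).2, hl, hlh 1, hlh 2⟩
    simp only [Finset.mem_product]
    refine ⟨⟨hhB 1 n10, hhB 2 n20⟩, ⟨hxB 1 n10, hxB 2 n20⟩, ?_, ?_, hrd 0⟩
    · rw [RS, Finset.mem_image]
      exact ⟨f, hf, rfl⟩
    · rw [Finset.mem_range]
      have := (RR_bounds hjk.le hf).2
      omega
  · refine ⟨rfl, (hr 0).1, ?_, ?_, ?_, ?_, ?_, ?_, ?_, ?_, ?_, hlp, ⟨(p 1 : ℤ), ?_⟩,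
      ⟨(p 2 : ℤ), ?_⟩⟩ <;> simp only [cnt2_r_eq]
    · exact (hr 1).1
    · exact (hr 2).1
    · exact fun h6 => n10 (hri h6).symm
    · exact fun h6 => n20 (hri h6).symm
    · exact fun h6 => n12 (hri h6)
    · exact hcR 1
    · exact hcR 2
    · exact (hr 1).2.le
    · exact (hr 2).2.le
    · rw [hh 1, hp0]
    · rw [hh 2, hp0]

theorem cnt2 (D d j k : ℕ) (hjk : j < k) (h1 : d + 1 ≤ D) (h2 : D + 1 ≤ NN k)
    (h3 : d + 1 ≤ NN j) (h4 : D + 1 ≤ d + (NN k - NN j)) (h5 : k ≤ d) :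
    ∑ f ∈ Om k, nbad 2 D d j k (ext f) ≤ bd2 D d j k := by
  classical
  set H := HH D d (NN j) with hH
  set X := 3 * 4 ^ d with hX
  set n : ℕ := 2 * (4 ^ (D + 1 + NN j + j) / 4 ^ (2 * d + (NN k - NN j)) + 1) with hn
  let U : Finset ((_ : Fin k → ℕ) × ℕ) := (Om k).sigma fun f =>
    (Pr D).filter fun p => Bad 2 (QQ (ext f) j) (RR (ext f) j k) (Pr D) (Pr d) p
  have hUmem : ∀ u, u ∈ U ↔ u.1 ∈ Om k ∧ u.2 ∈ Pr D ∧
      Bad 2 (QQ (ext u.1) j) (RR (ext u.1) j k) (Pr D) (Pr d) u.2 := by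
    intro u
    rw [Finset.mem_sigma, Finset.mem_filter]
  have hUcard : ∑ f ∈ Om k, nbad 2 D d j k (ext f) = U.card := by
    rw [Finset.card_sigma]
    refine Finset.sum_congr rfl fun f _ => ?_
    unfold nbad
    congr
  rw [hUcard]
  have hex : ∀ u, ∃ t, u ∈ U → t ∈ Dat j k H X d ∧ Cnt2Rel D d j k u.1 u.2 t := by
    intro u
    by_cases hu : u ∈ U
    · obtain ⟨h6, _, h8⟩ := (hUmem u).1 hu
      obtain ⟨t, ht, ht2⟩ := cnt2_rel D d j k hjk h1 h2 h3 h4 h5 h6 h8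
      exact ⟨t, fun _ => ⟨ht, ht2⟩⟩
    · exact ⟨((0, 0), (0, 0), 0, 0, 0), fun h => absurd h hu⟩
  choose Φ hΦ using hex
  have hfib : ∀ b ∈ Dat j k H X d, (U.filter fun u => Φ u = b).card ≤ n := by
    intro b _
    rcases (U.filter fun u => Φ u = b).eq_empty_or_nonempty with h6 | ⟨u₀, hu₀⟩
    · rw [h6, Finset.card_empty]
      exact Nat.zero_le _
    rw [Finset.mem_filter] at hu₀
    have hrel : ∀ u ∈ U.filter fun u => Φ u = b, Cnt2Rel D d j k u.1 u.2 b := by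
      intro u hu
      rw [Finset.mem_filter] at hu
      have := (hΦ u hu.1).2
      rwa [hu.2] at this
    have hrel0 : Cnt2Rel D d j k u₀.1 u₀.2 b := hrel u₀ (Finset.mem_filter.2 hu₀)
    have hOm0 := ((hUmem u₀).1 hu₀.1).1
    have hRpos : 4 ^ (NN k - NN j) ≤ b.2.2.1 := by
      rw [hrel0.eR]
      exact (RR_bounds hjk.le hOm0).1
    have hR0 : 0 < b.2.2.1 := lt_of_lt_of_le (by positivity) hRpos
    have hinj : Set.InjOn (fun u : (_ : Fin k → ℕ) × ℕ => (u.2, QQ (ext u.1) j))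
        ((U.filter fun u => Φ u = b : Finset _) : Set ((_ : Fin k → ℕ) × ℕ)) := by
      intro u hu v hv huv
      have hu' := hrel u hu
      have hv' := hrel v hv
      have h7 := ((hUmem u).1 (Finset.mem_filter.1 hu).1).1
      have h8 := ((hUmem v).1 (Finset.mem_filter.1 hv).1).1
      have h9 : u.2 = v.2 := congrArg Prod.fst huv
      have h10 : QQ (ext u.1) j = QQ (ext v.1) j := congrArg Prod.snd huv
      have h11 : u.1 = v.1 := om_inj hjk.le h7 h8 h10 (hu'.eR.symm.trans hv'.eR)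
      obtain ⟨u1, u2⟩ := u
      obtain ⟨v1, v2⟩ := v
      simp only at h9 h11
      subst h9
      subst h11
      rfl
    rw [← Finset.card_image_of_injOn hinj]
    refine (fib2 _ (4 ^ D) (4 ^ (NN j + j)) b.2.2.1 b.2.2.2.1 b.2.2.2.2
      (cnt2_r b.2.2.2.2 b.2.1.1) (cnt2_r b.2.2.2.2 b.2.1.2) b.1.1 b.1.2 hR0 hrel0.q0 hrel0.q1
      hrel0.q2 hrel0.n01 hrel0.n02 hrel0.n12 (by rw [hrel0.eR]; exact hrel0.c1)
      (by rw [hrel0.eR]; exact hrel0.c2) ?_).trans ?_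
    · intro v hv
      obtain ⟨u, hu, rfl⟩ := Finset.mem_image.1 hv
      have hu' := hrel u hu
      obtain ⟨h7, h8, _⟩ := (hUmem u).1 (Finset.mem_filter.1 hu).1
      rw [Pr, Finset.mem_filter, Finset.mem_Ioc] at h8
      have h9 := QQ_bounds hjk.le h7
      have h10 := coprime_of_lt hjk.le h7 h8.2
        (lt_of_le_of_lt (Nat.pow_le_pow_right (by norm_num) (by omega)) h8.1.1)
      refine ⟨h8.2.pos, ?_, lt_of_lt_of_le (by positivity) h9.1, h9.2,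
        h10.coprime_mul_right_right, ?_, hu'.e1, hu'.e2⟩
      · have h11 := h8.1.2
        rw [pow_succ] at h11
        change u.2 ≤ 4 * 4 ^ D
        rw [mul_comm]
        exact h11
      · rw [hu'.eR]
        exact hu'.dl
    · have h7 : 4 * 4 ^ D * 4 ^ (NN j + j) = 4 ^ (D + 1 + NN j + j) := by ring
      have h8 : 4 ^ (2 * d + (NN k - NN j)) ≤
          cnt2_r b.2.2.2.2 b.2.1.1 * cnt2_r b.2.2.2.2 b.2.1.2 * b.2.2.1 := by
        calc 4 ^ (2 * d + (NN k - NN j)) = 4 ^ d * 4 ^ d * 4 ^ (NN k - NN j) := by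
              rw [pow_add, two_mul, pow_add]
          _ ≤ _ := Nat.mul_le_mul (Nat.mul_le_mul hrel0.l1 hrel0.l2) hRpos
      rw [h7, hn]
      have h9 := Nat.div_le_div_left (a := 4 ^ (D + 1 + NN j + j)) h8 (by positivity)
      omega
  have hcard := Finset.card_le_mul_card_image_of_maps_to (f := Φ) (s := U)
    (t := Dat j k H X d) (fun u hu => (hΦ u hu).1) n hfib
  have hB : 2 * H * X ≤ 4 ^ (D + 2 * d + 4) := by
    have h6 : H ≤ 15 * 4 ^ (D + d) := Nat.div_le_self _ _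
    calc 2 * H * X ≤ 2 * (15 * 4 ^ (D + d)) * X :=
          Nat.mul_le_mul_right _ (Nat.mul_le_mul_left _ h6)
      _ = 90 * 4 ^ (D + 2 * d) := by
          rw [hX, two_mul d, ← add_assoc, pow_add 4 (D + d) d]
          ring
      _ ≤ 256 * 4 ^ (D + 2 * d) := Nat.mul_le_mul_right _ (by norm_num)
      _ = 4 ^ (D + 2 * d + 4) := by
          rw [pow_add 4 (D + 2 * d) 4, mul_comm]
          norm_num
  have hdat := dat_card j k H X d (D + 2 * d + 4) hjk.le hB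
  have hPr := Pr_card_le d
  calc U.card ≤ n * (Dat j k H X d).card := hcard
    _ ≤ n * ((D + 2 * d + 4 + 2) ^ k * (32 * H ^ 2 * X ^ 2) * (Pr d).card) :=
        Nat.mul_le_mul_left _ hdat
    _ ≤ n * ((D + 2 * d + 4 + 2) ^ k * (32 * H ^ 2 * X ^ 2) * (3 * 4 ^ d)) :=
        Nat.mul_le_mul_left _ (Nat.mul_le_mul_left _ hPr)
    _ = bd2 D d j k := by
        unfold bd2
        rw [← hH, ← hX, ← hn, mul_comm n]

end BG
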