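import Pool.Agent.Lib.MP_be7f9f_nt.Defs

/-!
# The data of four pairs determine the configuration

Proof.  As in `Fib2`, `W = p₀ Q' - Q p₀'` is divisible by `r₁ r₂ r₃ R`; and `|W| < 4 P Qm` since
`0 < p₀ Q', Q p₀' ≤ 4 P Qm`.  So `W = 0`, and by coprimality `p₀ = p₀'`, `Q = Q'`.
-/

namespace BG

private theorem fib3_dvd {r₀ r : ℕ} (hr₀ : r₀.Prime) (hr : r.Prime) (hne : r₀ ≠ r) {h : ℤ}
    {a b a' b' : ℤ} (h1 : ∃ p : ℤ, h * b = p * r - a * r₀)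
    (h2 : ∃ p : ℤ, h * b' = p * r - a' * r₀) : (r : ℤ) ∣ a * b' - b * a' := by
  obtain ⟨p, hp⟩ := h1
  obtain ⟨p', hp'⟩ := h2
  have e : (r₀ : ℤ) * (a * b' - b * a') = r * (p * b' - p' * b) := by
    linear_combination b' * hp - b * hp'
  have d : (r : ℤ) ∣ (r₀ : ℤ) * (a * b' - b * a') := ⟨_, e⟩
  have c : IsCoprime (r : ℤ) (r₀ : ℤ) := by
    rw [Nat.isCoprime_iff_coprime]
    exact (Nat.coprime_primes hr hr₀).2 (Ne.symm hne)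
  exact c.dvd_of_dvd_mul_left d

private theorem fib3_dvdR {R l : ℕ} {a b a' b' : ℤ} (h1 : (R : ℤ) ∣ (l : ℤ) * a - b)
    (h2 : (R : ℤ) ∣ (l : ℤ) * a' - b') : (R : ℤ) ∣ a * b' - b * a' := by
  have : a * b' - b * a' = ((l : ℤ) * a - b) * a' - ((l : ℤ) * a' - b') * a := by ring
  rw [this]
  exact dvd_sub (dvd_mul_of_dvd_left h1 _) (dvd_mul_of_dvd_left h2 _)

theorem fib3 (P Qm R l r₀ r₁ r₂ r₃ : ℕ) (h₁ h₂ h₃ : ℤ) (hR : 0 < R)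
    (hr₀ : r₀.Prime) (hr₁ : r₁.Prime) (hr₂ : r₂.Prime) (hr₃ : r₃.Prime)
    (h01 : r₀ ≠ r₁) (h02 : r₀ ≠ r₂) (h03 : r₀ ≠ r₃) (h12 : r₁ ≠ r₂) (h13 : r₁ ≠ r₃)
    (h23 : r₂ ≠ r₃) (hc1 : r₁.Coprime R) (hc2 : r₂.Coprime R) (hc3 : r₃.Coprime R)
    (hbig : 4 * P * Qm ≤ r₁ * r₂ * r₃ * R)
    (v w : ℕ × ℕ)
    (hv : 0 < v.1 ∧ v.1 ≤ 4 * P ∧ 0 < v.2 ∧ v.2 ≤ Qm ∧ v.1.Coprime v.2 ∧
      (R : ℤ) ∣ (l : ℤ) * v.1 - v.2 ∧ (∃ p₁ : ℤ, h₁ * v.2 = p₁ * r₁ - v.1 * r₀) ∧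
      (∃ p₂ : ℤ, h₂ * v.2 = p₂ * r₂ - v.1 * r₀) ∧ (∃ p₃ : ℤ, h₃ * v.2 = p₃ * r₃ - v.1 * r₀))
    (hw : 0 < w.1 ∧ w.1 ≤ 4 * P ∧ 0 < w.2 ∧ w.2 ≤ Qm ∧ w.1.Coprime w.2 ∧
      (R : ℤ) ∣ (l : ℤ) * w.1 - w.2 ∧ (∃ p₁ : ℤ, h₁ * w.2 = p₁ * r₁ - w.1 * r₀) ∧
      (∃ p₂ : ℤ, h₂ * w.2 = p₂ * r₂ - w.1 * r₀) ∧ (∃ p₃ : ℤ, h₃ * w.2 = p₃ * r₃ - w.1 * r₀)) :
    v = w := by
  obtain ⟨v1, v2, v3, v4, v5, v6, v7, v8, v9⟩ := hv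
  obtain ⟨w1, w2, w3, w4, w5, w6, w7, w8, w9⟩ := hw
  have d1 := fib3_dvd hr₀ hr₁ h01 v7 w7
  have d2 := fib3_dvd hr₀ hr₂ h02 v8 w8
  have d3 := fib3_dvd hr₀ hr₃ h03 v9 w9
  have d4 := fib3_dvdR v6 w6
  set W : ℤ := (v.1 : ℤ) * w.2 - v.2 * w.1 with hW
  have c12 : IsCoprime (r₁ : ℤ) (r₂ : ℤ) := by
    rw [Nat.isCoprime_iff_coprime]; exact (Nat.coprime_primes hr₁ hr₂).2 h12
  have c123 : IsCoprime ((r₁ : ℤ) * r₂) (r₃ : ℤ) := by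
    refine IsCoprime.mul_left ?_ ?_
    · rw [Nat.isCoprime_iff_coprime]; exact (Nat.coprime_primes hr₁ hr₃).2 h13
    · rw [Nat.isCoprime_iff_coprime]; exact (Nat.coprime_primes hr₂ hr₃).2 h23
  have cR : IsCoprime ((r₁ : ℤ) * r₂ * r₃) (R : ℤ) := by
    refine IsCoprime.mul_left (IsCoprime.mul_left ?_ ?_) ?_
    · rw [Nat.isCoprime_iff_coprime]; exact hc1
    · rw [Nat.isCoprime_iff_coprime]; exact hc2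
    · rw [Nat.isCoprime_iff_coprime]; exact hc3
  have d : (r₁ : ℤ) * r₂ * r₃ * R ∣ W :=
    cR.mul_dvd (c123.mul_dvd (c12.mul_dvd d1 d2) d3) d4
  have b1 : (v.1 : ℤ) * w.2 ≤ 4 * P * Qm := by
    exact_mod_cast Nat.mul_le_mul v2 w4
  have b2 : (v.2 : ℤ) * w.1 ≤ 4 * P * Qm := by
    have : v.2 * w.1 ≤ Qm * (4 * P) := Nat.mul_le_mul v4 w2
    have h : v.2 * w.1 ≤ 4 * P * Qm := by rw [mul_comm (4 * P)]; exact this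
    exact_mod_cast h
  have p1 : (0 : ℤ) < (v.1 : ℤ) * w.2 := by exact_mod_cast Nat.mul_pos v1 w3
  have p2 : (0 : ℤ) < (v.2 : ℤ) * w.1 := by exact_mod_cast Nat.mul_pos v3 w1
  have hb : (4 * P * Qm : ℤ) ≤ (r₁ : ℤ) * r₂ * r₃ * R := by exact_mod_cast hbig
  have hW0 : W = 0 := by
    refine Int.eq_zero_of_abs_lt_dvd d ?_
    rw [abs_lt]
    constructor <;> rw [hW] <;> linarith
  have e : v.1 * w.2 = v.2 * w.1 := by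
    have : (v.1 : ℤ) * w.2 = v.2 * w.1 := by rw [hW] at hW0; linarith
    exact_mod_cast this
  have e1 : v.1 ∣ w.1 := by
    have : v.1 ∣ v.2 * w.1 := ⟨_, e.symm⟩
    exact v5.dvd_of_dvd_mul_left this
  have e2 : w.1 ∣ v.1 := by
    have : w.1 ∣ w.2 * v.1 := ⟨v.2, by rw [mul_comm w.2, e, mul_comm]⟩
    exact w5.dvd_of_dvd_mul_left this
  have e3 : v.1 = w.1 := Nat.dvd_antisymm e1 e2
  have e4 : v.2 = w.2 := by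
    rw [e3, mul_comm] at e
    exact (Nat.eq_of_mul_eq_mul_right w1 e).symm
  exact Prod.ext e3 e4

end BG
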