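import Pool.Agent.Lib.MP_be7f9f_nt.Dat
import Pool.Agent.Lib.MP_be7f9f_nt.Map
import Pool.Agent.Lib.MP_be7f9f_nt.Fib3

/-!
# The number of bad primes, four pairs

Proof.  If `NN j ≥ D + d + 2` then `HH D d (NN j) = 0` (`15 * 4^(D+d) < 4^(NN j)`), so `Bx` is
empty and by `bad_data` there is no bad prime at all.  Otherwise `hF` gives
`D + 1 + NN j + j ≤ 3 d + (NN k - NN j)`.
The sum is the cardinality of `U = {(f, p₀) : f ∈ Om k, p₀ ∈ Pr D bad}`.  `bad_data` (`m = 3`)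
attaches to `(f, p₀) ∈ U` an element `((h 1, h 2), (x 1, x 2), R, l, r 0)` of `Dat j k H X d`,
`H = HH D d (NN j)`, `X = 3 * 4^d`, `x s = r s - r 0`, together with `(h 3, x 3)`, where
`h 3 ∈ Bx H`, `x 3 ∈ Bx X`, `R ∣ l * h 3 - x 3`: for given `R, l` there are at most
`(2 H + 1) * (2 X / R + 1) ≤ (2 H + 1) * (2 X / 4^(NN k - NN j) + 1)` such pairs.  The map is
injective: `R` is fixed, `f` is determined by `Q` and `R` (`om_inj`), and `(p₀, Q)` is determined
by `fib3` with `P = 4^D`, `Qm = 4^(NN j + j)` as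
`4^(D+1) * 4^(NN j + j) ≤ 4^(3 d + (NN k - NN j)) ≤ r 1 * r 2 * r 3 * R`.
Conclude with `dat_card` (`B = D + 2 d + 4`) and `Pr_card_le`.
-/

namespace BG

private theorem cnt3_class (R X : ℕ) (hR : 0 < R) (a : ℤ) :
    ((Bx X).filter fun x : ℤ => (R : ℤ) ∣ a - x).card ≤ 2 * X / R + 1 := by
  classical
  have hR' : (0 : ℤ) < R := by exact_mod_cast hR
  have key : ((Bx X).filter fun x : ℤ => (R : ℤ) ∣ a - x).card ≤
      (Finset.range (2 * X / R + 1)).card := by
    refine Finset.card_le_card_of_injOn (fun x => ((x + X) / R).toNat) ?_ ?_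
    · intro x hx
      simp only [Finset.coe_filter, Set.mem_ofPred_eq, Bx, Finset.mem_filter, Finset.mem_Icc] at hx
      obtain ⟨⟨⟨h1, h2⟩, _⟩, _⟩ := hx
      simp only [Finset.coe_range, Set.mem_Iio]
      have e1 : 0 ≤ (x + X) / (R : ℤ) := Int.ediv_nonneg (by linarith) hR'.le
      have e2 : (x + X) / (R : ℤ) ≤ (2 * X : ℕ) / (R : ℤ) :=
        Int.ediv_le_ediv hR' (by push_cast; linarith)
      have e3 : ((2 * X : ℕ) : ℤ) / (R : ℤ) = ((2 * X / R : ℕ) : ℤ) := by norm_cast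
      omega
    · intro x hx y hy hxy
      simp only [Finset.coe_filter, Set.mem_ofPred_eq, Bx, Finset.mem_filter, Finset.mem_Icc]
        at hx hy
      obtain ⟨⟨⟨h1, h2⟩, _⟩, h3⟩ := hx
      obtain ⟨⟨⟨h1', h2'⟩, _⟩, h3'⟩ := hy
      have e1 : 0 ≤ (x + X) / (R : ℤ) := Int.ediv_nonneg (by linarith) hR'.le
      have e1' : 0 ≤ (y + X) / (R : ℤ) := Int.ediv_nonneg (by linarith) hR'.le
      have e2 : (x + X) / (R : ℤ) = (y + X) / (R : ℤ) := by
        have := congrArg (fun n : ℕ => (n : ℤ)) hxy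
        simp only [Int.toNat_of_nonneg e1, Int.toNat_of_nonneg e1'] at this
        exact this
      have e3 : (R : ℤ) ∣ (x + X) - (y + X) := by
        have : (x + X : ℤ) - (y + X) = (a - y) - (a - x) := by ring
        rw [this]
        exact dvd_sub h3' h3
      have e4 : (x + X : ℤ) % R = (y + X) % R :=
        Int.emod_eq_emod_iff_emod_sub_eq_zero.2 (Int.emod_eq_zero_of_dvd e3)
      have e5 := Int.mul_ediv_add_emod (x + X : ℤ) R
      have e6 := Int.mul_ediv_add_emod (y + X : ℤ) R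
      rw [e2, e4] at e5
      linarith
  simpa using key

private theorem cnt3_fib (R X H l : ℕ) (hR : 0 < R) :
    (((Bx H) ×ˢ (Bx X)).filter fun y : ℤ × ℤ => (R : ℤ) ∣ (l : ℤ) * y.1 - y.2).card ≤
      (2 * H + 1) * (2 * X / R + 1) := by
  classical
  have h1 : (((Bx H) ×ˢ (Bx X)).filter fun y : ℤ × ℤ => (R : ℤ) ∣ (l : ℤ) * y.1 - y.2) ⊆
      (Bx H).biUnion fun h => ((Bx X).filter fun x : ℤ => (R : ℤ) ∣ (l : ℤ) * h - x).image
        fun x => (h, x) := by
    intro y hy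
    simp only [Finset.mem_filter, Finset.mem_product] at hy
    simp only [Finset.mem_biUnion, Finset.mem_image, Finset.mem_filter]
    exact ⟨y.1, hy.1.1, y.2, ⟨hy.1.2, hy.2⟩, rfl⟩
  have h2 : (Bx H).card ≤ 2 * H + 1 := by
    calc (Bx H).card ≤ (Finset.Icc (-(H : ℤ)) H).card := Finset.card_filter_le _ _
      _ = 2 * H + 1 := by rw [Int.card_Icc]; omega
  calc _ ≤ _ := Finset.card_le_card h1
    _ ≤ ∑ h ∈ Bx H, (((Bx X).filter fun x : ℤ => (R : ℤ) ∣ (l : ℤ) * h - x).image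
        fun x => (h, x)).card := Finset.card_biUnion_le
    _ ≤ ∑ _h ∈ Bx H, (2 * X / R + 1) := by
        refine Finset.sum_le_sum fun h _ => ?_
        exact le_trans Finset.card_image_le (cnt3_class R X hR _)
    _ = (Bx H).card * (2 * X / R + 1) := by rw [Finset.sum_const, smul_eq_mul]
    _ ≤ _ := Nat.mul_le_mul_right _ h2

theorem cnt3 (D d j k : ℕ) (hjk : j < k) (h1 : d + 1 ≤ D) (h2 : D + 1 ≤ NN k)
    (h3 : d + 1 ≤ NN j) (h4 : D + 1 ≤ d + (NN k - NN j)) (h5 : k ≤ d)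
    (hF : NN j ≤ D + d + 1 → D + 1 + NN j + j ≤ 3 * d + (NN k - NN j)) :
    ∑ f ∈ Om k, nbad 3 D d j k (ext f) ≤ bd3 D d j k := by
  classical
  by_cases hbig : NN j ≤ D + d + 1
  swap
  · have hH : HH D d (NN j) = 0 := by
      unfold HH
      refine Nat.div_eq_of_lt ?_
      calc 15 * 4 ^ (D + d) < 4 ^ (D + d + 2) := by
            rw [pow_add 4 (D + d) 2]
            have : 0 < 4 ^ (D + d) := by positivity
            omega
        _ ≤ 4 ^ NN j := Nat.pow_le_pow_right (by norm_num) (by omega)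
    have : ∑ f ∈ Om k, nbad 3 D d j k (ext f) = 0 := by
      refine Finset.sum_eq_zero fun f hf => ?_
      unfold nbad
      rw [Finset.card_eq_zero, Finset.filter_eq_empty_iff]
      intro p hp hb
      obtain ⟨p, r, -, -, -, -, -, -, h, -, hB, -⟩ := bad_data 3 D d j k hjk h1 h2 h3 h4 h5 hf hb
      have := hB 1 (by decide)
      rw [hH] at this
      simp only [Bx, Finset.mem_filter, Finset.mem_Icc] at this
      omega
    rw [this]
    exact Nat.zero_le _
  have hF' := hF hbig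
  set H := HH D d (NN j) with hHdef
  set X := 3 * 4 ^ d with hXdef
  set L := NN k - NN j with hL
  -- the set of bad pairs
  set U : Finset (Σ _ : (Fin k → ℕ), ℕ) := (Om k).sigma fun f =>
    (Pr D).filter fun p => Bad 3 (QQ (ext f) j) (RR (ext f) j k) (Pr D) (Pr d) p with hU
  have hsum : ∑ f ∈ Om k, nbad 3 D d j k (ext f) = U.card := by
    rw [hU, Finset.card_sigma]
    rfl
  set W : Finset (Σ _ : ((ℤ × ℤ) × (ℤ × ℤ) × ℕ × ℕ × ℕ), ℤ × ℤ) :=
    (Dat j k H X d).sigma fun t => ((Bx H) ×ˢ (Bx X)).filter fun y : ℤ × ℤ =>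
      (t.2.2.1 : ℤ) ∣ (t.2.2.2.1 : ℤ) * y.1 - y.2 with hW
  -- the relation
  let Rel : (Σ _ : (Fin k → ℕ), ℕ) → (Σ _ : ((ℤ × ℤ) × (ℤ × ℤ) × ℕ × ℕ × ℕ), ℤ × ℤ) → Prop :=
    fun u w => ∃ (p r : Fin 4 → ℕ) (h : Fin 4 → ℤ) (l : ℕ), p 0 = u.2 ∧
      (∀ s, p s ∈ Pr D) ∧ (∀ s, r s ∈ Pr d) ∧ Function.Injective r ∧
      (∀ s, h s * (QQ (ext u.1) j : ℤ) = (p s : ℤ) * r s - p 0 * r 0) ∧
      (RR (ext u.1) j k : ℤ) ∣ (l : ℤ) * u.2 - QQ (ext u.1) j ∧
      w.1 = ((h 1, h 2), ((r 1 : ℤ) - r 0, (r 2 : ℤ) - r 0), RR (ext u.1) j k, l, r 0) ∧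
      w.2 = (h 3, (r 3 : ℤ) - r 0)
  have hcard : U.card ≤ W.card := by
    refine Finset.card_le_card_of_forall_subsingleton Rel ?_ ?_
    · intro u hu
      rw [hU, Finset.mem_sigma, Finset.mem_filter] at hu
      obtain ⟨hf, hp, hb⟩ := hu
      obtain ⟨p, r, hp0, hpD, hrd, hpi, hri, hcfg, h, hh, hB, hX, hdet, l, hl, hl0, hls⟩ :=
        bad_data 3 D d j k hjk h1 h2 h3 h4 h5 hf hb
      have n1 : (1 : Fin 4) ≠ 0 := by decide
      have n2 : (2 : Fin 4) ≠ 0 := by decide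
      have n3 : (3 : Fin 4) ≠ 0 := by decide
      have n12 : (1 : Fin 4) ≠ 2 := by decide
      refine ⟨⟨((h 1, h 2), ((r 1 : ℤ) - r 0, (r 2 : ℤ) - r 0), RR (ext u.1) j k, l, r 0),
        (h 3, (r 3 : ℤ) - r 0)⟩, ?_, p, r, h, l, hp0, hpD, hrd, hri, hh, hl0, rfl, rfl⟩
      rw [hW, Finset.mem_sigma]
      refine ⟨?_, ?_⟩
      · unfold Dat
        simp only [Finset.mem_filter, Finset.mem_product]
        obtain ⟨hd1, hd2⟩ := hdet 1 2 n1 n2 n12
        refine ⟨⟨⟨hB 1 n1, hB 2 n2⟩, ⟨hX 1 n1, hX 2 n2⟩, ?_, ?_, hrd 0⟩, hd1, hd2, hl, hls 1,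
          hls 2⟩
        · unfold RS
          rw [Finset.mem_image]
          exact ⟨u.1, hf, rfl⟩
        · rw [Finset.mem_range]
          have := (RR_bounds hjk.le hf).2
          omega
      · simp only [Finset.mem_filter, Finset.mem_product]
        exact ⟨⟨hB 3 n3, hX 3 n3⟩, hls 3⟩
    · intro w _
      rintro u ⟨hu, hru⟩ u' ⟨hu', hru'⟩
      rw [hU, Finset.mem_sigma, Finset.mem_filter] at hu hu'
      obtain ⟨hf, hp, hb⟩ := hu
      obtain ⟨hf', hp', hb'⟩ := hu'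
      obtain ⟨p, r, h, l, hp0, hpD, hrd, hri, hh, hl0, e1, e2⟩ := hru
      obtain ⟨p', r', h', l', hp0', hpD', hrd', hri', hh', hl0', e1', e2'⟩ := hru'
      rw [e1] at e1'
      rw [e2] at e2'
      simp only [Prod.mk.injEq] at e1' e2'
      obtain ⟨⟨eh1, eh2⟩, ⟨ex1, ex2⟩, eR, el, er0⟩ := e1'
      obtain ⟨eh3, ex3⟩ := e2'
      have er1 : r' 1 = r 1 := by omega
      have er2 : r' 2 = r 2 := by omega
      have er3 : r' 3 = r 3 := by omega
      have prr : ∀ s, (r s).Prime ∧ 4 ^ d < r s := by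
        intro s
        have := hrd s
        rw [Pr, Finset.mem_filter, Finset.mem_Ioc] at this
        exact ⟨this.2, this.1.1⟩
      have kd : 4 ^ k ≤ 4 ^ d := Nat.pow_le_pow_right (by norm_num) h5
      have cR : ∀ s, (r s).Coprime (RR (ext u.1) j k) := by
        intro s
        have := coprime_of_lt hjk.le hf (prr s).1 (lt_of_le_of_lt kd (prr s).2)
        exact Nat.Coprime.coprime_mul_left_right this
      have hRpos : 0 < RR (ext u.1) j k :=
        lt_of_lt_of_le (by positivity) (RR_bounds hjk.le hf).1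
      have big : 4 * 4 ^ D * 4 ^ (NN j + j) ≤ r 1 * r 2 * r 3 * RR (ext u.1) j k := by
        calc 4 * 4 ^ D * 4 ^ (NN j + j) = 4 ^ (D + 1 + NN j + j) := by
              rw [show D + 1 + NN j + j = 1 + D + (NN j + j) by ring, pow_add, pow_add]; ring
          _ ≤ 4 ^ (3 * d + (NN k - NN j)) := Nat.pow_le_pow_right (by norm_num) hF'
          _ = 4 ^ d * 4 ^ d * 4 ^ d * 4 ^ (NN k - NN j) := by
              rw [pow_add, show 3 * d = d + d + d by ring, pow_add, pow_add]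
          _ ≤ _ := Nat.mul_le_mul (Nat.mul_le_mul (Nat.mul_le_mul (prr 1).2.le (prr 2).2.le)
              (prr 3).2.le) (RR_bounds hjk.le hf).1
      have side : ∀ (f : Fin k → ℕ) (_ : f ∈ Om k) (p : Fin 4 → ℕ) (_ : ∀ s, p s ∈ Pr D)
          (hh : ∀ s, h s * (QQ (ext f) j : ℤ) = (p s : ℤ) * r s - p 0 * r 0)
          (_ : (RR (ext u.1) j k : ℤ) ∣ (l : ℤ) * (p 0 : ℕ) - QQ (ext f) j),
          0 < p 0 ∧ p 0 ≤ 4 * 4 ^ D ∧ 0 < QQ (ext f) j ∧ QQ (ext f) j ≤ 4 ^ (NN j + j) ∧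
          (p 0).Coprime (QQ (ext f) j) ∧ (RR (ext u.1) j k : ℤ) ∣ (l : ℤ) * (p 0 : ℕ) -
            QQ (ext f) j ∧
          (∃ p₁ : ℤ, h 1 * QQ (ext f) j = p₁ * r 1 - p 0 * r 0) ∧
          (∃ p₂ : ℤ, h 2 * QQ (ext f) j = p₂ * r 2 - p 0 * r 0) ∧
          (∃ p₃ : ℤ, h 3 * QQ (ext f) j = p₃ * r 3 - p 0 * r 0) := by
        intro f hf p hpD hh hl
        have hpp := hpD 0
        rw [Pr, Finset.mem_filter, Finset.mem_Ioc] at hpp
        have kD : 4 ^ k ≤ 4 ^ D := Nat.pow_le_pow_right (by norm_num) (by omega)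
        have hc := coprime_of_lt hjk.le hf hpp.2 (lt_of_le_of_lt kD hpp.1.1)
        refine ⟨hpp.2.pos, ?_, ?_, (QQ_bounds hjk.le hf).2,
          Nat.Coprime.coprime_mul_right_right hc, hl, ⟨p 1, hh 1⟩, ⟨p 2, hh 2⟩, ⟨p 3, hh 3⟩⟩
        · rw [pow_succ] at hpp
          omega
        · exact lt_of_lt_of_le (by positivity) (QQ_bounds hjk.le hf).1
      have hne : ∀ s t : Fin 4, s ≠ t → r s ≠ r t := fun s t hst h => hst (hri h)
      have hfin : (p 0, QQ (ext u.1) j) = (p' 0, QQ (ext u'.1) j) := by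
        refine fib3 (4 ^ D) (4 ^ (NN j + j)) (RR (ext u.1) j k) l (r 0) (r 1) (r 2) (r 3)
          (h 1) (h 2) (h 3) hRpos (prr 0).1 (prr 1).1 (prr 2).1 (prr 3).1
          (hne 0 1 (by decide)) (hne 0 2 (by decide)) (hne 0 3 (by decide))
          (hne 1 2 (by decide)) (hne 1 3 (by decide)) (hne 2 3 (by decide))
          (cR 1) (cR 2) (cR 3) big _ _ ?_ ?_
        · exact side u.1 hf p hpD hh (by rw [hp0]; exact hl0)
        · have hl1 : (RR (ext u.1) j k : ℤ) ∣ (l : ℤ) * (p' 0 : ℕ) - QQ (ext u'.1) j := by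
            rw [hp0', eR, el]; exact hl0'
          have hpp := hpD' 0
          rw [Pr, Finset.mem_filter, Finset.mem_Ioc] at hpp
          have kD : 4 ^ k ≤ 4 ^ D := Nat.pow_le_pow_right (by norm_num) (by omega)
          have hc := coprime_of_lt hjk.le hf' hpp.2 (lt_of_le_of_lt kD hpp.1.1)
          refine ⟨hpp.2.pos, ?_, ?_, (QQ_bounds hjk.le hf').2,
            Nat.Coprime.coprime_mul_right_right hc, hl1, ⟨p' 1, ?_⟩, ⟨p' 2, ?_⟩, ⟨p' 3, ?_⟩⟩
          · have := hpp.1.2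
            rw [pow_succ] at this
            show p' 0 ≤ 4 * 4 ^ D
            omega
          · exact lt_of_lt_of_le (by positivity) (QQ_bounds hjk.le hf').1
          · show h 1 * (QQ (ext u'.1) j : ℤ) = _
            rw [eh1, ← er1, er0]
            exact hh' 1
          · show h 2 * (QQ (ext u'.1) j : ℤ) = _
            rw [eh2, ← er2, er0]
            exact hh' 2
          · show h 3 * (QQ (ext u'.1) j : ℤ) = _
            rw [eh3, ← er3, er0]
            exact hh' 3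
      simp only [Prod.mk.injEq] at hfin
      have hff : u.1 = u'.1 := om_inj hjk.le hf hf' hfin.2 eR
      have hpp : u.2 = u'.2 := by rw [← hp0, ← hp0', hfin.1]
      obtain ⟨a, b⟩ := u
      obtain ⟨a', b'⟩ := u'
      simp only at hff hpp
      subst hff
      subst hpp
      rfl
  -- the cardinality of W
  have hWc : W.card ≤ (Dat j k H X d).card * ((2 * H + 1) * (2 * X / 4 ^ L + 1)) := by
    rw [hW, Finset.card_sigma]
    calc _ ≤ ∑ _t ∈ Dat j k H X d, (2 * H + 1) * (2 * X / 4 ^ L + 1) := by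
          refine Finset.sum_le_sum fun t ht => ?_
          have hR : t.2.2.1 ∈ RS j k := by
            unfold Dat at ht
            simp only [Finset.mem_filter, Finset.mem_product] at ht
            exact ht.1.2.2.1
          unfold RS at hR
          rw [Finset.mem_image] at hR
          obtain ⟨f, hf, hfR⟩ := hR
          have hlow := (RR_bounds hjk.le hf).1
          rw [hfR] at hlow
          have hpos : 0 < t.2.2.1 := lt_of_lt_of_le (by positivity) hlow
          refine le_trans (cnt3_fib _ _ _ _ hpos) ?_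
          refine Nat.mul_le_mul_left _ ?_
          exact Nat.succ_le_succ (Nat.div_le_div_left (a := 2 * X) hlow (by positivity))
      _ = _ := by rw [Finset.sum_const, smul_eq_mul]
  have hdat : (Dat j k H X d).card ≤ (D + 2 * d + 4 + 2) ^ k * (32 * H ^ 2 * X ^ 2) *
      (Pr d).card := by
    refine dat_card j k H X d (D + 2 * d + 4) hjk.le ?_
    have hH : H ≤ 15 * 4 ^ (D + d) := by
      rw [hHdef]; unfold HH; exact Nat.div_le_self _ _
    calc 2 * H * X ≤ 2 * (15 * 4 ^ (D + d)) * X := by gcongr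
      _ = 90 * (4 ^ (D + d) * 4 ^ d) := by rw [hXdef]; ring
      _ ≤ 256 * (4 ^ (D + d) * 4 ^ d) := by gcongr; norm_num
      _ = 4 ^ (D + 2 * d + 4) := by
          rw [show D + 2 * d + 4 = (D + d) + d + 4 by ring, pow_add, pow_add]; ring
  rw [hsum]
  calc U.card ≤ W.card := hcard
    _ ≤ _ := hWc
    _ ≤ ((D + 2 * d + 4 + 2) ^ k * (32 * H ^ 2 * X ^ 2) * (3 * 4 ^ d)) *
        ((2 * H + 1) * (2 * X / 4 ^ L + 1)) := by
        refine Nat.mul_le_mul_right _ (le_trans hdat ?_)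
        exact Nat.mul_le_mul_left _ (Pr_card_le d)
    _ = bd3 D d j k := by
        unfold bd3
        rw [← hHdef, ← hXdef, ← hL]

end BG
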