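import Pool.Agent.Lib.MP_be7f9f_nt.Defs

/-!
# Discrete logarithms

Proof.  For every prime `q` choose a generator `γ` of the cyclic group `(ZMod q)ˣ` (of order
`q - 1`); for `a` coprime to `q` let `lg q a < q - 1` be the exponent with `γ ^ lg q a = a`, and
`lg q a = 0` otherwise (or if `q` is not prime).  If the sums of the logarithms agree, so do the
products in `ZMod q`.
-/

namespace BG

private theorem dlog_one (q : ℕ) (hq : q.Prime) : ∃ l : ℕ → ℕ, (∀ a, l a < q) ∧
    (∀ a b, a.Coprime q → b.Coprime q → l a = l b → a ≡ b [MOD q]) ∧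
    (∀ a b a' b', a.Coprime q → b.Coprime q → a'.Coprime q → b'.Coprime q →
      l a + l b = l a' + l b' → a * b ≡ a' * b' [MOD q]) := by
  classical
  have : Fact q.Prime := ⟨hq⟩
  obtain ⟨γ, hγ⟩ := IsCyclic.exists_generator (α := (ZMod q)ˣ)
  have hord : orderOf γ < q := by
    have h1 := orderOf_le_card_univ (x := γ)
    rw [ZMod.card_units_eq_totient, Nat.totient_prime hq] at h1
    have := hq.pos
    omega
  have h : ∀ a : ℕ, ∃ k, k < q ∧ (a.Coprime q → ((γ : (ZMod q)ˣ) : ZMod q) ^ k = (a : ZMod q)) := by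
    intro a
    by_cases ha : a.Coprime q
    · have h1 := hγ (ZMod.unitOfCoprime a ha)
      rw [mem_zpowers_iff_mem_range_orderOf, Finset.mem_image] at h1
      obtain ⟨k, hk, h2⟩ := h1
      refine ⟨k, lt_trans (Finset.mem_range.1 hk) hord, fun _ => ?_⟩
      have h3 := congrArg (fun u : (ZMod q)ˣ => (u : ZMod q)) h2
      simpa using h3
    · exact ⟨0, hq.pos, fun h => absurd h ha⟩
  choose l hl using h
  refine ⟨l, fun a => (hl a).1, fun a b ha hb hab => ?_, fun a b a' b' ha hb ha' hb' hs => ?_⟩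
  · rw [← ZMod.natCast_eq_natCast_iff, ← (hl a).2 ha, ← (hl b).2 hb, hab]
  · rw [← ZMod.natCast_eq_natCast_iff, Nat.cast_mul, Nat.cast_mul, ← (hl a).2 ha, ← (hl b).2 hb,
      ← (hl a').2 ha', ← (hl b').2 hb', ← pow_add, ← pow_add, hs]

theorem exists_log : ∃ lg : ℕ → ℕ → ℕ, IsLog lg := by
  classical
  refine ⟨fun q => if hq : q.Prime then Classical.choose (dlog_one q hq) else fun _ => 0,
    fun q hq => ?_⟩
  simp only [dif_pos hq]
  exact Classical.choose_spec (dlog_one q hq)

end BG
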