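import Pool.Agent.Lib.MP_be7f9f_nt.Fac

/-!
# Blocks far apart: no bad primes

Proof.  `RR ≥ 4^(NN k - NN j) ≥ 4^(D+1)`, so `p s ≡ p 0` mod `RR` and `p s, p 0 ∈ (4^D, 4^(D+1)]`
give `p s = p 0`.  Then `QQ ∣ p 0 * (r s - r 0)`, `p 0 > 4^D ≥ 4^k` is coprime to `QQ`
(`coprime_of_lt`), so `QQ ∣ r s - r 0`, `|r s - r 0| < 3 * 4^d < 4^(d+1) ≤ 4^(NN j) ≤ QQ`, and
`r s = r 0` for all `s`: the pairs are not different (`g + 1 ≥ 2`).
-/

namespace BG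

private theorem Emp_mem {n p : ℕ} (h : p ∈ Pr n) : 4 ^ n < p ∧ p ≤ 4 ^ (n + 1) ∧ p.Prime := by
  rw [Pr, Finset.mem_filter, Finset.mem_Ioc] at h
  exact ⟨h.1.1, h.1.2, h.2⟩

private theorem Emp_eq {n M a b : ℕ} (ha : a ∈ Pr n) (hb : b ∈ Pr n) (hM : 4 ^ (n + 1) ≤ M)
    (h : a ≡ b [MOD M]) : a = b := by
  obtain ⟨a1, a2, -⟩ := Emp_mem ha
  obtain ⟨b1, b2, -⟩ := Emp_mem hb
  have h1 := (Nat.modEq_iff_dvd).1 h
  have h0 : 0 < 4 ^ n := by positivity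
  have h2 : |(b : ℤ) - a| < M := by
    rw [abs_lt]
    constructor <;> omega
  have h3 := Int.eq_zero_of_abs_lt_dvd h1 h2
  omega

theorem nbad_eq_zero (g D d j k : ℕ) (hg : 1 ≤ g) (hjk : j ≤ k) (h1 : k ≤ D)
    (h3 : d + 1 ≤ NN j) (h4 : D + 1 ≤ NN k - NN j) {f : Fin k → ℕ} (hf : f ∈ Om k) :
    nbad g D d j k (ext f) = 0 := by
  classical
  have hQ := (QQ_bounds hjk hf).1
  have hR := (RR_bounds hjk hf).1
  have hR' : 4 ^ (D + 1) ≤ RR (ext f) j k :=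
    (Nat.pow_le_pow_right (by norm_num) h4).trans hR
  have hQ' : 4 ^ (d + 1) ≤ QQ (ext f) j :=
    (Nat.pow_le_pow_right (by norm_num) h3).trans hQ
  unfold nbad
  rw [Finset.card_eq_zero, Finset.filter_eq_empty_iff]
  rintro p₀ hp₀ ⟨p, r, h0, hS, hT, hinj, hcong⟩
  have hs := hcong (Fin.last g)
  have e1 : p (Fin.last g) = p 0 := Emp_eq (hS _) (hS _) hR' hs.1
  have hp : 4 ^ k < p 0 :=
    (Nat.pow_le_pow_right (by norm_num) h1).trans_lt (Emp_mem (hS 0)).1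
  have hcop : (p 0).Coprime (QQ (ext f) j) :=
    Nat.Coprime.coprime_mul_right_right (coprime_of_lt hjk hf (Emp_mem (hS 0)).2.2 hp)
  have e2 : r (Fin.last g) = r 0 := by
    have h5 := hs.2
    rw [e1] at h5
    exact Emp_eq (hT _) (hT _) hQ' (Nat.ModEq.cancel_left_of_coprime hcop.symm h5)
  have e3 : Fin.last g = 0 := hinj (by simp only [e1, e2])
  have e4 := congrArg Fin.val e3
  simp only [Fin.val_last, Fin.val_zero] at e4
  omega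

end BG
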