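import Pool.Agent.Lib.MP_be7f9f_nt.Defs

/-!
# From sets to sequences

Proof.  `A` is infinite by `hn`, `hinf`; take `a = Nat.nth (· ∈ A)`, strictly increasing with
values in `A`; so the representations of `m` by `a` inject into those by `A` and the bound follows
from `hA` (`a` is injective).  Growth: let `j` be given and let `k ≥ k₀` be minimal with
`n k > j`.  `A ∩ [0, X k]` has more than `j` elements, so `a j ≤ X k`.  If `k = k₀` this is a
constant (`≤ X k₀ * (j+1)^e`).  Otherwise `k = k' + 1`, `n k' ≤ j`, and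
`a j ≤ X (k'+1) ≤ C * (n k')^e ≤ |C| * (j+1)^e`.
-/

namespace BG

private theorem Enum_nth_le (A : Set ℕ) {j N : ℕ} (h : j < (A ∩ Set.Iic N).ncard) :
    Nat.nth (· ∈ A) j ≤ N := by
  classical
  have h1 : (A ∩ Set.Iic N) = ↑((Finset.range (N + 1)).filter (· ∈ A)) := by
    ext x
    simp only [Set.mem_inter_iff, Set.mem_Iic, Finset.coe_filter, Finset.mem_range,
      Set.mem_ofPred_eq]
    constructor
    · rintro ⟨h2, h3⟩
      exact ⟨by omega, h2⟩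
    · rintro ⟨h2, h3⟩
      exact ⟨h3, by omega⟩
  rw [h1, Set.ncard_coe_finset, ← Nat.count_eq_card_filter_range] at h
  exact Nat.lt_succ_iff.1 (Nat.nth_lt_of_lt_count h)

theorem enum (A : Set ℕ) (g : ℕ) (hA : IsB g A) (h0 : 0 ∉ A) (e C : ℝ) (he : 0 < e)
    (n X : ℕ → ℕ) (k₀ : ℕ) (hn : ∀ k, k₀ ≤ k → n k ≤ (A ∩ Set.Iic (X k)).ncard)
    (hX : ∀ k, k₀ ≤ k → (X (k + 1) : ℝ) ≤ C * (n k : ℝ) ^ e)
    (hinf : ∀ M, ∃ k, k₀ ≤ k ∧ M ≤ n k) :
    ∃ a : ℕ → ℕ, StrictMono a ∧ 0 < a 0 ∧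
      (∀ m : ℕ, {x : ℕ × ℕ | x.1 ≤ x.2 ∧ a x.1 + a x.2 = m}.encard ≤ g) ∧
      ∃ C' : ℝ, ∀ j : ℕ, (a j : ℝ) ≤ C' * ((j : ℝ) + 1) ^ e := by
  classical
  have hAinf : A.Infinite := by
    intro hfin
    obtain ⟨k, hk, h1⟩ := hinf (A.ncard + 1)
    have h2 := hn k hk
    have h3 := Set.ncard_le_ncard (Set.inter_subset_left (s := A) (t := Set.Iic (X k))) hfin
    omega
  have hmono : StrictMono (Nat.nth (· ∈ A)) := Nat.nth_strictMono hAinf
  have hmem : ∀ j, Nat.nth (· ∈ A) j ∈ A := fun j => Nat.nth_mem_of_infinite hAinf j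
  refine ⟨Nat.nth (· ∈ A), hmono, ?_, ?_, ?_⟩
  · refine Nat.pos_of_ne_zero fun h => h0 ?_
    have h1 := hmem 0
    rwa [h] at h1
  · intro m
    refine le_trans ?_ (hA m)
    refine Set.encard_le_encard_of_injOn
      (f := fun x : ℕ × ℕ => (Nat.nth (· ∈ A) x.1, Nat.nth (· ∈ A) x.2)) ?_ ?_
    · rintro ⟨x, y⟩ ⟨h1, h2⟩
      exact ⟨hmem x, hmem y, hmono.monotone h1, h2⟩
    · rintro ⟨x, y⟩ - ⟨x', y'⟩ - h
      have h1 := congrArg Prod.fst h
      have h2 := congrArg Prod.snd h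
      exact Prod.ext (hmono.injective h1) (hmono.injective h2)
  · refine ⟨(X k₀ : ℝ) + |C|, fun j => ?_⟩
    have hex : ∃ k, k₀ ≤ k ∧ j < n k := by
      obtain ⟨k, h1, h2⟩ := hinf (j + 1)
      exact ⟨k, h1, h2⟩
    have h1 := Nat.find_spec hex
    have h2 : ∀ k, k < Nat.find hex → ¬ (k₀ ≤ k ∧ j < n k) := fun k hk => Nat.find_min hex hk
    generalize Nat.find hex = k at h1 h2
    have h3 : Nat.nth (· ∈ A) j ≤ X k := Enum_nth_le A (h1.2.trans_le (hn k h1.1))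
    have h4 : (Nat.nth (· ∈ A) j : ℝ) ≤ X k := by exact_mod_cast h3
    have hj0 : (0 : ℝ) ≤ j := Nat.cast_nonneg j
    have h5 : (1 : ℝ) ≤ ((j : ℝ) + 1) ^ e := Real.one_le_rpow (by linarith) he.le
    have hC : 0 ≤ |C| := abs_nonneg C
    have hX0 : (0 : ℝ) ≤ X k₀ := Nat.cast_nonneg _
    rcases h1.1.eq_or_lt with h6 | h6
    · rw [← h6] at h4
      nlinarith
    · obtain ⟨k', rfl⟩ : ∃ k', k = k' + 1 := ⟨k - 1, by omega⟩
      have h7 : n k' ≤ j := by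
        by_contra hcon
        exact h2 k' (Nat.lt_succ_self k') ⟨by omega, by omega⟩
      have h8 : (n k' : ℝ) ≤ (j : ℝ) + 1 := by
        have : (n k' : ℝ) ≤ j := by exact_mod_cast h7
        linarith
      have h9 : (n k' : ℝ) ^ e ≤ ((j : ℝ) + 1) ^ e :=
        Real.rpow_le_rpow (Nat.cast_nonneg _) h8 he.le
      have h10 := hX k' (by omega)
      have h11 : C * (n k' : ℝ) ^ e ≤ |C| * ((j : ℝ) + 1) ^ e :=
        mul_le_mul (le_abs_self C) h9 (Real.rpow_nonneg (Nat.cast_nonneg _) _) hC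
      nlinarith

end BG
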