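import Pool.Agent.Lib.MP_be7f9f_nt.Defs

/-!
# The moduli: sizes, coprimality, unique factorisation

For `f ∈ Om k` the numbers `ext f i`, `i < k`, are primes in the disjoint intervals
`(4^i, 4^(i+1)]`; for `j ≤ k`, `QQ (ext f) j = ∏_{i<j} f i` and `RR (ext f) j k = ∏_{j ≤ i<k} f i`.
`om_inj`: a prime `f i` (`i < j`) divides `QQ (ext f') j`, so it is one of the `f' l`, and the
intervals are disjoint, so `l = i`; the same for `RR`.
-/

namespace BG

theorem ext_mem {k : ℕ} {f : Fin k → ℕ} (hf : f ∈ Om k) {i : ℕ} (hi : i < k) :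
    ext f i ∈ Pr i := by
  unfold Om at hf
  rw [Fintype.mem_piFinset] at hf
  unfold ext
  rw [dif_pos hi]
  exact hf ⟨i, hi⟩

theorem ext_restrict (q : ℕ → ℕ) (k i : ℕ) (hi : i < k) :
    ext (fun i : Fin k => q i) i = q i := by
  unfold ext
  rw [dif_pos hi]

private theorem fac_mem {n p : ℕ} (h : p ∈ Pr n) : p.Prime ∧ 4 ^ n < p ∧ p ≤ 4 ^ (n + 1) := by
  rw [Pr, Finset.mem_filter, Finset.mem_Ioc] at h
  exact ⟨h.2, h.1.1, h.1.2⟩

private theorem fac_eq {n m p : ℕ} (h : p ∈ Pr n) (h' : p ∈ Pr m) : n = m := by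
  obtain ⟨_, a1, a2⟩ := fac_mem h
  obtain ⟨_, b1, b2⟩ := fac_mem h'
  have c1 : 4 ^ n < 4 ^ (m + 1) := lt_of_lt_of_le a1 b2
  have c2 : 4 ^ m < 4 ^ (n + 1) := lt_of_lt_of_le b1 a2
  have d1 := (Nat.pow_lt_pow_iff_right (by norm_num : 1 < 4)).1 c1
  have d2 := (Nat.pow_lt_pow_iff_right (by norm_num : 1 < 4)).1 c2
  omega

private theorem fac_NN_sub {j k : ℕ} (hj : j ≤ k) :
    ∑ i ∈ Finset.Ico j k, i = NN k - NN j := by
  unfold NN
  have := Finset.sum_range_add_sum_Ico (fun i : ℕ => i) hj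
  omega

theorem QQ_bounds {j k : ℕ} (hj : j ≤ k) {f : Fin k → ℕ} (hf : f ∈ Om k) :
    4 ^ NN j ≤ QQ (ext f) j ∧ QQ (ext f) j ≤ 4 ^ (NN j + j) := by
  constructor
  · unfold NN QQ
    rw [← Finset.prod_pow_eq_pow_sum]
    refine Finset.prod_le_prod' fun i hi => ?_
    rw [Finset.mem_range] at hi
    exact (fac_mem (ext_mem hf (by omega))).2.1.le
  · have : 4 ^ (NN j + j) = ∏ i ∈ Finset.range j, 4 ^ (i + 1) := by
      rw [Finset.prod_pow_eq_pow_sum, Finset.sum_add_distrib]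
      congr 1
      unfold NN
      simp
    rw [this]
    unfold QQ
    refine Finset.prod_le_prod' fun i hi => ?_
    rw [Finset.mem_range] at hi
    exact (fac_mem (ext_mem hf (by omega))).2.2

theorem RR_bounds {j k : ℕ} (hj : j ≤ k) {f : Fin k → ℕ} (hf : f ∈ Om k) :
    4 ^ (NN k - NN j) ≤ RR (ext f) j k ∧ RR (ext f) j k ≤ 4 ^ (NN k + k) := by
  constructor
  · rw [← fac_NN_sub hj, ← Finset.prod_pow_eq_pow_sum]
    unfold RR
    refine Finset.prod_le_prod' fun i hi => ?_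
    rw [Finset.mem_Ico] at hi
    exact (fac_mem (ext_mem hf hi.2)).2.1.le
  · have h1 : RR (ext f) j k ≤ ∏ i ∈ Finset.Ico j k, 4 ^ (i + 1) := by
      unfold RR
      refine Finset.prod_le_prod' fun i hi => ?_
      rw [Finset.mem_Ico] at hi
      exact (fac_mem (ext_mem hf hi.2)).2.2
    refine le_trans h1 ?_
    rw [Finset.prod_pow_eq_pow_sum]
    refine Nat.pow_le_pow_right (by norm_num) ?_
    calc ∑ i ∈ Finset.Ico j k, (i + 1) ≤ ∑ i ∈ Finset.range k, (i + 1) := by
          refine Finset.sum_le_sum_of_subset ?_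
          intro i hi
          rw [Finset.mem_Ico] at hi
          rw [Finset.mem_range]
          exact hi.2
      _ = NN k + k := by
          rw [Finset.sum_add_distrib]
          unfold NN
          simp

theorem QR_coprime {j k : ℕ} (hj : j ≤ k) {f : Fin k → ℕ} (hf : f ∈ Om k) :
    (QQ (ext f) j).Coprime (RR (ext f) j k) := by
  unfold QQ RR
  refine Nat.Coprime.prod_left fun i hi => Nat.Coprime.prod_right fun l hl => ?_
  rw [Finset.mem_range] at hi
  rw [Finset.mem_Ico] at hl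
  have a := ext_mem hf (show i < k by omega)
  have b := ext_mem hf hl.2
  rw [Nat.coprime_primes (fac_mem a).1 (fac_mem b).1]
  intro h
  rw [h] at a
  have := fac_eq a b
  omega

theorem coprime_of_lt {j k : ℕ} (hj : j ≤ k) {f : Fin k → ℕ} (hf : f ∈ Om k) {p : ℕ}
    (hp : p.Prime) (h : 4 ^ k < p) : p.Coprime (QQ (ext f) j * RR (ext f) j k) := by
  have key : ∀ i < k, p.Coprime (ext f i) := by
    intro i hi
    have a := fac_mem (ext_mem hf hi)
    rw [Nat.coprime_primes hp a.1]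
    have : 4 ^ (i + 1) ≤ 4 ^ k := Nat.pow_le_pow_right (by norm_num) hi
    omega
  refine Nat.Coprime.mul_right ?_ ?_
  · unfold QQ
    refine Nat.Coprime.prod_right fun i hi => key i ?_
    rw [Finset.mem_range] at hi
    omega
  · unfold RR
    refine Nat.Coprime.prod_right fun i hi => key i ?_
    rw [Finset.mem_Ico] at hi
    exact hi.2

private theorem fac_dvd {k : ℕ} {f f' : Fin k → ℕ} (hf : f ∈ Om k) (hf' : f' ∈ Om k)
    {S : Finset ℕ} (hS : ∀ i ∈ S, i < k)
    (h : ∏ i ∈ S, ext f i = ∏ i ∈ S, ext f' i) {i : ℕ} (hi : i ∈ S) : ext f i = ext f' i := by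
  have a := ext_mem hf (hS i hi)
  have h1 : ext f i ∣ ∏ l ∈ S, ext f' l := by
    rw [← h]
    exact Finset.dvd_prod_of_mem _ hi
  obtain ⟨l, hl, hdl⟩ := ((fac_mem a).1.prime.dvd_finsetProd_iff _).1 h1
  have b := ext_mem hf' (hS l hl)
  have e : ext f i = ext f' l := ((Nat.prime_dvd_prime_iff_eq (fac_mem a).1 (fac_mem b).1).1 hdl)
  rw [e] at a
  have := fac_eq a b
  rw [e, this]

theorem om_inj {j k : ℕ} (hj : j ≤ k) {f f' : Fin k → ℕ} (hf : f ∈ Om k) (hf' : f' ∈ Om k)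
    (hQ : QQ (ext f) j = QQ (ext f') j) (hR : RR (ext f) j k = RR (ext f') j k) : f = f' := by
  funext i
  have key : ext f i = ext f' i := by
    by_cases hi : (i : ℕ) < j
    · exact fac_dvd hf hf' (S := Finset.range j)
        (fun l hl => by rw [Finset.mem_range] at hl; omega) hQ (Finset.mem_range.2 hi)
    · exact fac_dvd hf hf' (S := Finset.Ico j k)
        (fun l hl => (Finset.mem_Ico.1 hl).2) hR (Finset.mem_Ico.2 ⟨by omega, i.2⟩)
  unfold ext at key
  rw [dif_pos i.2, dif_pos i.2] at key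
  exact key

end BG
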