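import Pool.Agent.Lib.MP_be7f9f_nt.Dig
import Pool.Agent.Lib.MP_be7f9f_nt.ToMod
import Pool.Agent.Lib.MP_be7f9f_nt.Fac

/-!
# Growth

* `grow1`: all elements of block `k` are `< ∏_{l<k} (4 q l) ≤ 4^(NN k + 2 k)` (`val_lt`; digits
  `q i + lg < 2 q i`).  By `hE k` at most half of the primes of `Pr (DD c k)` are bad (for some
  `j ∈ Ico k₀ k`), as `QQ (ext ..) j = QQ q j`, `RR (ext ..) j k = RR q j k` for `j ≤ k`
  (`ext_restrict`).  The map `p ↦ el q lg k p` is injective on `Pr (DD c k)`: equal values have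
  equal digits (`val_inj`), so `p ≡ p'` mod `RR q 0 k = QQ q k ≥ 4^(NN k)` (`to_mod` with `j = 0`)
  and `p, p' ≤ 4^(DD c k + 1) ≤ 4^(NN k)`, i.e. `|p - p'| < 4^(NN k)`.
* `grow2`: `NN (k+1) + 2 (k+1) = NN k + 3 k + 2`, and `card (Pr D) ≥ 4^D / (C (D+1))`,
  `D = DD c k ≥ NN k / c - 1`, `e > c`: `NN k + 3k + 2 ≤ e (NN k / c - 1 - log_4 (2 C (D+1)))`
  for large `k`.
* `grow3`: `card (Pr D) ≥ 4^D / (C (D+1))` tends to infinity.
-/

namespace BG

private theorem grow_NN_succ (k : ℕ) : NN (k + 1) = NN k + k := by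
  unfold NN; rw [Finset.sum_range_succ]

private theorem grow_NN_real (k : ℕ) : (NN k : ℝ) = (k : ℝ) * ((k : ℝ) - 1) / 2 := by
  induction k with
  | zero => simp [NN]
  | succ n ih => rw [grow_NN_succ]; push_cast; rw [ih]; ring

private theorem grow_QQ_ext (q : ℕ → ℕ) (k j : ℕ) (hj : j ≤ k) :
    QQ (ext fun i : Fin k => q i) j = QQ q j := by
  unfold QQ
  refine Finset.prod_congr rfl fun i hi => ?_
  rw [Finset.mem_range] at hi
  exact ext_restrict q k i (by omega)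

private theorem grow_RR_ext (q : ℕ → ℕ) (k j : ℕ) :
    RR (ext fun i : Fin k => q i) j k = RR q j k := by
  unfold RR
  refine Finset.prod_congr rfl fun i hi => ?_
  rw [Finset.mem_Ico] at hi
  exact ext_restrict q k i hi.2

theorem grow1 (c : ℝ) (g k₀ : ℕ) (q : ℕ → ℕ) (hq : ∀ i, q i ∈ Pr i) (lg : ℕ → ℕ → ℕ)
    (hlg : IsLog lg) (h1 : ∀ k, k₀ ≤ k → k ≤ DD c k) (h2 : ∀ k, k₀ ≤ k → 2 * DD c k + 2 ≤ NN k)
    (hE : ∀ k, ¬ Ev c g k₀ k (fun i : Fin k => q i)) (k : ℕ) (hk : k₀ ≤ k) :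
    ((Pr (DD c k)).card + 1) / 2 ≤
      (Aset c g k₀ q lg ∩ Set.Iic (4 ^ (NN k + 2 * k))).ncard := by
  classical
  set D := DD c k with hD
  have hqp : ∀ i, (q i).Prime ∧ 4 ^ i < q i ∧ q i ≤ 4 ^ (i + 1) := by
    intro i
    have := hq i
    rw [Pr, Finset.mem_filter, Finset.mem_Ioc] at this
    exact ⟨this.2, this.1.1, this.1.2⟩
  have hkD : k ≤ D := h1 k hk
  have hDN : 2 * D + 2 ≤ NN k := h2 k hk
  -- the good primes
  let B : ℕ → Finset ℕ := fun j =>
    (Pr D).filter fun p => Bad g (QQ q j) (RR q j k) (Pr D) (Pr (DD c j)) p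
  let G : Finset ℕ := (Pr D).filter fun p => ∀ j ∈ Finset.Ico k₀ k,
    ¬ Bad g (QQ q j) (RR q j k) (Pr D) (Pr (DD c j)) p
  have hB : ∀ j ∈ Finset.Ico k₀ k,
      nbad g D (DD c j) j k (ext fun i : Fin k => q i) = (B j).card := by
    intro j hj
    rw [Finset.mem_Ico] at hj
    unfold nbad
    rw [grow_QQ_ext q k j hj.2.le, grow_RR_ext q k j]
  have hsum : 2 * ∑ j ∈ Finset.Ico k₀ k, (B j).card ≤ (Pr D).card := by
    have := hE k
    unfold Ev at this
    push Not at this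
    have h := this hk
    rw [Finset.sum_congr rfl hB] at h
    exact h
  have hcov : (Pr D) ⊆ G ∪ (Finset.Ico k₀ k).biUnion B := by
    intro p hp
    by_cases hg : ∀ j ∈ Finset.Ico k₀ k,
        ¬ Bad g (QQ q j) (RR q j k) (Pr D) (Pr (DD c j)) p
    · exact Finset.mem_union_left _ (Finset.mem_filter.2 ⟨hp, hg⟩)
    · push Not at hg
      obtain ⟨j, hj, hb⟩ := hg
      exact Finset.mem_union_right _ (Finset.mem_biUnion.2 ⟨j, hj, Finset.mem_filter.2 ⟨hp, hb⟩⟩)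
  have hG : ((Pr D).card + 1) / 2 ≤ G.card := by
    have a1 : (Pr D).card ≤ G.card + ((Finset.Ico k₀ k).biUnion B).card :=
      le_trans (Finset.card_le_card hcov) (Finset.card_union_le _ _)
    have a2 : ((Finset.Ico k₀ k).biUnion B).card ≤ ∑ j ∈ Finset.Ico k₀ k, (B j).card :=
      Finset.card_biUnion_le
    omega
  -- injectivity
  have hinj : Set.InjOn (fun p => el q lg k p) (G : Set ℕ) := by
    intro p hp p' hp' he
    have hpm : p ∈ Pr D := (Finset.mem_filter.1 (Finset.mem_coe.1 hp)).1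
    have hpm' : p' ∈ Pr D := (Finset.mem_filter.1 (Finset.mem_coe.1 hp')).1
    rw [Pr, Finset.mem_filter, Finset.mem_Ioc] at hpm hpm'
    have hdig := val_inj q (fun i => q i + lg (q i) p) (fun i => q i + lg (q i) p') k
      (fun i _ => by have := (hlg (q i) (hqp i).1).1 p; omega)
      (fun i _ => by have := (hlg (q i) (hqp i).1).1 p'; omega) he
    have hcop : ∀ p : ℕ, p.Prime → 4 ^ D < p → ∀ i < k, p.Coprime (q i) := by
      intro p hpp hpl i hi
      rw [Nat.coprime_primes hpp (hqp i).1]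
      have : q i ≤ 4 ^ D := le_trans (hqp i).2.2 (Nat.pow_le_pow_right (by norm_num) (by omega))
      omega
    have hm := (to_mod q hq lg hlg (j := 0) (k := k) (p := p) (r := 1) (p' := p') (r' := 1)
      (Nat.zero_le _) (hcop p hpm.2 hpm.1.1) (hcop p' hpm'.2 hpm'.1.1)
      (fun i hi => absurd hi (by omega)) (fun i hi => absurd hi (by omega))
      (fun i hi => absurd hi (by omega))
      (fun i _ hi => by have := hdig i hi; omega)).2
    have hR : 4 ^ NN k ≤ RR q 0 k := by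
      have hf : (fun i : Fin k => q i) ∈ Om k := by
        unfold Om
        rw [Fintype.mem_piFinset]
        intro i
        exact hq i
      have := (RR_bounds (Nat.zero_le k) hf).1
      rw [grow_RR_ext q k 0] at this
      have h0 : NN 0 = 0 := by simp [NN]
      rw [h0, Nat.sub_zero] at this
      exact this
    have hlt : 4 ^ (D + 1) < 4 ^ NN k := Nat.pow_lt_pow_right (by norm_num) (by omega)
    exact hm.eq_of_lt_of_lt (by omega) (by omega)
  -- conclusion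
  have hsub : ((G.image fun p => el q lg k p : Finset ℕ) : Set ℕ) ⊆
      Aset c g k₀ q lg ∩ Set.Iic (4 ^ (NN k + 2 * k)) := by
    intro a ha
    rw [Finset.mem_coe, Finset.mem_image] at ha
    obtain ⟨p, hp, rfl⟩ := ha
    rw [Finset.mem_filter] at hp
    refine ⟨⟨k, hk, p, hp.1, hp.2, rfl⟩, ?_⟩
    rw [Set.mem_Iic]
    have hv : el q lg k p < ∏ l ∈ Finset.range k, (4 * q l) := by
      refine val_lt q _ k fun i _ => ?_
      have := (hlg (q i) (hqp i).1).1 p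
      omega
    refine le_trans hv.le ?_
    calc ∏ l ∈ Finset.range k, (4 * q l) ≤ ∏ l ∈ Finset.range k, 4 ^ (l + 2) := by
          refine Finset.prod_le_prod' fun l _ => ?_
          have := (hqp l).2.2
          rw [pow_succ 4 (l + 1)]
          omega
      _ = 4 ^ (NN k + 2 * k) := by
          rw [Finset.prod_pow_eq_pow_sum, Finset.sum_add_distrib]
          congr 1
          unfold NN
          rw [Finset.sum_const, Finset.card_range, smul_eq_mul]
          ring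
  calc ((Pr D).card + 1) / 2 ≤ G.card := hG
    _ = (G.image fun p => el q lg k p).card := (Finset.card_image_of_injOn hinj).symm
    _ = ((G.image fun p => el q lg k p : Finset ℕ) : Set ℕ).ncard :=
        (Set.ncard_coe_finset _).symm
    _ ≤ _ := Set.ncard_le_ncard hsub ((Set.finite_Iic _).subset Set.inter_subset_right)

private theorem grow_large (c : ℝ) (hc : 0 < c) (M : ℕ) :
    ∃ k₁ : ℕ, ∀ k, k₁ ≤ k → k + M ≤ DD c k := by
  obtain ⟨K, hK⟩ := exists_nat_ge (2 * c * (1 + M) + 2)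
  refine ⟨K, fun k hk => ?_⟩
  unfold DD
  refine Nat.le_floor ?_
  rw [grow_NN_real, le_div_iff₀ hc]
  have hkr : 2 * c * (1 + M) + 2 ≤ (k : ℝ) := le_trans hK (by exact_mod_cast hk)
  push_cast
  have h1 : (1 : ℝ) ≤ k := by
    have : 0 ≤ 2 * c * (1 + (M : ℝ)) := by positivity
    linarith
  have hM : (0 : ℝ) ≤ M := Nat.cast_nonneg _
  have h2 : (k : ℝ) + M ≤ k * (1 + M) := by nlinarith
  have h3 : 2 * c * (1 + M) ≤ (k : ℝ) - 1 := by linarith
  have h4 : (k : ℝ) * (2 * c * (1 + M)) ≤ k * (k - 1) :=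
    mul_le_mul_of_nonneg_left h3 (by linarith)
  nlinarith

private theorem grow_aux (c : ℝ) (hc : 2 < c) (C : ℕ) (hC0 : 0 < C)
    (hC : ∀ n : ℕ, 4 ^ n ≤ C * (n + 1) * (Pr n).card) :
    ∃ k₁ : ℕ, ∀ k, k₁ ≤ k → 4 ^ DD c k ≤ 4 ^ k * (((Pr (DD c k)).card + 1) / 2) := by
  have ht := tendsto_pow_const_div_const_pow_of_one_lt 2 (r := (4 : ℝ)) (by norm_num)
  have hCr : (0 : ℝ) < C := by exact_mod_cast hC0
  have hev := (ht.eventually (gt_mem_nhds (show (0 : ℝ) < 1 / (4 * C) by positivity)))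
  obtain ⟨k₁, hk₁⟩ := Filter.eventually_atTop.1 hev
  refine ⟨max k₁ 1, fun k hk => ?_⟩
  have hk1 : k₁ ≤ k := le_trans (le_max_left _ _) hk
  have hk2 : 1 ≤ k := le_trans (le_max_right _ _) hk
  have h1 := hk₁ k hk1
  rw [div_lt_div_iff₀ (by positivity) (by positivity)] at h1
  have h2 : 4 * C * k ^ 2 < 4 ^ k := by
    have : (k : ℝ) ^ 2 * (4 * C) < 1 * 4 ^ k := h1
    have h : ((4 * C * k ^ 2 : ℕ) : ℝ) < ((4 ^ k : ℕ) : ℝ) := by push_cast; linarith
    exact_mod_cast h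
  have hD : DD c k + 1 ≤ 2 * k ^ 2 := by
    have : (DD c k : ℝ) ≤ NN k / c := Nat.floor_le (by positivity)
    have h3 : (NN k : ℝ) / c ≤ NN k := div_le_self (Nat.cast_nonneg _) (by linarith)
    have h4 : (DD c k : ℝ) ≤ (k : ℝ) ^ 2 := by
      rw [grow_NN_real] at h3
      have hk0 : (1 : ℝ) ≤ k := by exact_mod_cast hk2
      rw [grow_NN_real] at this
      nlinarith
    have h5 : DD c k ≤ k ^ 2 := by exact_mod_cast h4
    have h6 : 1 ≤ k ^ 2 := Nat.one_le_pow _ _ hk2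
    omega
  set n := ((Pr (DD c k)).card + 1) / 2 with hn
  have hcard : (Pr (DD c k)).card ≤ 2 * n := by omega
  calc 4 ^ DD c k ≤ C * (DD c k + 1) * (Pr (DD c k)).card := hC _
    _ ≤ C * (2 * k ^ 2) * (2 * n) := by gcongr
    _ = (4 * C * k ^ 2) * n := by ring
    _ ≤ 4 ^ k * n := Nat.mul_le_mul_right _ h2.le

theorem grow2 (c e : ℝ) (hc : 2 < c) (he : c < e) (C : ℕ) (hC0 : 0 < C)
    (hC : ∀ n : ℕ, 4 ^ n ≤ C * (n + 1) * (Pr n).card) :
    ∃ k₁ : ℕ, ∀ k, k₁ ≤ k →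
      ((4 ^ (NN (k + 1) + 2 * (k + 1)) : ℕ) : ℝ) ≤
        1 * ((((Pr (DD c k)).card + 1) / 2 : ℕ) : ℝ) ^ e := by
  obtain ⟨k₁, h1⟩ := grow_aux c hc C hC0 hC
  obtain ⟨k₂, h2⟩ := grow_large c (by linarith) 0
  have hc0 : 0 < c := by linarith
  have he0 : 0 < e := by linarith
  set γ := e / c - 1 with hγ
  have hγ0 : 0 < γ := by
    rw [hγ, sub_pos, lt_div_iff₀ hc0]; linarith
  obtain ⟨K, hK⟩ := exists_nat_ge (1 + 2 * (5 + 2 * e) / γ)
  refine ⟨max (max k₁ k₂) (max K 1), fun k hk => ?_⟩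
  have hk1 : k₁ ≤ k := le_trans (le_trans (le_max_left _ _) (le_max_left _ _)) hk
  have hk2 : k₂ ≤ k := le_trans (le_trans (le_max_right _ _) (le_max_left _ _)) hk
  have hk3 : K ≤ k := le_trans (le_trans (le_max_left _ _) (le_max_right _ _)) hk
  have hk4 : 1 ≤ k := le_trans (le_trans (le_max_right _ _) (le_max_right _ _)) hk
  have a1 := h1 k hk1
  have a2 := h2 k hk2
  set n := ((Pr (DD c k)).card + 1) / 2 with hn
  have hkr : 1 + 2 * (5 + 2 * e) / γ ≤ (k : ℝ) := le_trans hK (by exact_mod_cast hk3)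
  have hk4r : (1 : ℝ) ≤ k := by exact_mod_cast hk4
  -- n ≥ 4 ^ (D - k)
  have b1 : (4 : ℝ) ^ ((DD c k : ℝ) - k) ≤ n := by
    rw [Real.rpow_sub (by norm_num), Real.rpow_natCast, Real.rpow_natCast,
      div_le_iff₀ (by positivity)]
    have : ((4 ^ DD c k : ℕ) : ℝ) ≤ ((4 ^ k * n : ℕ) : ℝ) := by exact_mod_cast a1
    push_cast at this
    linarith
  have b2 : (4 : ℝ) ^ (((DD c k : ℝ) - k) * e) ≤ (n : ℝ) ^ e := by
    rw [Real.rpow_mul (by norm_num)]
    exact Real.rpow_le_rpow (by positivity) b1 he0.le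
  have b3 : (NN k : ℝ) / c - 1 < DD c k := by
    have := Nat.lt_floor_add_one ((NN k : ℝ) / c)
    unfold DD
    linarith
  have b4 : ((NN (k + 1) + 2 * (k + 1) : ℕ) : ℝ) ≤ ((DD c k : ℝ) - k) * e := by
    have c1 : ((NN k : ℝ) / c - 1 - k) * e ≤ ((DD c k : ℝ) - k) * e :=
      mul_le_mul_of_nonneg_right (by linarith) he0.le
    have c2 : ((NN k : ℝ) / c - 1 - k) * e = NN k * (γ + 1) - e - k * e := by
      rw [hγ]; field_simp; ring
    have c3 : ((NN (k + 1) + 2 * (k + 1) : ℕ) : ℝ) = NN k + 3 * k + 2 := by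
      rw [grow_NN_succ]; push_cast; ring
    have c4 : (5 + 2 * e) * 2 ≤ ((k : ℝ) - 1) * γ := by
      have : 2 * (5 + 2 * e) / γ ≤ (k : ℝ) - 1 := by linarith
      rw [div_le_iff₀ hγ0] at this
      linarith
    have c5 : (NN k : ℝ) * γ = k * (((k : ℝ) - 1) * γ) / 2 := by rw [grow_NN_real]; ring
    have c6 : (k : ℝ) * ((5 + 2 * e) * 2) ≤ k * (((k : ℝ) - 1) * γ) :=
      mul_le_mul_of_nonneg_left c4 (by linarith)
    have c7 : 0 ≤ ((k : ℝ) - 1) * (2 + e) := mul_nonneg (by linarith) (by linarith)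
    rw [c3]
    nlinarith
  calc ((4 ^ (NN (k + 1) + 2 * (k + 1)) : ℕ) : ℝ)
      = (4 : ℝ) ^ ((NN (k + 1) + 2 * (k + 1) : ℕ) : ℝ) := by
        rw [Real.rpow_natCast]; push_cast; ring
    _ ≤ (4 : ℝ) ^ (((DD c k : ℝ) - k) * e) :=
        Real.rpow_le_rpow_of_exponent_le (by norm_num) b4
    _ ≤ (n : ℝ) ^ e := b2
    _ = 1 * (n : ℝ) ^ e := by ring

theorem grow3 (c : ℝ) (hc : 2 < c) (C : ℕ) (hC0 : 0 < C)
    (hC : ∀ n : ℕ, 4 ^ n ≤ C * (n + 1) * (Pr n).card) (k₁ M : ℕ) :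
    ∃ k, k₁ ≤ k ∧ M ≤ ((Pr (DD c k)).card + 1) / 2 := by
  obtain ⟨k₂, h1⟩ := grow_aux c hc C hC0 hC
  obtain ⟨k₃, h2⟩ := grow_large c (by linarith) M
  refine ⟨max k₁ (max k₂ k₃), le_max_left _ _, ?_⟩
  set k := max k₁ (max k₂ k₃) with hk
  have a1 := h1 k (le_trans (le_max_left _ _) (le_max_right _ _))
  have a2 := h2 k (le_trans (le_max_right _ _) (le_max_right _ _))
  have a3 : 4 ^ k * 4 ^ M ≤ 4 ^ k * (((Pr (DD c k)).card + 1) / 2) := by
    rw [← pow_add]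
    exact le_trans (Nat.pow_le_pow_right (by norm_num) a2) a1
  have a4 : 4 ^ M ≤ ((Pr (DD c k)).card + 1) / 2 := Nat.le_of_mul_le_mul_left a3 (by positivity)
  have a5 : M < 4 ^ M := Nat.lt_pow_self (by norm_num)
  omega

end BG
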