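import Pool.Agent.Lib.MP_be7f9f_nt.Defs

/-!
# Elementary facts about the block exponents

`NN k = k (k-1) / 2`, `NN k / c - 1 < DD c k ≤ NN k / c`, `NN k - NN j ≥ k - 1` for `j < k`.

* `k ≤ DD c k`, `2 * DD c k + 2 ≤ NN k`: quadratic against linear, `c > 2`.
* `DD c j + 1 ≤ DD c k`: `(NN k - NN j) / c ≥ (k - 1) / 3 ≥ 1`.
* `DD c k + 1 ≤ NN k`, `DD c j + 1 ≤ NN j`: clear.
* `DD c k + 1 ≤ DD c j + (NN k - NN j)`: `2 ≤ (NN k - NN j) (1 - 1/c)`.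
* `k ≤ DD c j` if `NN k - NN j ≤ DD c k`: `NN j ≥ NN k (1 - 1/c) ≥ NN k / 2`, so
  `DD c j ≥ NN k / (2 c) - 1 ≥ k`.
* `regF`: `NN j ≤ (NN k + NN j) / c + 1` gives `NN j ≤ (NN k + c) / (c - 1)`; the claim follows
  from `NN k (1 - 1/c) - NN j (2 - 3/c) ≥ j + 4`, and the left side is at least
  `NN k (c - 2)^2 / (c (c - 1)) - const`, quadratic in `k`.
-/

namespace BG

private theorem reg_NN (k : ℕ) : (NN k : ℝ) = (k : ℝ) * ((k : ℝ) - 1) / 2 := by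
  have h1 : NN k * 2 = k * (k - 1) := Finset.sum_range_id_mul_two k
  rcases Nat.eq_zero_or_pos k with h0 | h0
  · subst h0
    simp [NN]
  · have h2 : ((NN k * 2 : ℕ) : ℝ) = ((k * (k - 1) : ℕ) : ℝ) := by rw [h1]
    rw [Nat.cast_mul, Nat.cast_mul, Nat.cast_sub h0] at h2
    push_cast at h2
    linarith

private theorem reg_mono {j k : ℕ} (h : j ≤ k) : NN j ≤ NN k :=
  Finset.sum_le_sum_of_subset (Finset.range_mono h)

private theorem reg_step {j k : ℕ} (h : j < k) : (NN j : ℝ) + ((k : ℝ) - 1) ≤ NN k := by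
  have h1 : NN j ≤ NN (k - 1) := reg_mono (by omega)
  have h2 : NN k = NN (k - 1) + (k - 1) := by
    obtain ⟨l, rfl⟩ : ∃ l, k = l + 1 := ⟨k - 1, by omega⟩
    rw [Nat.add_sub_cancel]
    exact Finset.sum_range_succ _ _
  have h3 : NN j + (k - 1) ≤ NN k := by omega
  have h4 : ((NN j + (k - 1) : ℕ) : ℝ) ≤ (NN k : ℝ) := by exact_mod_cast h3
  rw [Nat.cast_add, Nat.cast_sub (by omega)] at h4
  push_cast at h4
  exact h4

private theorem reg_DD_le {c : ℝ} (hc : 0 < c) (k : ℕ) : c * (DD c k : ℝ) ≤ NN k := by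
  have h : (DD c k : ℝ) ≤ (NN k : ℝ) / c := Nat.floor_le (by positivity)
  rwa [le_div_iff₀ hc, mul_comm] at h

private theorem reg_DD_lt {c : ℝ} (hc : 0 < c) (k : ℕ) : (NN k : ℝ) < c * (DD c k + 1) := by
  have h : (NN k : ℝ) / c < DD c k + 1 := Nat.lt_floor_add_one _
  rwa [div_lt_iff₀ hc, mul_comm] at h

private theorem reg_le_DD {c : ℝ} (hc : 0 < c) {k m : ℕ} (h : c * (m : ℝ) ≤ NN k) :
    m ≤ DD c k := by
  refine Nat.le_floor ?_
  rw [le_div_iff₀ hc, mul_comm]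
  exact h

theorem reg (c : ℝ) (hc : 2 < c) (hc' : c < 3) :
    ∃ k₀ : ℕ, 1 ≤ k₀ ∧ ∀ k, k₀ ≤ k → k ≤ DD c k ∧ 2 * DD c k + 2 ≤ NN k ∧
      ∀ j, k₀ ≤ j → j < k → DD c j + 1 ≤ DD c k ∧ DD c k + 1 ≤ NN k ∧ DD c j + 1 ≤ NN j ∧
        DD c k + 1 ≤ DD c j + (NN k - NN j) ∧ (NN k - NN j ≤ DD c k → k ≤ DD c j) := by
  have hc0 : 0 < c := by linarith
  have hc2 : 0 < c - 2 := by linarith
  set k₀ : ℕ := max 13 (⌈2 * c / (c - 2)⌉₊ + 1) with hk₀
  have h13 : 13 ≤ k₀ := le_max_left _ _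
  have hbig : ∀ k : ℕ, k₀ ≤ k → 2 * c ≤ (c - 2) * ((k : ℝ) - 1) := by
    intro k hk
    have h1 : ⌈2 * c / (c - 2)⌉₊ + 1 ≤ k := (le_max_right _ _).trans hk
    have h2 : ((⌈2 * c / (c - 2)⌉₊ + 1 : ℕ) : ℝ) ≤ k := by exact_mod_cast h1
    push_cast at h2
    have h3 := Nat.le_ceil (2 * c / (c - 2))
    have h4 : 2 * c / (c - 2) ≤ (k : ℝ) - 1 := by linarith
    rw [div_le_iff₀ hc2] at h4
    linarith
  have h13' : ∀ k : ℕ, k₀ ≤ k → (13 : ℝ) ≤ k := fun k hk => by exact_mod_cast h13.trans hk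
  have hA : ∀ k : ℕ, k₀ ≤ k → k ≤ DD c k := by
    intro k hk
    apply reg_le_DD hc0
    rw [reg_NN]
    have := h13' k hk
    nlinarith
  have hB : ∀ k : ℕ, k₀ ≤ k → 2 * DD c k + 2 ≤ NN k := by
    intro k hk
    have h1 := hbig k hk
    have h2 := h13' k hk
    have h3 := reg_DD_le hc0 k
    have h4 : (2 : ℝ) * c ≤ (c - 2) * NN k := by
      rw [reg_NN]
      have : (k : ℝ) - 1 ≤ (k : ℝ) * ((k : ℝ) - 1) / 2 := by nlinarith
      exact h1.trans (mul_le_mul_of_nonneg_left this hc2.le)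
    have h5 : c * (2 * (DD c k : ℝ) + 2) ≤ c * NN k := by nlinarith
    have h6 : 2 * (DD c k : ℝ) + 2 ≤ NN k := le_of_mul_le_mul_left h5 hc0
    exact_mod_cast h6
  refine ⟨k₀, by omega, fun k hk => ⟨hA k hk, hB k hk, fun j hj hjk => ?_⟩⟩
  have hstep := reg_step hjk
  have hk13 := h13' k hk
  have hj13 := h13' j hj
  have hmono : NN j ≤ NN k := reg_mono hjk.le
  have hBk := hB k hk
  have hBj := hB j hj
  refine ⟨?_, by omega, by omega, ?_, ?_⟩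
  · apply reg_le_DD hc0
    have h1 := reg_DD_le hc0 j
    push_cast
    nlinarith
  · have h1 := reg_DD_le hc0 k
    have h2 := reg_DD_lt hc0 j
    have h3 : c * ((DD c k : ℝ) + 1) < c * (DD c j + (NN k - NN j)) := by
      nlinarith
    have h4 : (DD c k : ℝ) + 1 < DD c j + (NN k - NN j) := lt_of_mul_lt_mul_left h3 hc0.le
    have h5 : ((DD c k + 1 : ℕ) : ℝ) < ((DD c j + (NN k - NN j) : ℕ) : ℝ) := by
      push_cast [hmono]
      exact h4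
    exact le_of_lt (by exact_mod_cast h5)
  · intro h
    have h1 : NN k ≤ DD c k + NN j := by omega
    have h2 : (NN k : ℝ) ≤ DD c k + NN j := by exact_mod_cast h1
    have h3 := reg_DD_le hc0 k
    have hN0 : (0 : ℝ) ≤ NN k := Nat.cast_nonneg _
    have h4 : (DD c k : ℝ) ≤ NN k / 2 := by
      have hD0 : (0 : ℝ) ≤ DD c k := Nat.cast_nonneg _
      nlinarith
    apply reg_le_DD hc0
    have h5 : (NN k : ℝ) / 2 ≤ NN j := by linarith
    refine le_trans ?_ h5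
    rw [reg_NN]
    nlinarith

theorem regF (c : ℝ) (hc : 2 < c) (hc' : c < 3) :
    ∃ k₀ : ℕ, ∀ k, k₀ ≤ k → ∀ j, k₀ ≤ j → j < k → NN j ≤ DD c k + DD c j + 1 →
      DD c k + 1 + NN j + j ≤ 3 * DD c j + (NN k - NN j) := by
  have hc0 : 0 < c := by linarith
  have hc2 : 0 < (c - 2) ^ 2 := by
    have : 0 < c - 2 := by linarith
    positivity
  refine ⟨max 13 (⌈24 / (c - 2) ^ 2⌉₊ + 1), fun k hk j hj hjk hN => ?_⟩
  have hk13 : (13 : ℝ) ≤ k := by exact_mod_cast (le_max_left _ _).trans hk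
  have h1 : ((⌈24 / (c - 2) ^ 2⌉₊ + 1 : ℕ) : ℝ) ≤ k := by
    exact_mod_cast (le_max_right _ _).trans hk
  push_cast at h1
  have h2 := Nat.le_ceil (24 / (c - 2) ^ 2)
  have h3 : 24 / (c - 2) ^ 2 ≤ (k : ℝ) - 1 := by linarith
  rw [div_le_iff₀ hc2, mul_comm] at h3
  have hmono : NN j ≤ NN k := reg_mono hjk.le
  have hjk' : (j : ℝ) ≤ k := by exact_mod_cast hjk.le
  have hN' : (NN j : ℝ) ≤ DD c k + DD c j + 1 := by exact_mod_cast hN
  have a1 := reg_DD_le hc0 k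
  have a2 := reg_DD_le hc0 j
  have a3 := reg_DD_lt hc0 j
  set n : ℝ := (NN k : ℝ) with hn
  set m : ℝ := (NN j : ℝ) with hm
  set a : ℝ := (DD c k : ℝ) with ha
  set b : ℝ := (DD c j : ℝ) with hb
  have b1 : (c - 1) * m ≤ n + c := by
    have := mul_le_mul_of_nonneg_left hN' hc0.le
    nlinarith
  have b2 : 6 * (k : ℝ) + 33 ≤ (c - 2) ^ 2 * n := by
    rw [hn, reg_NN]
    have h4 : (k : ℝ) / 2 * 24 ≤ (k : ℝ) / 2 * ((c - 2) ^ 2 * ((k : ℝ) - 1)) :=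
      mul_le_mul_of_nonneg_left h3 (by linarith)
    nlinarith
  have b3 : c * (c - 1) * ((j : ℝ) + 4) ≤ 6 * (k + 4) := by
    have h5 : c * (c - 1) ≤ 6 := by nlinarith
    have h6 : (0 : ℝ) ≤ c * (c - 1) := by nlinarith
    have h7 : (0 : ℝ) ≤ (j : ℝ) + 4 := by positivity
    calc c * (c - 1) * ((j : ℝ) + 4) ≤ 6 * ((j : ℝ) + 4) := mul_le_mul_of_nonneg_right h5 h7
      _ ≤ _ := by linarith
  have b4 : (2 * c - 3) * c ≤ 9 := by nlinarith
  have b5 : (2 * c - 3) * ((c - 1) * m) ≤ (2 * c - 3) * (n + c) :=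
    mul_le_mul_of_nonneg_left b1 (by linarith)
  have b6 : (c - 1) * (c * ((j : ℝ) + 4)) ≤ (c - 1) * ((c - 1) * n - (2 * c - 3) * m) := by
    nlinarith
  have b7 : c * ((j : ℝ) + 4) ≤ (c - 1) * n - (2 * c - 3) * m :=
    le_of_mul_le_mul_left b6 (by linarith)
  have b8 : c * (a + 1 + m + j) ≤ c * (3 * b + (n - m)) := by nlinarith
  have b9 : a + 1 + m + j ≤ 3 * b + (n - m) := le_of_mul_le_mul_left b8 hc0
  have b10 : ((DD c k + 1 + NN j + j : ℕ) : ℝ) ≤ ((3 * DD c j + (NN k - NN j) : ℕ) : ℝ) := by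
    push_cast [hmono]
    exact b9
  exact_mod_cast b10

end BG
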