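import Pool.Agent.Lib.MP_be7f9f_nt.Prm
import Pool.Agent.Lib.MP_be7f9f_nt.DLog
import Pool.Agent.Lib.MP_be7f9f_nt.B2
import Pool.Agent.Lib.MP_be7f9f_nt.Enum
import Pool.Agent.Lib.MP_be7f9f_nt.Cmp
import Pool.Agent.Lib.MP_be7f9f_nt.Cnt2
import Pool.Agent.Lib.MP_be7f9f_nt.Cnt3
import Pool.Agent.Lib.MP_be7f9f_nt.Emp
import Pool.Agent.Lib.MP_be7f9f_nt.Reg
import Pool.Agent.Lib.MP_be7f9f_nt.Asy2
import Pool.Agent.Lib.MP_be7f9f_nt.Asy3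
import Pool.Agent.Lib.MP_be7f9f_nt.Avg
import Pool.Agent.Lib.MP_be7f9f_nt.Grow

/-!
# Assembly
-/

namespace BG

/-- The sequence exists as soon as the averaged number of bad primes is small. -/
theorem build (c e : ℝ) (hc : 2 < c) (hc' : c < 3) (he : c < e) (g : ℕ) (hg : 1 ≤ g) (C : ℕ)
    (hC0 : 0 < C) (hC : ∀ n : ℕ, 4 ^ n ≤ C * (n + 1) * (Pr n).card) (k₁ : ℕ)
    (hT : ∀ k, k₁ ≤ k → ∀ j, k₁ ≤ j → j < k →
      (∑ f ∈ Om k, nbad g (DD c k) (DD c j) j k (ext f)) * loss C (DD c k) k ≤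
        4 ^ (NN k + DD c k)) :
    ∃ a : ℕ → ℕ, StrictMono a ∧ 0 < a 0 ∧
      (∀ m : ℕ, {x : ℕ × ℕ | x.1 ≤ x.2 ∧ a x.1 + a x.2 = m}.encard ≤ g) ∧
      ∃ C' : ℝ, ∀ j : ℕ, (a j : ℝ) ≤ C' * ((j : ℝ) + 1) ^ e := by
  obtain ⟨k₂, hk₂, hreg⟩ := reg c hc hc'
  obtain ⟨k₃, hgr⟩ := grow2 c e hc he C hC0 hC
  obtain ⟨lg, hlg⟩ := exists_log
  set k₀ := max k₁ (max k₂ k₃) with hk₀
  have e1 : k₁ ≤ k₀ := le_max_left _ _
  have e2 : k₂ ≤ k₀ := le_trans (le_max_left _ _) (le_max_right _ _)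
  have e3 : k₃ ≤ k₀ := le_trans (le_max_right _ _) (le_max_right _ _)
  have hne : ∀ i, (Pr i).Nonempty := by
    intro i
    rw [Finset.nonempty_iff_ne_empty]
    intro h
    have := hC i
    rw [h] at this
    simp at this
  obtain ⟨q, hq, hE⟩ := exists_seq Pr hne (fun k f => Ev c g k₀ k f) (by
    intro k
    refine avg c g k₀ k C hC0 hC ?_
    intro j hj
    rw [Finset.mem_Ico] at hj
    exact hT k (by omega) j (by omega) hj.2)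
  have h1 : ∀ k, k₀ ≤ k → k ≤ DD c k := fun k hk => (hreg k (by omega)).1
  have h2 : ∀ k, k₀ ≤ k → 2 * DD c k + 2 ≤ NN k := fun k hk => (hreg k (by omega)).2.1
  refine enum (Aset c g k₀ q lg) g (b2 c g k₀ hg q hq lg hlg h1 h2)
    (zero_notMem c g k₀ (by omega) q hq lg) e 1 (by linarith)
    (fun k => ((Pr (DD c k)).card + 1) / 2) (fun k => 4 ^ (NN k + 2 * k)) k₀ ?_ ?_ ?_
  · intro k hk
    exact grow1 c g k₀ q hq lg hlg h1 h2 hE k hk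
  · intro k hk
    exact hgr k (by omega)
  · intro M
    exact grow3 c hc C hC0 hC k₀ M

theorem build2 (c e : ℝ) (hc : 2 < c) (hc' : c < 3) (h : 0 < 2 * c ^ 2 - 4 * c - 1)
    (he : c < e) :
    ∃ a : ℕ → ℕ, StrictMono a ∧ 0 < a 0 ∧
      (∀ m : ℕ, {x : ℕ × ℕ | x.1 ≤ x.2 ∧ a x.1 + a x.2 = m}.encard ≤ 2) ∧
      ∃ C' : ℝ, ∀ j : ℕ, (a j : ℝ) ≤ C' * ((j : ℝ) + 1) ^ e := by
  obtain ⟨C, hC0, hC⟩ := prm
  obtain ⟨k₂, hk₂, hreg⟩ := reg c hc hc'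
  obtain ⟨k₃, hasy⟩ := asy2 c hc hc' h C
  refine build c e hc hc' he 2 (by norm_num) C hC0 hC (max k₂ k₃) ?_
  intro k hk j hj hjk
  have hkk : k₂ ≤ k := le_trans (le_max_left _ _) hk
  have hjj : k₂ ≤ j := le_trans (le_max_left _ _) hj
  obtain ⟨a1, a2, a3⟩ := hreg k hkk
  obtain ⟨b1, b2, b3, b4, b5⟩ := a3 j hjj hjk
  by_cases hfar : DD c k + 1 ≤ NN k - NN j
  · have : ∑ f ∈ Om k, nbad 2 (DD c k) (DD c j) j k (ext f) = 0 := by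
      refine Finset.sum_eq_zero ?_
      intro f hf
      exact nbad_eq_zero 2 _ _ _ _ (by norm_num) hjk.le a1 b3 hfar hf
    rw [this]
    simp
  · have h5 := b5 (by omega)
    calc (∑ f ∈ Om k, nbad 2 (DD c k) (DD c j) j k (ext f)) * loss C (DD c k) k
        ≤ bd2 (DD c k) (DD c j) j k * loss C (DD c k) k :=
          Nat.mul_le_mul_right _ (cnt2 _ _ _ _ hjk b1 b2 b3 b4 h5)
      _ ≤ _ := hasy k (le_trans (le_max_right _ _) hk) j hjk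

theorem build3 (c e : ℝ) (hc : 2 < c) (hc' : c < 3) (h : 0 < 2 * c ^ 2 - 2 * c - 5)
    (he : c < e) :
    ∃ a : ℕ → ℕ, StrictMono a ∧ 0 < a 0 ∧
      (∀ m : ℕ, {x : ℕ × ℕ | x.1 ≤ x.2 ∧ a x.1 + a x.2 = m}.encard ≤ 3) ∧
      ∃ C' : ℝ, ∀ j : ℕ, (a j : ℝ) ≤ C' * ((j : ℝ) + 1) ^ e := by
  obtain ⟨C, hC0, hC⟩ := prm
  obtain ⟨k₂, hk₂, hreg⟩ := reg c hc hc'
  obtain ⟨k₃, hasy⟩ := asy3 c hc hc' h C
  obtain ⟨k₄, hF⟩ := regF c hc hc'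
  refine build c e hc hc' he 3 (by norm_num) C hC0 hC (max k₂ (max k₃ k₄)) ?_
  intro k hk j hj hjk
  have hkk : k₂ ≤ k := le_trans (le_max_left _ _) hk
  have hjj : k₂ ≤ j := le_trans (le_max_left _ _) hj
  have hk3 : k₃ ≤ k := le_trans (le_trans (le_max_left _ _) (le_max_right _ _)) hk
  have hk4 : k₄ ≤ k := le_trans (le_trans (le_max_right _ _) (le_max_right _ _)) hk
  have hj4 : k₄ ≤ j := le_trans (le_trans (le_max_right _ _) (le_max_right _ _)) hj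
  obtain ⟨a1, a2, a3⟩ := hreg k hkk
  obtain ⟨b1, b2, b3, b4, b5⟩ := a3 j hjj hjk
  by_cases hfar : DD c k + 1 ≤ NN k - NN j
  · have : ∑ f ∈ Om k, nbad 3 (DD c k) (DD c j) j k (ext f) = 0 := by
      refine Finset.sum_eq_zero ?_
      intro f hf
      exact nbad_eq_zero 3 _ _ _ _ (by norm_num) hjk.le a1 b3 hfar hf
    rw [this]
    simp
  · have h5 := b5 (by omega)
    calc (∑ f ∈ Om k, nbad 3 (DD c k) (DD c j) j k (ext f)) * loss C (DD c k) k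
        ≤ bd3 (DD c k) (DD c j) j k * loss C (DD c k) k :=
          Nat.mul_le_mul_right _ (cnt3 _ _ _ _ hjk b1 b2 b3 b4 h5 (hF k hk4 j hj4 hjk))
      _ ≤ _ := hasy k hk3 j hjk

/-- For every `ε > 0` there is a `B_2[2]`-sequence with `a_j ≪ j^(1+√(3/2)+ε)` and a
`B_2[3]`-sequence with `a_j ≪ j^((1+√11)/2+ε)`. -/
theorem main (ε : ℝ) (hε : 0 < ε) :
    (∃ a : ℕ → ℕ, StrictMono a ∧ 0 < a 0 ∧
      (∀ m : ℕ, {x : ℕ × ℕ | x.1 ≤ x.2 ∧ a x.1 + a x.2 = m}.encard ≤ 2) ∧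
      ∃ C : ℝ, ∀ j : ℕ, (a j : ℝ) ≤ C * ((j : ℝ) + 1) ^ (1 + √(3 / 2) + ε)) ∧
    (∃ a : ℕ → ℕ, StrictMono a ∧ 0 < a 0 ∧
      (∀ m : ℕ, {x : ℕ × ℕ | x.1 ≤ x.2 ∧ a x.1 + a x.2 = m}.encard ≤ 3) ∧
      ∃ C : ℝ, ∀ j : ℕ, (a j : ℝ) ≤ C * ((j : ℝ) + 1) ^ ((1 + √11) / 2 + ε)) := by
  have s1 : √(3 / 2) ^ 2 = (3 / 2 : ℝ) := Real.sq_sqrt (by norm_num)
  have p1 : (6 / 5 : ℝ) < √(3 / 2) := by
    rw [Real.lt_sqrt (by norm_num)]; norm_num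
  have q1 : √(3 / 2) < (5 / 4 : ℝ) := by
    rw [Real.sqrt_lt' (by norm_num)]; norm_num
  have s2 : √11 ^ 2 = (11 : ℝ) := Real.sq_sqrt (by norm_num)
  have p2 : (3.3 : ℝ) < √11 := by
    rw [Real.lt_sqrt (by norm_num)]; norm_num
  have q2 : √11 < (3.4 : ℝ) := by
    rw [Real.sqrt_lt' (by norm_num)]; norm_num
  set δ := min ε (1 / 10) / 2 with hδ
  have d0 : 0 < δ := by
    have : 0 < min ε (1 / 10) := lt_min hε (by norm_num)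
    positivity
  have d1 : δ < ε := by
    have : min ε (1 / 10) ≤ ε := min_le_left _ _
    have : 0 < min ε (1 / 10) := lt_min hε (by norm_num)
    rw [hδ]; linarith
  have d2 : δ ≤ 1 / 20 := by
    have : min ε (1 / 10) ≤ 1 / 10 := min_le_right _ _
    rw [hδ]; linarith
  constructor
  · refine build2 (1 + √(3 / 2) + δ) _ (by linarith) (by linarith) ?_ (by linarith)
    nlinarith
  · refine build3 ((1 + √11) / 2 + δ) _ (by linarith) (by linarith) ?_ (by linarith)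
    nlinarith

end BG
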