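import Pool.Agent.Lib.MP_be7f9f_nt.Slack

/-!
# The inequality for four pairs

`D = DD c k`, `d = DD c j`.  If `NN j ≥ D + d + 2` then `HH D d (NN j) = 0` and `bd3 = 0`.
Otherwise `HH ≤ 15 * 4^(D + d - NN j)` (`HH ≥ 1` or `bd3 = 0`, so `2 HH + 1 ≤ 3 HH`), and
`NN j ≤ (NN k + c) / (c - 1)`.
`bd3 ≤ (D+2d+6)^k * const * (T₁ + T₂)` with
* `T₁ = 4^(3(D+d-NN j) + 4d - (NN k - NN j))`, `T₂ = 4^(3(D+d-NN j) + 3d)`.
Need both `≤ 4^(NN k + D - δ NN k)` (then `slack_loss` absorbs all other factors).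
T₁: `2D + 7d - 2 NN j ≤ (2/c) NN k + (7/c - 2) NN j` with `NN j ≤ (NN k + c)/(c-1)`,
and `2/c + (7/c - 2)/(c-1) < 2` iff `2c^2 - 2c - 5 > 0`.
T₂: `2D + 6d - 3 NN j ≤ (2/c) NN k + (6/c - 3) NN j ≤ (2/c) NN k` and `2/c < 1`.
-/

namespace BG

namespace Asy3

theorem NN_mono {j k : ℕ} (h : j ≤ k) : NN j ≤ NN k :=
  Finset.sum_le_sum_of_subset (Finset.range_mono h)

theorem DD_le {c : ℝ} (hc : 2 < c) (k : ℕ) : (DD c k : ℝ) ≤ (NN k : ℝ) / c :=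
  Nat.floor_le (div_nonneg (Nat.cast_nonneg _) (by linarith))

theorem DD_le_NN {c : ℝ} (hc : 2 < c) (k : ℕ) : DD c k ≤ NN k := by
  have h1 := DD_le hc k
  have h2 : (NN k : ℝ) / c ≤ NN k := div_le_self (Nat.cast_nonneg _) (by linarith)
  exact_mod_cast h1.trans h2

/-- If `HH D d M` is not zero then `M ≤ D + d + 1`. -/
theorem le_of_HH {D d M : ℕ} (h : HH D d M ≠ 0) : M ≤ D + d + 1 := by
  by_contra hc
  apply h
  unfold HH
  apply Nat.div_eq_of_lt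
  calc 15 * 4 ^ (D + d) < 16 * 4 ^ (D + d) :=
        Nat.mul_lt_mul_of_pos_right (by norm_num) (by positivity)
    _ = 4 ^ (D + d + 2) := by ring
    _ ≤ 4 ^ M := Nat.pow_le_pow_right (by norm_num) (by omega)

/-- The exponents. -/
theorem expo {c : ℝ} (hc : 2 < c) (hc' : c < 3) {N M D d k δ : ℝ} (hM0 : 0 ≤ M) (hN : 0 ≤ N)
    (hD : D ≤ N / c) (hd : d ≤ M / c) (hM : M ≤ D + d + 1) (hk : 3 ≤ k)
    (h1 : δ ≤ (2 * c ^ 2 - 2 * c - 5) / (c * (c - 1))) (h2 : δ ≤ 1 - 2 / c) :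
    3 * (D + d - M) + 3 * d + (d - (N - M)) ≤ k + N + D - δ * N ∧
      3 * (D + d - M) + 3 * d ≤ k + N + D - δ * N := by
  have hc0 : 0 < c := by linarith
  have hc1 : 0 < c - 1 := by linarith
  have hcc : 0 < c * (c - 1) := mul_pos hc0 hc1
  have hM1 : M * (c - 1) ≤ N + c := by
    have h3 : M ≤ N / c + M / c + 1 := by linarith
    have h4 := mul_le_mul_of_nonneg_right h3 hc0.le
    have h5 : (N / c + M / c + 1) * c = N + M + c := by field_simp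
    linarith
  have hDc : D * c ≤ N := (le_div_iff₀ hc0).1 hD
  have hdc : d * c ≤ M := (le_div_iff₀ hc0).1 hd
  have h1' : δ * (c * (c - 1)) ≤ 2 * c ^ 2 - 2 * c - 5 := (le_div_iff₀ hcc).1 h1
  have h2' : δ * c ≤ c - 2 := by
    have := mul_le_mul_of_nonneg_right h2 hc0.le
    have e : (1 - 2 / c) * c = c - 2 := by field_simp
    linarith
  constructor
  · -- 2 D + 7 d - 2 M ≤ (2 - δ) N + k, multiplied by c (c - 1)
    have h6 : 2 * D + 7 * d - 2 * M ≤ (2 - δ) * N + k := by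
      by_contra hcon
      push Not at hcon
      have h7 := mul_lt_mul_of_pos_right hcon hcc
      have h8 : (2 * D + 7 * d - 2 * M) * (c * (c - 1)) ≤
          2 * N * (c - 1) + (7 - 2 * c) * (M * (c - 1)) := by
        have h9 := mul_le_mul_of_nonneg_right hDc hc1.le
        have h10 := mul_le_mul_of_nonneg_right hdc hc1.le
        nlinarith
      have h11 : (7 - 2 * c) * (M * (c - 1)) ≤ (7 - 2 * c) * (N + c) :=
        mul_le_mul_of_nonneg_left hM1 (by linarith)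
      have h12 := mul_le_mul_of_nonneg_right h1' hN
      have h13 : (7 - 2 * c) * c ≤ k * (c * (c - 1)) := by
        have h14 : (7 - 2 * c) ≤ k * (c - 1) := by nlinarith
        have := mul_le_mul_of_nonneg_right h14 hc0.le
        linarith
      nlinarith
    linarith
  · have h6 : 2 * D + 6 * d - 3 * M ≤ (1 - δ) * N + k := by
      by_contra hcon
      push Not at hcon
      have h7 := mul_lt_mul_of_pos_right hcon hc0
      have h8 : (2 * D + 6 * d - 3 * M) * c ≤ 2 * N + (6 - 3 * c) * M := by nlinarith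
      have h9 : (6 - 3 * c) * M ≤ 0 := mul_nonpos_of_nonpos_of_nonneg (by linarith) hM0
      have h10 := mul_le_mul_of_nonneg_right h2' hN
      have h11 : 0 ≤ k * c := by positivity
      nlinarith
    linarith

/-- The bound without the factor `loss`. -/
theorem bd {D d j k : ℕ} (hjk : NN j ≤ NN k) (hH : HH D d (NN j) ≠ 0) :
    (bd3 D d j k : ℝ) ≤ ((D + 2 * d + 6 : ℕ) : ℝ) ^ k * (4 : ℝ) ^ (12 : ℕ) *
      (((4 : ℝ) ^ ((D : ℝ) + d - NN j)) ^ 3 * ((4 : ℝ) ^ (d : ℝ)) ^ 3 *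
        (6 * (4 : ℝ) ^ ((d : ℝ) - ((NN k : ℝ) - NN j)) + 1)) := by
  obtain ⟨u, hu⟩ : ∃ u, u = (4 : ℝ) ^ ((D : ℝ) + d - NN j) := ⟨_, rfl⟩
  obtain ⟨v, hv⟩ : ∃ v, v = (4 : ℝ) ^ (d : ℝ) := ⟨_, rfl⟩
  obtain ⟨w, hw⟩ : ∃ w, w = (4 : ℝ) ^ ((d : ℝ) - ((NN k : ℝ) - NN j)) := ⟨_, rfl⟩
  rw [← hu, ← hv, ← hw]
  have hu0 : 0 < u := by rw [hu]; positivity
  have hv0 : 0 < v := by rw [hv]; positivity
  have hw0 : 0 < w := by rw [hw]; positivity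
  have hv' : ((4 ^ d : ℕ) : ℝ) = v := by
    rw [hv, Real.rpow_natCast]
    push_cast
    rfl
  have hH1 : (HH D d (NN j) : ℝ) ≤ 15 * u := by
    unfold HH
    refine Nat.cast_div_le.trans (le_of_eq ?_)
    rw [hu, Real.rpow_sub (by norm_num), Real.rpow_natCast, ← Nat.cast_add, Real.rpow_natCast]
    push_cast
    ring
  have hH2 : (2 : ℝ) * HH D d (NN j) + 1 ≤ 45 * u := by
    have h1 : (1 : ℝ) ≤ HH D d (NN j) := by exact_mod_cast Nat.one_le_iff_ne_zero.2 hH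
    linarith
  have hw1 : ((2 * (3 * 4 ^ d) / 4 ^ (NN k - NN j) : ℕ) : ℝ) ≤ 6 * w := by
    refine Nat.cast_div_le.trans (le_of_eq ?_)
    rw [hw, Real.rpow_sub (by norm_num), Real.rpow_natCast, ← Nat.cast_sub hjk,
      Real.rpow_natCast]
    push_cast
    ring
  have hH0 : (0 : ℝ) ≤ HH D d (NN j) := Nat.cast_nonneg _
  unfold bd3
  obtain ⟨W, hW⟩ : ∃ W, W = 2 * (3 * 4 ^ d) / 4 ^ (NN k - NN j) := ⟨_, rfl⟩
  rw [← hW] at hw1 ⊢
  have hW0 : (0 : ℝ) ≤ W := Nat.cast_nonneg _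
  have e0 : (((D + 2 * d + 6) ^ k * (32 * HH D d (NN j) ^ 2 * (3 * 4 ^ d) ^ 2) * (3 * 4 ^ d) *
      ((2 * HH D d (NN j) + 1) * (W + 1)) : ℕ) : ℝ) =
      ((D + 2 * d + 6 : ℕ) : ℝ) ^ k * (32 * (HH D d (NN j) : ℝ) ^ 2 * (3 * v) ^ 2 * (3 * v *
        ((2 * (HH D d (NN j) : ℝ) + 1) * ((W : ℝ) + 1)))) := by
    rw [← hv']
    push_cast
    ring
  rw [e0]
  have hX : (0 : ℝ) ≤ ((D + 2 * d + 6 : ℕ) : ℝ) ^ k := by positivity
  refine le_trans (mul_le_mul_of_nonneg_left (c := (4 : ℝ) ^ (12 : ℕ) *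
    (u ^ 3 * v ^ 3 * (6 * w + 1))) ?_ hX) (le_of_eq (by ring))
  have s1 : 32 * (HH D d (NN j) : ℝ) ^ 2 * (3 * v) ^ 2 ≤ 32 * (15 * u) ^ 2 * (3 * v) ^ 2 := by
    have : (HH D d (NN j) : ℝ) ^ 2 ≤ (15 * u) ^ 2 := pow_le_pow_left₀ hH0 hH1 2
    nlinarith [sq_nonneg (3 * v)]
  have s2 : (2 * (HH D d (NN j) : ℝ) + 1) * ((W : ℝ) + 1) ≤ 45 * u * (6 * w + 1) :=
    mul_le_mul hH2 (by linarith) (by positivity) (by positivity)
  calc 32 * (HH D d (NN j) : ℝ) ^ 2 * (3 * v) ^ 2 * (3 * v *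
        ((2 * (HH D d (NN j) : ℝ) + 1) * ((W : ℝ) + 1)))
      ≤ 32 * (15 * u) ^ 2 * (3 * v) ^ 2 * (3 * v * (45 * u * (6 * w + 1))) := by
        refine mul_le_mul s1 (mul_le_mul_of_nonneg_left s2 (by positivity)) (by positivity)
          (by positivity)
    _ = 8748000 * (u ^ 3 * v ^ 3 * (6 * w + 1)) := by ring
    _ ≤ (4 : ℝ) ^ (12 : ℕ) * (u ^ 3 * v ^ 3 * (6 * w + 1)) :=
        mul_le_mul_of_nonneg_right (by norm_num) (by positivity)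

end Asy3

theorem asy3 (c : ℝ) (hc : 2 < c) (hc' : c < 3) (h : 0 < 2 * c ^ 2 - 2 * c - 5) (C : ℕ) :
    ∃ k₀ : ℕ, ∀ k, k₀ ≤ k → ∀ j, j < k →
      bd3 (DD c k) (DD c j) j k * loss C (DD c k) k ≤ 4 ^ (NN k + DD c k) := by
  have hc0 : 0 < c := by linarith
  have hc1 : 0 < c - 1 := by linarith
  obtain ⟨δ, hδd⟩ : ∃ δ, δ = min ((2 * c ^ 2 - 2 * c - 5) / (c * (c - 1))) (1 - 2 / c) :=
    ⟨_, rfl⟩
  have hδ : 0 < δ := by
    rw [hδd]
    refine lt_min (by positivity) ?_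
    have : 2 / c < 1 := (div_lt_one hc0).2 hc
    linarith
  have hδ1 : δ ≤ (2 * c ^ 2 - 2 * c - 5) / (c * (c - 1)) := hδd ▸ min_le_left _ _
  have hδ2 : δ ≤ 1 - 2 / c := hδd ▸ min_le_right _ _
  obtain ⟨k₀, hk₀⟩ := slack_loss C 14 δ hδ
  refine ⟨max k₀ 3, fun k hk j hj => ?_⟩
  have hjk : NN j ≤ NN k := Asy3.NN_mono hj.le
  by_cases hH : HH (DD c k) (DD c j) (NN j) = 0
  · unfold bd3
    rw [hH]
    simp
  have hsl := hk₀ k ((le_max_left _ _).trans hk) (DD c k) (DD c j) (Asy3.DD_le_NN hc k)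
    ((Asy3.DD_le_NN hc j).trans hjk)
  have hbd := Asy3.bd (j := j) (k := k) hjk hH
  have hM : (NN j : ℝ) ≤ (DD c k : ℝ) + (DD c j : ℝ) + 1 := by
    exact_mod_cast Asy3.le_of_HH hH
  have hk3 : (3 : ℝ) ≤ k := by exact_mod_cast (le_max_right _ _).trans hk
  obtain ⟨hT1, hT2⟩ := Asy3.expo hc hc' (N := NN k) (M := NN j) (D := DD c k) (d := DD c j)
    (k := k) (δ := δ) (Nat.cast_nonneg _) (Nat.cast_nonneg _) (Asy3.DD_le hc k)
    (Asy3.DD_le hc j) hM hk3 hδ1 hδ2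
  obtain ⟨D, hD⟩ : ∃ D, D = DD c k := ⟨_, rfl⟩
  obtain ⟨d, hd⟩ : ∃ d, d = DD c j := ⟨_, rfl⟩
  rw [← hD, ← hd] at hsl hbd hT1 hT2
  rw [← hD, ← hd]
  obtain ⟨Z, hZ⟩ : ∃ Z, Z = (4 : ℝ) ^ ((k : ℝ) + NN k + D - δ * NN k) := ⟨_, rfl⟩
  have h4 : (1 : ℝ) ≤ 4 := by norm_num
  have h40 : (0 : ℝ) < 4 := by norm_num
  have e3 : ∀ x : ℝ, ((4 : ℝ) ^ x) ^ 3 = (4 : ℝ) ^ (3 * x) := fun x => by
    rw [← Real.rpow_natCast, ← Real.rpow_mul h40.le]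
    congr 1
    push_cast
    ring
  have hmain : ((4 : ℝ) ^ ((D : ℝ) + d - NN j)) ^ 3 * ((4 : ℝ) ^ (d : ℝ)) ^ 3 *
        (6 * (4 : ℝ) ^ ((d : ℝ) - ((NN k : ℝ) - NN j)) + 1) ≤ 4 ^ (2 : ℕ) * Z := by
    rw [e3, e3, ← Real.rpow_add h40]
    have t1 : (4 : ℝ) ^ (3 * ((D : ℝ) + d - NN j) + 3 * (d : ℝ)) *
        (4 : ℝ) ^ ((d : ℝ) - ((NN k : ℝ) - NN j)) ≤ Z := by
      rw [← Real.rpow_add h40, hZ]
      exact Real.rpow_le_rpow_of_exponent_le h4 hT1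
    have t2 : (4 : ℝ) ^ (3 * ((D : ℝ) + d - NN j) + 3 * (d : ℝ)) ≤ Z := by
      rw [hZ]
      exact Real.rpow_le_rpow_of_exponent_le h4 hT2
    have hZ0 : 0 < Z := by rw [hZ]; positivity
    linarith
  have hfin : ((bd3 D d j k * loss C D k : ℕ) : ℝ) ≤ ((4 ^ (NN k + D) : ℕ) : ℝ) := by
    rw [Nat.cast_mul]
    have hl0 : (0 : ℝ) ≤ loss C D k := Nat.cast_nonneg _
    have hZk : Z = (4 : ℝ) ^ k * (4 : ℝ) ^ ((NN k : ℝ) + D - δ * NN k) := by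
      rw [hZ, ← Real.rpow_natCast 4 k, ← Real.rpow_add h40]
      congr 1
      ring
    have hp0 : (0 : ℝ) ≤ ((D + 2 * d + 6 : ℕ) : ℝ) ^ k := by positivity
    calc (bd3 D d j k : ℝ) * loss C D k
        ≤ (((D + 2 * d + 6 : ℕ) : ℝ) ^ k * (4 : ℝ) ^ (12 : ℕ) * (4 ^ (2 : ℕ) * Z)) *
          loss C D k := by
          refine mul_le_mul_of_nonneg_right (hbd.trans ?_) hl0
          exact mul_le_mul_of_nonneg_left hmain (by positivity)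
      _ = (((D + 2 * d + 6) ^ k * 4 ^ (k + 14) * loss C D k : ℕ) : ℝ) *
          (4 : ℝ) ^ ((NN k : ℝ) + D - δ * NN k) := by
          rw [hZk]
          push_cast
          ring
      _ ≤ (4 : ℝ) ^ (δ * (NN k : ℝ)) * (4 : ℝ) ^ ((NN k : ℝ) + D - δ * NN k) :=
          mul_le_mul_of_nonneg_right hsl (Real.rpow_nonneg h40.le _)
      _ = ((4 ^ (NN k + D) : ℕ) : ℝ) := by
          rw [← Real.rpow_add h40, Nat.cast_pow, ← Real.rpow_natCast]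
          push_cast
          congr 1
          ring
  exact_mod_cast hfin

end BG
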