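import Pool.Agent.Lib.MP_be7f9f_nt.Defs

/-!
# The average of gcd (h₁, h₂, x₁, x₂)

Proof.  For `n ≥ 1`, `n ≤ ∑_{e ∣ n} e` (the term `e = n`).  So the sum is at most
`∑_{e ≥ 1} e * #{(h₁, h₂, x₁, x₂) : e divides all} = ∑_e e (2 ⌊H/e⌋)^2 (2 ⌊X/e⌋)^2
≤ 16 H^2 X^2 ∑_e 1 / e^3 ≤ 32 H^2 X^2` (`gcd4 ≤ H`, so `e ≤ H`; and `∑ 1/e^3 ≤ ∑ 1/e^2 ≤ 2`, e.g.
`1/e^2 ≤ 1/(e-1) - 1/e` for `e ≥ 2`).
-/

namespace BG

theorem gsum_le_sum_div (n : ℕ) (H : ℕ) (h1 : 1 ≤ n) (hH : n ≤ H) :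
    n ≤ ∑ e ∈ Finset.Icc 1 H, if e ∣ n then e else 0 := by
  have h : n ∈ Finset.Icc 1 H := Finset.mem_Icc.mpr ⟨h1, hH⟩
  calc n = if n ∣ n then n else 0 := by simp
    _ ≤ _ := Finset.single_le_sum (f := fun e => if e ∣ n then e else 0)
        (fun _ _ => Nat.zero_le _) h

/-- the multiples of `e` in `Bx H` -/
theorem gsum_card_mult (H e : ℕ) (he : 1 ≤ e) :
    ((Bx H).filter fun x => (e : ℤ) ∣ x).card ≤ 2 * (H / e) := by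
  have hsub : ((Bx H).filter fun x => (e : ℤ) ∣ x) ⊆
      (Bx (H / e)).image fun y => (e : ℤ) * y := by
    intro x hx
    simp only [Bx, Finset.mem_filter, Finset.mem_Icc, Finset.mem_image] at hx ⊢
    obtain ⟨⟨⟨h1, h2⟩, h3⟩, y, rfl⟩ := hx
    have he' : (0 : ℤ) < e := by exact_mod_cast he
    refine ⟨y, ⟨⟨?_, ?_⟩, ?_⟩, rfl⟩
    · push_cast
      have : -y ≤ (H : ℤ) / e := by
        rw [Int.le_ediv_iff_mul_le he']
        nlinarith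
      linarith
    · push_cast
      rw [Int.le_ediv_iff_mul_le he']
      nlinarith
    · rintro rfl
      simp at h3
  refine (Finset.card_le_card hsub).trans (Finset.card_image_le.trans ?_)
  have h2 : Bx (H / e) ⊆ (Finset.Icc (-((H / e : ℕ) : ℤ)) ((H / e : ℕ) : ℤ)).erase 0 := by
    intro x hx
    simp only [Bx, Finset.mem_filter] at hx
    exact Finset.mem_erase.mpr ⟨hx.2, hx.1⟩
  refine (Finset.card_le_card h2).trans ?_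
  generalize H / e = m
  rw [Finset.card_erase_of_mem (Finset.mem_Icc.mpr ⟨by omega, by omega⟩), Int.card_Icc]
  omega

theorem gsum_sum_ite (H e : ℕ) :
    ∑ x ∈ Bx H, (if (e : ℤ) ∣ x then 1 else 0 : ℕ) =
      ((Bx H).filter fun x => (e : ℤ) ∣ x).card := by
  rw [Finset.card_filter]

theorem gsum_inv_cube (H : ℕ) :
    ∑ e ∈ Finset.Icc 1 H, (1 : ℝ) / (e : ℝ) ^ 3 ≤ 2 := by
  have key : ∀ n : ℕ, ∑ e ∈ Finset.Icc 1 (n + 1), (1 : ℝ) / (e : ℝ) ^ 3 ≤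
      2 - 1 / ((n : ℝ) + 1) := by
    intro n
    induction n with
    | zero => norm_num
    | succ n ih =>
      rw [Finset.sum_Icc_succ_top (by omega)]
      have h : (1 : ℝ) / ((n + 1 + 1 : ℕ) : ℝ) ^ 3 ≤ 1 / ((n : ℝ) + 1) - 1 / ((n : ℝ) + 1 + 1) := by
        push_cast
        have hn : (0 : ℝ) ≤ n := Nat.cast_nonneg n
        rw [div_sub_div _ _ (by positivity) (by positivity), div_le_div_iff₀ (by positivity)
          (by positivity)]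
        nlinarith [pow_nonneg hn 2, pow_nonneg hn 3]
      push_cast at h ⊢
      linarith
  rcases H with _ | H
  · simp
  · have := key H
    have h2 : (0 : ℝ) ≤ 1 / ((H : ℝ) + 1) := by positivity
    linarith

theorem gsum (H X : ℕ) :
    ∑ h₁ ∈ Bx H, ∑ h₂ ∈ Bx H, ∑ x₁ ∈ Bx X, ∑ x₂ ∈ Bx X, gcd4 h₁ h₂ x₁ x₂ ≤
      32 * H ^ 2 * X ^ 2 := by
  -- first bound
  have h1 : ∑ h₁ ∈ Bx H, ∑ h₂ ∈ Bx H, ∑ x₁ ∈ Bx X, ∑ x₂ ∈ Bx X, gcd4 h₁ h₂ x₁ x₂ ≤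
      ∑ h₁ ∈ Bx H, ∑ h₂ ∈ Bx H, ∑ x₁ ∈ Bx X, ∑ x₂ ∈ Bx X,
        ∑ e ∈ Finset.Icc 1 H, e * ((if (e : ℤ) ∣ h₁ then 1 else 0) *
          (if (e : ℤ) ∣ h₂ then 1 else 0) * (if (e : ℤ) ∣ x₁ then 1 else 0) *
          (if (e : ℤ) ∣ x₂ then 1 else 0)) := by
    refine Finset.sum_le_sum fun h₁ m1 => Finset.sum_le_sum fun h₂ m2 =>
      Finset.sum_le_sum fun x₁ m3 => Finset.sum_le_sum fun x₂ m4 => ?_
    have hh : h₁ ≠ 0 := by
      simp only [Bx, Finset.mem_filter] at m1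
      exact m1.2
    have hle : h₁.natAbs ≤ H := by
      simp only [Bx, Finset.mem_filter, Finset.mem_Icc] at m1
      omega
    have hpos : 1 ≤ gcd4 h₁ h₂ x₁ x₂ := by
      refine Nat.gcd_pos_of_pos_left _ (Int.gcd_pos_of_ne_zero_left _ hh)
    have hdvd : gcd4 h₁ h₂ x₁ x₂ ∣ h₁.natAbs :=
      (Nat.gcd_dvd_left _ _).trans (Nat.gcd_dvd_left _ _)
    have hH : gcd4 h₁ h₂ x₁ x₂ ≤ H :=
      (Nat.le_of_dvd (Int.natAbs_pos.mpr hh) hdvd).trans hle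
    refine (gsum_le_sum_div _ H hpos hH).trans (Finset.sum_le_sum fun e _ => ?_)
    by_cases he : e ∣ gcd4 h₁ h₂ x₁ x₂
    · have e1 : e ∣ Int.gcd h₁ h₂ := he.trans (Nat.gcd_dvd_left _ _)
      have e2 : e ∣ Int.gcd x₁ x₂ := he.trans (Nat.gcd_dvd_right _ _)
      have d1 : (e : ℤ) ∣ h₁ := (Int.natCast_dvd_natCast.mpr e1).trans (Int.gcd_dvd_left _ _)
      have d2 : (e : ℤ) ∣ h₂ := (Int.natCast_dvd_natCast.mpr e1).trans (Int.gcd_dvd_right _ _)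
      have d3 : (e : ℤ) ∣ x₁ := (Int.natCast_dvd_natCast.mpr e2).trans (Int.gcd_dvd_left _ _)
      have d4 : (e : ℤ) ∣ x₂ := (Int.natCast_dvd_natCast.mpr e2).trans (Int.gcd_dvd_right _ _)
      rw [if_pos he, if_pos d1, if_pos d2, if_pos d3, if_pos d4]
      simp
    · rw [if_neg he]
      exact Nat.zero_le _
  refine h1.trans ?_
  -- interchange
  have h2 : ∑ h₁ ∈ Bx H, ∑ h₂ ∈ Bx H, ∑ x₁ ∈ Bx X, ∑ x₂ ∈ Bx X,
        ∑ e ∈ Finset.Icc 1 H, e * ((if (e : ℤ) ∣ h₁ then 1 else 0) *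
          (if (e : ℤ) ∣ h₂ then 1 else 0) * (if (e : ℤ) ∣ x₁ then 1 else 0) *
          (if (e : ℤ) ∣ x₂ then 1 else 0)) =
      ∑ e ∈ Finset.Icc 1 H, e * (((Bx H).filter fun x => (e : ℤ) ∣ x).card ^ 2 *
        ((Bx X).filter fun x => (e : ℤ) ∣ x).card ^ 2) := by
    have s1 : ∀ h₁ h₂ x₁ : ℤ, ∑ x₂ ∈ Bx X,
        ∑ e ∈ Finset.Icc 1 H, e * ((if (e : ℤ) ∣ h₁ then 1 else 0) *
          (if (e : ℤ) ∣ h₂ then 1 else 0) * (if (e : ℤ) ∣ x₁ then 1 else 0) *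
          (if (e : ℤ) ∣ x₂ then 1 else 0)) = ∑ e ∈ Finset.Icc 1 H, ∑ x₂ ∈ Bx X,
          e * ((if (e : ℤ) ∣ h₁ then 1 else 0) *
          (if (e : ℤ) ∣ h₂ then 1 else 0) * (if (e : ℤ) ∣ x₁ then 1 else 0) *
          (if (e : ℤ) ∣ x₂ then 1 else 0)) := fun _ _ _ => Finset.sum_comm
    simp only [s1]
    have s2 : ∀ h₁ h₂ : ℤ, ∑ x₁ ∈ Bx X,
        ∑ e ∈ Finset.Icc 1 H, ∑ x₂ ∈ Bx X, e * ((if (e : ℤ) ∣ h₁ then 1 else 0) *
          (if (e : ℤ) ∣ h₂ then 1 else 0) * (if (e : ℤ) ∣ x₁ then 1 else 0) *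
          (if (e : ℤ) ∣ x₂ then 1 else 0)) = ∑ e ∈ Finset.Icc 1 H, ∑ x₁ ∈ Bx X, ∑ x₂ ∈ Bx X,
          e * ((if (e : ℤ) ∣ h₁ then 1 else 0) *
          (if (e : ℤ) ∣ h₂ then 1 else 0) * (if (e : ℤ) ∣ x₁ then 1 else 0) *
          (if (e : ℤ) ∣ x₂ then 1 else 0)) := fun _ _ => Finset.sum_comm
    simp only [s2]
    have s3 : ∀ h₁ : ℤ, ∑ h₂ ∈ Bx H,
        ∑ e ∈ Finset.Icc 1 H, ∑ x₁ ∈ Bx X, ∑ x₂ ∈ Bx X,
          e * ((if (e : ℤ) ∣ h₁ then 1 else 0) *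
          (if (e : ℤ) ∣ h₂ then 1 else 0) * (if (e : ℤ) ∣ x₁ then 1 else 0) *
          (if (e : ℤ) ∣ x₂ then 1 else 0)) = ∑ e ∈ Finset.Icc 1 H, ∑ h₂ ∈ Bx H,
          ∑ x₁ ∈ Bx X, ∑ x₂ ∈ Bx X,
          e * ((if (e : ℤ) ∣ h₁ then 1 else 0) *
          (if (e : ℤ) ∣ h₂ then 1 else 0) * (if (e : ℤ) ∣ x₁ then 1 else 0) *
          (if (e : ℤ) ∣ x₂ then 1 else 0)) := fun _ => Finset.sum_comm
    simp only [s3]
    rw [Finset.sum_comm]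
    refine Finset.sum_congr rfl fun e _ => ?_
    rw [← gsum_sum_ite, ← gsum_sum_ite]
    simp only [← Finset.mul_sum, ← Finset.sum_mul]
    ring
  rw [h2]
  have h3 : ∀ e ∈ Finset.Icc 1 H, (((e * (((Bx H).filter fun x => (e : ℤ) ∣ x).card ^ 2 *
        ((Bx X).filter fun x => (e : ℤ) ∣ x).card ^ 2) : ℕ)) : ℝ) ≤
      16 * (H : ℝ) ^ 2 * (X : ℝ) ^ 2 * (1 / (e : ℝ) ^ 3) := by
    intro e he
    have he1 : 1 ≤ e := (Finset.mem_Icc.mp he).1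
    have hep : (0 : ℝ) < e := by exact_mod_cast he1
    have c1 : ((((Bx H).filter fun x => (e : ℤ) ∣ x).card : ℕ) : ℝ) ≤ 2 * ((H : ℝ) / e) := by
      refine (Nat.cast_le.mpr (gsum_card_mult H e he1)).trans ?_
      push_cast
      have := @Nat.cast_div_le ℝ _ _ _ H e
      linarith
    have c2 : ((((Bx X).filter fun x => (e : ℤ) ∣ x).card : ℕ) : ℝ) ≤ 2 * ((X : ℝ) / e) := by
      refine (Nat.cast_le.mpr (gsum_card_mult X e he1)).trans ?_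
      push_cast
      have := @Nat.cast_div_le ℝ _ _ _ X e
      linarith
    push_cast
    calc (e : ℝ) * (((((Bx H).filter fun x => (e : ℤ) ∣ x).card : ℕ) : ℝ) ^ 2 *
          ((((Bx X).filter fun x => (e : ℤ) ∣ x).card : ℕ) : ℝ) ^ 2)
        ≤ (e : ℝ) * ((2 * ((H : ℝ) / e)) ^ 2 * (2 * ((X : ℝ) / e)) ^ 2) := by gcongr
      _ = _ := by
          field_simp
          ring
  have h4 : (((∑ e ∈ Finset.Icc 1 H, e * (((Bx H).filter fun x => (e : ℤ) ∣ x).card ^ 2 *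
        ((Bx X).filter fun x => (e : ℤ) ∣ x).card ^ 2) : ℕ)) : ℝ) ≤
      ((32 * H ^ 2 * X ^ 2 : ℕ) : ℝ) := by
    rw [Nat.cast_sum]
    refine (Finset.sum_le_sum h3).trans ?_
    rw [← Finset.mul_sum]
    have := gsum_inv_cube H
    have hp : (0 : ℝ) ≤ 16 * (H : ℝ) ^ 2 * (X : ℝ) ^ 2 := by positivity
    push_cast
    nlinarith [mul_le_mul_of_nonneg_left this hp]
  exact_mod_cast h4

end BG
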