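import Pool.Agent.Lib.MP_be7f9f_nt.Kbd
import Pool.Agent.Lib.MP_be7f9f_nt.Lam
import Pool.Agent.Lib.MP_be7f9f_nt.GSum

/-!
# The number of data

Proof.  For given `h₁, h₂, x₁, x₂` (with nonzero determinant `Δ`, `|Δ| ≤ 2 H X ≤ 4^B`) there are
at most `(B + 2)^k` values of `R ∈ RS j k` dividing `Δ` (`kbd`), for each of them at most
`gcd4 h₁ h₂ x₁ x₂` values of `l` (`lam_card`; the elements of `RS j k` are positive, they are
products of primes), and `card (Pr d)` values of `r₀`.  Sum over `h₁, h₂, x₁, x₂` with `gsum`.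
-/

namespace BG

/-- the values of `l` -/
private noncomputable def datL (a : (ℤ × ℤ) × (ℤ × ℤ)) (R : ℕ) : Finset ℕ :=
  (Finset.range R).filter fun l : ℕ => (R : ℤ) ∣ (l : ℤ) * a.1.1 - a.2.1 ∧
    (R : ℤ) ∣ (l : ℤ) * a.1.2 - a.2.2

/-- the values of `(R, l)` -/
private noncomputable def datF (j k : ℕ) (a : (ℤ × ℤ) × (ℤ × ℤ)) : Finset (ℕ × ℕ) :=
  ((RS j k).filter fun R : ℕ => (R : ℤ) ∣ a.1.1 * a.2.2 - a.1.2 * a.2.1).biUnion fun R =>
    (datL a R).image fun l => (R, l)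

private theorem dat_mem_Bx {H : ℕ} {h : ℤ} (hh : h ∈ Bx H) : h ≠ 0 ∧ |h| ≤ H := by
  unfold Bx at hh
  rw [Finset.mem_filter, Finset.mem_Icc] at hh
  exact ⟨hh.2, abs_le.2 hh.1⟩

private theorem datF_card {j k H X B : ℕ} (hj : j ≤ k) (hB : 2 * H * X ≤ 4 ^ B)
    {a : (ℤ × ℤ) × (ℤ × ℤ)} (ha : a ∈ (Bx H ×ˢ Bx H) ×ˢ (Bx X ×ˢ Bx X))
    (hΔ : a.1.1 * a.2.2 - a.1.2 * a.2.1 ≠ 0) :
    (datF j k a).card ≤ (B + 2) ^ k * gcd4 a.1.1 a.1.2 a.2.1 a.2.2 := by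
  simp only [Finset.mem_product] at ha
  obtain ⟨⟨h1, h2⟩, h3, h4⟩ := ha
  obtain ⟨h1z, h1⟩ := dat_mem_Bx h1
  obtain ⟨_, h2⟩ := dat_mem_Bx h2
  obtain ⟨_, h3⟩ := dat_mem_Bx h3
  obtain ⟨_, h4⟩ := dat_mem_Bx h4
  have hD : |a.1.1 * a.2.2 - a.1.2 * a.2.1| ≤ 4 ^ B := by
    have e1 : |a.1.1 * a.2.2| ≤ H * X := by
      rw [abs_mul]
      exact mul_le_mul h1 h4 (abs_nonneg _) (Int.natCast_nonneg _)
    have e2 : |a.1.2 * a.2.1| ≤ H * X := by
      rw [abs_mul]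
      exact mul_le_mul h2 h3 (abs_nonneg _) (Int.natCast_nonneg _)
    have e3 : ((2 * H * X : ℕ) : ℤ) ≤ ((4 ^ B : ℕ) : ℤ) := by exact_mod_cast hB
    push_cast at e3
    have e4 := abs_sub (a.1.1 * a.2.2) (a.1.2 * a.2.1)
    linarith
  have hk := kbd j k B hj _ hΔ hD
  unfold datF
  refine Finset.card_biUnion_le.trans ?_
  calc ∑ R ∈ (RS j k).filter (fun R : ℕ => (R : ℤ) ∣ a.1.1 * a.2.2 - a.1.2 * a.2.1),
        ((datL a R).image fun l => (R, l)).card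
      ≤ ∑ _R ∈ (RS j k).filter (fun R : ℕ => (R : ℤ) ∣ a.1.1 * a.2.2 - a.1.2 * a.2.1),
        gcd4 a.1.1 a.1.2 a.2.1 a.2.2 := by
        refine Finset.sum_le_sum fun R _ => Finset.card_image_le.trans ?_
        rcases Nat.eq_zero_or_pos R with h0 | h0
        · subst h0
          simp [datL]
        · exact lam_card R h0 _ _ _ _ h1z
    _ = ((RS j k).filter (fun R : ℕ => (R : ℤ) ∣ a.1.1 * a.2.2 - a.1.2 * a.2.1)).card *
        gcd4 a.1.1 a.1.2 a.2.1 a.2.2 := by rw [Finset.sum_const, smul_eq_mul]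
    _ ≤ _ := Nat.mul_le_mul_right _ hk

theorem dat_card (j k H X d B : ℕ) (hj : j ≤ k) (hB : 2 * H * X ≤ 4 ^ B) :
    (Dat j k H X d).card ≤ (B + 2) ^ k * (32 * H ^ 2 * X ^ 2) * (Pr d).card := by
  classical
  set A : Finset ((ℤ × ℤ) × (ℤ × ℤ)) := (Bx H ×ˢ Bx H) ×ˢ (Bx X ×ˢ Bx X) with hA
  set A' : Finset ((ℤ × ℤ) × (ℤ × ℤ)) :=
    A.filter fun a => a.1.1 * a.2.2 - a.1.2 * a.2.1 ≠ 0 with hA'
  have hsub : Dat j k H X d ⊆ A'.biUnion fun a => ((datF j k a) ×ˢ Pr d).image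
      fun u => (a.1, a.2, u.1.1, u.1.2, u.2) := by
    rintro ⟨h, x, R, l, r⟩ ht
    unfold Dat at ht
    simp only [Finset.mem_filter, Finset.mem_product] at ht
    obtain ⟨⟨⟨hh1, hh2⟩, ⟨hx1, hx2⟩, hR, hl, hr⟩, hΔ, hdvd, hlR, hd1, hd2⟩ := ht
    rw [Finset.mem_biUnion]
    refine ⟨(h, x), ?_, ?_⟩
    · rw [hA', Finset.mem_filter, hA]
      simp only [Finset.mem_product]
      exact ⟨⟨⟨hh1, hh2⟩, hx1, hx2⟩, hΔ⟩
    · rw [Finset.mem_image]
      refine ⟨((R, l), r), ?_, rfl⟩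
      rw [Finset.mem_product]
      refine ⟨?_, hr⟩
      unfold datF
      rw [Finset.mem_biUnion]
      refine ⟨R, ?_, ?_⟩
      · rw [Finset.mem_filter]
        exact ⟨hR, hdvd⟩
      · rw [Finset.mem_image]
        refine ⟨l, ?_, rfl⟩
        unfold datL
        rw [Finset.mem_filter, Finset.mem_range]
        exact ⟨hlR, hd1, hd2⟩
  refine (Finset.card_le_card hsub).trans (Finset.card_biUnion_le.trans ?_)
  calc ∑ a ∈ A', (((datF j k a) ×ˢ Pr d).image fun u => (a.1, a.2, u.1.1, u.1.2, u.2)).card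
      ≤ ∑ a ∈ A', (B + 2) ^ k * gcd4 a.1.1 a.1.2 a.2.1 a.2.2 * (Pr d).card := by
        refine Finset.sum_le_sum fun a ha => Finset.card_image_le.trans ?_
        rw [Finset.card_product]
        rw [hA', Finset.mem_filter] at ha
        exact Nat.mul_le_mul_right _ (datF_card hj hB ha.1 ha.2)
    _ ≤ ∑ a ∈ A, (B + 2) ^ k * gcd4 a.1.1 a.1.2 a.2.1 a.2.2 * (Pr d).card :=
        Finset.sum_le_sum_of_subset (Finset.filter_subset _ _)
    _ = (B + 2) ^ k * (∑ a ∈ A, gcd4 a.1.1 a.1.2 a.2.1 a.2.2) * (Pr d).card := by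
        rw [Finset.mul_sum, Finset.sum_mul]
    _ ≤ _ := by
        refine Nat.mul_le_mul_right _ (Nat.mul_le_mul_left _ ?_)
        have h := gsum H X
        rw [hA, Finset.sum_product, Finset.sum_product]
        refine (le_of_eq ?_).trans h
        refine Finset.sum_congr rfl fun h₁ _ => Finset.sum_congr rfl fun h₂ _ => ?_
        rw [Finset.sum_product]

theorem Pr_card_le (d : ℕ) : (Pr d).card ≤ 3 * 4 ^ d := by
  unfold Pr
  refine (Finset.card_filter_le _ _).trans ?_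
  rw [Nat.card_Ioc, pow_succ]
  omega

end BG
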