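import Mathlib

/-!
# B_2[g] sequences of growth j^(1+sqrt(3/2)+eps) (g = 2) and j^((1+sqrt 11)/2+eps) (g = 3)

Definitions.  Text: /team-store/TEXT_be7f9f.md
-/

namespace BG

/-- The primes in `(4^n, 4^(n+1)]`. -/
def Pr (n : ℕ) : Finset ℕ := (Finset.Ioc (4 ^ n) (4 ^ (n + 1))).filter Nat.Prime

/-- `NN k = 0 + 1 + ... + (k-1)`, the total number of (base 4) digits of the moduli `i < k`. -/
def NN (k : ℕ) : ℕ := ∑ i ∈ Finset.range k, i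

/-- The primes of block `k` are those of `Pr (DD c k)`. -/
noncomputable def DD (c : ℝ) (k : ℕ) : ℕ := ⌊(NN k : ℝ) / c⌋₊

/-- The product of the moduli `q i`, `i < j`. -/
def QQ (q : ℕ → ℕ) (j : ℕ) : ℕ := ∏ i ∈ Finset.range j, q i

/-- The product of the moduli `q i`, `j ≤ i < k`. -/
def RR (q : ℕ → ℕ) (j k : ℕ) : ℕ := ∏ i ∈ Finset.Ico j k, q i

/-- `p₀` occurs in `g + 1` different pairs `(p s, r s)` with `p s ≡ p₀` mod `R` and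
`p s * r s` constant mod `Q`. -/
def Bad (g Q R : ℕ) (S T : Finset ℕ) (p₀ : ℕ) : Prop :=
  ∃ p r : Fin (g + 1) → ℕ, p 0 = p₀ ∧ (∀ s, p s ∈ S) ∧ (∀ s, r s ∈ T) ∧
    (Function.Injective fun s => (p s, r s)) ∧
    ∀ s, p s ≡ p 0 [MOD R] ∧ p s * r s ≡ p 0 * r 0 [MOD Q]

/-- The number with digits `f i`, `i < k`, in the mixed base `4 * q i`. -/
def val (q f : ℕ → ℕ) (k : ℕ) : ℕ := ∑ i ∈ Finset.range k, f i * ∏ l ∈ Finset.range i, (4 * q l)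

/-- The element of block `k` attached to the prime `p`. -/
def el (q : ℕ → ℕ) (lg : ℕ → ℕ → ℕ) (k p : ℕ) : ℕ := val q (fun i => q i + lg (q i) p) k

/-- `lg` is a system of discrete logarithms modulo the primes. -/
def IsLog (lg : ℕ → ℕ → ℕ) : Prop :=
  ∀ q : ℕ, q.Prime → (∀ a, lg q a < q) ∧
    (∀ a b, a.Coprime q → b.Coprime q → lg q a = lg q b → a ≡ b [MOD q]) ∧
    (∀ a b a' b', a.Coprime q → b.Coprime q → a'.Coprime q → b'.Coprime q →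
      lg q a + lg q b = lg q a' + lg q b' → a * b ≡ a' * b' [MOD q])

/-- The set of all elements of the blocks `k ≥ k₀`, the bad primes deleted. -/
def Aset (c : ℝ) (g k₀ : ℕ) (q : ℕ → ℕ) (lg : ℕ → ℕ → ℕ) : Set ℕ :=
  {a | ∃ k, k₀ ≤ k ∧ ∃ p ∈ Pr (DD c k),
    (∀ j ∈ Finset.Ico k₀ k, ¬ Bad g (QQ q j) (RR q j k) (Pr (DD c k)) (Pr (DD c j)) p) ∧
    a = el q lg k p}

/-- At most `g` representations as a sum of two elements (order does not matter). -/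
def IsB (g : ℕ) (A : Set ℕ) : Prop :=
  ∀ n : ℕ, {x : ℕ × ℕ | x.1 ∈ A ∧ x.2 ∈ A ∧ x.1 ≤ x.2 ∧ x.1 + x.2 = n}.encard ≤ g

/-- Extend a finite sequence by `1`. -/
def ext {k : ℕ} (f : Fin k → ℕ) : ℕ → ℕ := fun i => if h : i < k then f ⟨i, h⟩ else 1

/-- All choices of the moduli `q i ∈ Pr i`, `i < k`. -/
def Om (k : ℕ) : Finset (Fin k → ℕ) := Fintype.piFinset fun i : Fin k => Pr i

open Classical in
/-- The number of bad primes of block `k` for the moduli `f`, with respect to block `j`. -/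
noncomputable def nbad (g : ℕ) (D d j k : ℕ) (q : ℕ → ℕ) : ℕ :=
  ((Pr D).filter fun p => Bad g (QQ q j) (RR q j k) (Pr D) (Pr d) p).card

/-- Too many primes of block `k` are bad. -/
def Ev (c : ℝ) (g k₀ k : ℕ) (f : Fin k → ℕ) : Prop :=
  k₀ ≤ k ∧ (Pr (DD c k)).card < 2 * ∑ j ∈ Finset.Ico k₀ k, nbad g (DD c k) (DD c j) j k (ext f)

/-- The nonzero integers of absolute value at most `H`. -/
noncomputable def Bx (H : ℕ) : Finset ℤ := (Finset.Icc (-(H : ℤ)) H).filter (· ≠ 0)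

/-- `gcd (h₁, h₂, x₁, x₂)`. -/
def gcd4 (h₁ h₂ x₁ x₂ : ℤ) : ℕ := Nat.gcd (Int.gcd h₁ h₂) (Int.gcd x₁ x₂)

/-- Bound for the absolute values of the `h s`. -/
def HH (D d Nj : ℕ) : ℕ := 15 * 4 ^ (D + d) / 4 ^ Nj

/-- A configuration: `m + 1` pairs of primes, `p s ∈ (P, 4P]`, `r s ∈ (Y, 4Y]`, with
`p s ≡ p 0` mod `R`, `p s * r s ≡ p 0 * r 0` mod `Q`, and the size conditions. -/
def Cfg (m P Y Q R : ℕ) (p r : Fin (m + 1) → ℕ) : Prop :=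
  (∀ s, (p s).Prime ∧ P < p s ∧ p s ≤ 4 * P) ∧ (∀ s, (r s).Prime ∧ Y < r s ∧ r s ≤ 4 * Y) ∧
  (Function.Injective fun s => (p s, r s)) ∧
  (∀ s, p s ≡ p 0 [MOD R] ∧ p s * r s ≡ p 0 * r 0 [MOD Q]) ∧
  Q.Coprime R ∧ (∀ s, (p s).Coprime (Q * R)) ∧ (∀ s, (r s).Coprime (Q * R)) ∧
  3 * Y ≤ Q ∧ 3 * P ≤ Q * R ∧ 4 * Y ≤ P ∧ 3 * P ≤ Y * R

/-- The possible values of `RR`. -/
def RS (j k : ℕ) : Finset ℕ := (Om k).image fun f => RR (ext f) j k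

/-- The data `(h₁, h₂), (x₁, x₂), R, l, r₀` attached to a configuration. -/
noncomputable def Dat (j k H X d : ℕ) : Finset ((ℤ × ℤ) × (ℤ × ℤ) × ℕ × ℕ × ℕ) :=
  ((Bx H ×ˢ Bx H) ×ˢ (Bx X ×ˢ Bx X) ×ˢ RS j k ×ˢ Finset.range (4 ^ (NN k + k) + 1) ×ˢ
    Pr d).filter fun t =>
      t.1.1 * t.2.1.2 - t.1.2 * t.2.1.1 ≠ 0 ∧
      (t.2.2.1 : ℤ) ∣ t.1.1 * t.2.1.2 - t.1.2 * t.2.1.1 ∧ t.2.2.2.1 < t.2.2.1 ∧
      (t.2.2.1 : ℤ) ∣ t.2.2.2.1 * t.1.1 - t.2.1.1 ∧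
      (t.2.2.1 : ℤ) ∣ t.2.2.2.1 * t.1.2 - t.2.1.2

/-- The bound for the number of configurations of three pairs. -/
def bd2 (D d j k : ℕ) : ℕ :=
  (D + 2 * d + 6) ^ k * (32 * HH D d (NN j) ^ 2 * (3 * 4 ^ d) ^ 2) * (3 * 4 ^ d) *
    (2 * (4 ^ (D + 1 + NN j + j) / 4 ^ (2 * d + (NN k - NN j)) + 1))

/-- The bound for the number of configurations of four pairs. -/
def bd3 (D d j k : ℕ) : ℕ :=
  (D + 2 * d + 6) ^ k * (32 * HH D d (NN j) ^ 2 * (3 * 4 ^ d) ^ 2) * (3 * 4 ^ d) *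
    ((2 * HH D d (NN j) + 1) * (2 * (3 * 4 ^ d) / 4 ^ (NN k - NN j) + 1))

/-- The loss allowed in block `k`. -/
def loss (C D k : ℕ) : ℕ := k * 2 ^ (k + 3) * C ^ k * k.factorial * (C * (D + 1))

end BG
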