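import Pool.Agent.Lib.MP_be7f9f_nt.Defs

/-!
# Mixed base expansions

`val q f k = ∑_{i<k} f i * ∏_{l<i} (4 q l)`; digits `f i < 4 q i` are determined by the value.
Proof: induction on `k`; `val q f (k+1) = val q f k + f k * ∏_{l<k} (4 q l)`, and
`val q f k < ∏_{l<k} (4 q l)`, so quotient and remainder modulo this product are determined.
-/

namespace BG

theorem val_lt (q f : ℕ → ℕ) (k : ℕ) (hf : ∀ i < k, f i < 4 * q i) :
    val q f k < ∏ l ∈ Finset.range k, (4 * q l) := by
  induction k with
  | zero => simp [val]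
  | succ k ih =>
    have h1 := ih fun i hi => hf i (Nat.lt_succ_of_lt hi)
    have h2 : f k + 1 ≤ 4 * q k := hf k (Nat.lt_succ_self k)
    have h3 : val q f (k + 1) = val q f k + f k * ∏ l ∈ Finset.range k, (4 * q l) := by
      simp only [val, Finset.sum_range_succ]
    rw [h3, Finset.prod_range_succ]
    calc val q f k + f k * ∏ l ∈ Finset.range k, (4 * q l)
        < ∏ l ∈ Finset.range k, (4 * q l) + f k * ∏ l ∈ Finset.range k, (4 * q l) := by
          omega
      _ = (f k + 1) * ∏ l ∈ Finset.range k, (4 * q l) := by ring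
      _ ≤ 4 * q k * ∏ l ∈ Finset.range k, (4 * q l) := Nat.mul_le_mul_right _ h2
      _ = (∏ l ∈ Finset.range k, (4 * q l)) * (4 * q k) := by ring

theorem val_inj (q f f' : ℕ → ℕ) (k : ℕ) (hf : ∀ i < k, f i < 4 * q i)
    (hf' : ∀ i < k, f' i < 4 * q i) (h : val q f k = val q f' k) : ∀ i < k, f i = f' i := by
  induction k with
  | zero => intro i hi; exact absurd hi (Nat.not_lt_zero i)
  | succ k ih =>
    have hl := val_lt q f k fun i hi => hf i (Nat.lt_succ_of_lt hi)
    have hl' := val_lt q f' k fun i hi => hf' i (Nat.lt_succ_of_lt hi)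
    have hP : 0 < ∏ l ∈ Finset.range k, (4 * q l) := lt_of_le_of_lt (Nat.zero_le _) hl
    have h3 : ∀ g : ℕ → ℕ, val q g (k + 1) =
        val q g k + g k * ∏ l ∈ Finset.range k, (4 * q l) := by
      intro g
      simp only [val, Finset.sum_range_succ]
    rw [h3 f, h3 f'] at h
    have h4 : f k = f' k := by
      have h5 := congrArg (fun n => n / ∏ l ∈ Finset.range k, (4 * q l)) h
      simp only [Nat.add_mul_div_right _ _ hP, Nat.div_eq_of_lt hl, Nat.div_eq_of_lt hl',
        zero_add] at h5
      exact h5
    have h6 : val q f k = val q f' k := by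
      rw [h4] at h
      exact Nat.add_right_cancel h
    intro i hi
    rcases Nat.lt_succ_iff_lt_or_eq.1 hi with h7 | h7
    · exact ih (fun i hi => hf i (Nat.lt_succ_of_lt hi))
        (fun i hi => hf' i (Nat.lt_succ_of_lt hi)) h6 i h7
    · rw [h7]
      exact h4

theorem val_ext (q f : ℕ → ℕ) {k K : ℕ} (h : k ≤ K) :
    val q (fun i => if i < k then f i else 0) K = val q f k := by
  unfold val
  symm
  refine Finset.sum_subset_zero_on_sdiff (Finset.range_subset_range.2 h) ?_ ?_
  · intro i hi
    have h1 : ¬ i < k := by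
      have := (Finset.mem_sdiff.1 hi).2
      simpa using this
    simp [h1]
  · intro i hi
    have h1 : i < k := Finset.mem_range.1 hi
    simp [h1]

theorem val_add (q f f' : ℕ → ℕ) (k : ℕ) :
    val q f k + val q f' k = val q (fun i => f i + f' i) k := by
  unfold val
  rw [← Finset.sum_add_distrib]
  refine Finset.sum_congr rfl fun i _ => ?_
  ring

end BG
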