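import Pool.Agent.Lib.MP_be7f9f_nt.Defs

/-!
# A nonzero integer has few divisors of the form `RR`

Proof.  `RR (ext f) j k = ∏_{j ≤ i < k} f i` divides `Δ` only if all the primes `f i` divide `Δ`.
The number of primes `q ∈ Pr i` dividing `Δ` is at most `B + 2`: for `i ≥ 1` they are `> 4`,
distinct, and their product divides `Δ`, `|Δ| ≤ 4^B`; and `Pr 0 = {2, 3}`.  So the number of
values is at most `(B + 2) ^ (k - j) ≤ (B + 2) ^ k` (map `RS j k` into the image of the product
map on `∏_{i ∈ Ico j k} {q ∈ Pr i : q ∣ Δ}`, `Finset.card_image_le`).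
-/

namespace BG

private theorem aux_kbd (i B : ℕ) (Δ : ℤ) (h0 : Δ ≠ 0) (hB : |Δ| ≤ 4 ^ B) :
    ((Pr i).filter fun q : ℕ => (q : ℤ) ∣ Δ).card ≤ B + 2 := by
  rcases Nat.eq_zero_or_pos i with hi | hi
  · subst hi
    have h1 : (Pr 0).card ≤ 2 := by
      have : (Pr 0).card = 2 := by decide
      omega
    exact (Finset.card_filter_le _ _).trans (by omega)
  · have h1 : ∏ q ∈ (Pr i).filter (fun q : ℕ => (q : ℤ) ∣ Δ), q ∣ Δ.natAbs := by
      refine Finset.prod_primes_dvd _ (fun q hq => ?_) fun q hq => ?_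
      · rw [Finset.mem_filter, Pr, Finset.mem_filter] at hq
        exact hq.1.2.prime
      · rw [Finset.mem_filter] at hq
        exact Int.natCast_dvd.1 hq.2
    have h2 : Δ.natAbs ≤ 4 ^ B := by
      have h3 : ((Δ.natAbs : ℕ) : ℤ) ≤ ((4 ^ B : ℕ) : ℤ) := by
        rw [Int.natCast_natAbs]
        push_cast
        exact hB
      exact_mod_cast h3
    have h3 := Nat.le_of_dvd (Int.natAbs_pos.2 h0) h1
    have h4 : 4 ^ ((Pr i).filter fun q : ℕ => (q : ℤ) ∣ Δ).card ≤
        ∏ q ∈ (Pr i).filter (fun q : ℕ => (q : ℤ) ∣ Δ), q := by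
      rw [← Finset.prod_const]
      refine Finset.prod_le_prod' fun q hq => ?_
      rw [Finset.mem_filter, Pr, Finset.mem_filter, Finset.mem_Ioc] at hq
      have h5 : 4 ^ 1 ≤ 4 ^ i := Nat.pow_le_pow_right (by norm_num) hi
      have := hq.1.1.1
      omega
    have h5 : 4 ^ ((Pr i).filter fun q : ℕ => (q : ℤ) ∣ Δ).card ≤ 4 ^ B := h4.trans (h3.trans h2)
    have h6 := (Nat.pow_le_pow_iff_right (by norm_num : 1 < 4)).1 h5
    omega

theorem kbd (j k B : ℕ) (hj : j ≤ k) (Δ : ℤ) (h0 : Δ ≠ 0) (hB : |Δ| ≤ 4 ^ B) :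
    ((RS j k).filter fun R : ℕ => (R : ℤ) ∣ Δ).card ≤ (B + 2) ^ k := by
  classical
  set S : Fin k → Finset ℕ := fun i =>
    if j ≤ (i : ℕ) then (Pr i).filter fun q : ℕ => (q : ℤ) ∣ Δ else {1} with hS
  have hsub : ((RS j k).filter fun R : ℕ => (R : ℤ) ∣ Δ) ⊆
      (Fintype.piFinset S).image fun f => RR (ext f) j k := by
    intro R hR
    rw [Finset.mem_filter, RS, Finset.mem_image] at hR
    obtain ⟨⟨f, hf, rfl⟩, hd⟩ := hR
    rw [Finset.mem_image]
    rw [Om, Fintype.mem_piFinset] at hf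
    refine ⟨fun i => if j ≤ (i : ℕ) then f i else 1, ?_, ?_⟩
    · rw [Fintype.mem_piFinset]
      intro i
      by_cases hi : j ≤ (i : ℕ)
      · simp only [hS, hi, if_true]
        rw [Finset.mem_filter]
        refine ⟨hf i, ?_⟩
        refine dvd_trans ?_ hd
        rw [Int.natCast_dvd_natCast]
        have h1 : ext f i = f i := by
          simp [ext]
        rw [← h1]
        exact Finset.dvd_prod_of_mem (fun l => ext f l) (Finset.mem_Ico.2 ⟨hi, i.2⟩)
      · simp [hS, hi]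
    · unfold RR
      refine Finset.prod_congr rfl fun l hl => ?_
      rw [Finset.mem_Ico] at hl
      simp [ext, hl.1, hl.2]
  refine (Finset.card_le_card hsub).trans (Finset.card_image_le.trans ?_)
  rw [Fintype.card_piFinset]
  have h1 : ∏ i : Fin k, (S i).card ≤ (B + 2) ^ (Finset.univ : Finset (Fin k)).card := by
    refine Finset.prod_le_pow_card _ _ _ fun i _ => ?_
    by_cases hi : j ≤ (i : ℕ)
    · simp only [hS, hi, if_true]
      exact aux_kbd _ _ _ h0 hB
    · simp [hS, hi]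
  rwa [Finset.card_univ, Fintype.card_fin] at h1

end BG
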