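import Pool.Agent.Lib.MP_be7f9f_nt.Defs

/-!
# Points in a box whose pairwise determinants are nonzero multiples of `G`

Proof.  Let `S₁` be the set of the `v ∈ S` with `v.2 * A ≤ B * v.1`.  The slopes `v.2 / v.1` of
the points of `S₁` are in `(0, B / A]`, and two different ones differ by
`|det| / (v.1 * w.1) ≥ G / A^2`.  So `v ↦ ⌊v.2 * A^2 / (v.1 * G)⌋` is injective on `S₁` with values
in `[0, A * B / G]`, i.e. `card S₁ ≤ A * B / G + 1`.  The other points satisfy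
`v.1 * B < A * v.2` and are treated in the same way, with the coordinates exchanged.
-/

namespace BG

private theorem Lat_lt {a b c d A G : ℕ} (ha : 0 < a) (hc : 0 < c) (hG : 0 < G) (haA : a ≤ A)
    (hcA : c ≤ A) (h : b * c + G ≤ a * d) : b * A ^ 2 / (a * G) < d * A ^ 2 / (c * G) := by
  set q := b * A ^ 2 / (a * G) with hq
  have h1 : q * (a * G) ≤ b * A ^ 2 := Nat.div_mul_le_self _ _
  have h2 : (q + 1) * (c * G) ≤ d * A ^ 2 := by
    refine Nat.le_of_mul_le_mul_left ?_ ha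
    have h3 : a * c ≤ A ^ 2 := by
      rw [pow_two]
      exact Nat.mul_le_mul haA hcA
    calc a * ((q + 1) * (c * G)) = q * (a * G) * c + G * (a * c) := by ring
      _ ≤ b * A ^ 2 * c + G * A ^ 2 :=
          Nat.add_le_add (Nat.mul_le_mul_right _ h1) (Nat.mul_le_mul_left _ h3)
      _ = (b * c + G) * A ^ 2 := by ring
      _ ≤ a * d * A ^ 2 := Nat.mul_le_mul_right _ h
      _ = a * (d * A ^ 2) := by ring
  exact (Nat.le_div_iff_mul_le (Nat.mul_pos hc hG)).2 h2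

private theorem Lat_half (S : Finset (ℕ × ℕ)) (A B G : ℕ) (hG : 0 < G)
    (hS : ∀ v ∈ S, 0 < v.1 ∧ v.1 ≤ A ∧ v.2 * A ≤ B * v.1)
    (hd : ∀ v ∈ S, ∀ w ∈ S, v ≠ w →
      (G : ℤ) ∣ (v.1 : ℤ) * w.2 - v.2 * w.1 ∧ (v.1 : ℤ) * w.2 - v.2 * w.1 ≠ 0) :
    S.card ≤ A * B / G + 1 := by
  have h1 : S.card ≤ (Finset.range (A * B / G + 1)).card := by
    refine Finset.card_le_card_of_injOn (fun v => v.2 * A ^ 2 / (v.1 * G)) ?_ ?_
    · intro v hv
      obtain ⟨h1, h2, h3⟩ := hS v hv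
      rw [Finset.coe_range, Set.mem_Iio, Nat.lt_succ_iff]
      change v.2 * A ^ 2 / (v.1 * G) ≤ A * B / G
      rw [← Nat.mul_div_mul_left (A * B) G h1]
      refine Nat.div_le_div_right ?_
      calc v.2 * A ^ 2 = v.2 * A * A := by ring
        _ ≤ B * v.1 * A := Nat.mul_le_mul_right _ h3
        _ = v.1 * (A * B) := by ring
    · intro v hv w hw hvw
      by_contra hne
      obtain ⟨v1, v2, -⟩ := hS v hv
      obtain ⟨w1, w2, -⟩ := hS w hw
      obtain ⟨⟨t, ht⟩, h0⟩ := hd v hv w hw hne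
      have hvw' : v.2 * A ^ 2 / (v.1 * G) = w.2 * A ^ 2 / (w.1 * G) := hvw
      have ht0 : t ≠ 0 := by
        rintro rfl
        exact h0 (by rw [ht, mul_zero])
      have hG' : (0 : ℤ) < G := by exact_mod_cast hG
      rcases lt_or_gt_of_ne ht0 with h2 | h2
      · have h3 : (w.2 * v.1 + G : ℤ) ≤ w.1 * v.2 := by nlinarith
        have h4 : w.2 * v.1 + G ≤ w.1 * v.2 := by exact_mod_cast h3
        have := Lat_lt w1 v1 hG w2 v2 h4
        omega
      · have h3 : (v.2 * w.1 + G : ℤ) ≤ v.1 * w.2 := by nlinarith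
        have h4 : v.2 * w.1 + G ≤ v.1 * w.2 := by exact_mod_cast h3
        have := Lat_lt v1 w1 hG v2 w2 h4
        omega
  rwa [Finset.card_range] at h1

theorem lat (S : Finset (ℕ × ℕ)) (A B G : ℕ) (hG : 0 < G)
    (hS : ∀ v ∈ S, 0 < v.1 ∧ v.1 ≤ A ∧ 0 < v.2 ∧ v.2 ≤ B)
    (hd : ∀ v ∈ S, ∀ w ∈ S, v ≠ w →
      (G : ℤ) ∣ (v.1 : ℤ) * w.2 - v.2 * w.1 ∧ (v.1 : ℤ) * w.2 - v.2 * w.1 ≠ 0) :
    S.card ≤ 2 * (A * B / G + 1) := by
  classical
  have h1 : (S.filter fun v => v.2 * A ≤ B * v.1).card ≤ A * B / G + 1 := by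
    refine Lat_half _ A B G hG (fun v hv => ?_) fun v hv w hw hne => ?_
    · rw [Finset.mem_filter] at hv
      exact ⟨(hS v hv.1).1, (hS v hv.1).2.1, hv.2⟩
    · exact hd v (Finset.mem_filter.1 hv).1 w (Finset.mem_filter.1 hw).1 hne
  have h2 : ((S.filter fun v => ¬ v.2 * A ≤ B * v.1).image Prod.swap).card ≤
      B * A / G + 1 := by
    refine Lat_half _ B A G hG (fun v hv => ?_) fun v hv w hw hne => ?_
    · obtain ⟨u, hu, rfl⟩ := Finset.mem_image.1 hv
      rw [Finset.mem_filter] at hu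
      obtain ⟨u1, u2, u3, u4⟩ := hS u hu.1
      refine ⟨u3, u4, ?_⟩
      have h3 := hu.2
      change u.1 * B ≤ A * u.2
      nlinarith
    · obtain ⟨u, hu, rfl⟩ := Finset.mem_image.1 hv
      obtain ⟨t, ht, rfl⟩ := Finset.mem_image.1 hw
      rw [Finset.mem_filter] at hu ht
      have hne' : u ≠ t := fun h => hne (by rw [h])
      obtain ⟨h3, h4⟩ := hd u hu.1 t ht.1 hne'
      have h5 : ((u.swap.1 : ℕ) : ℤ) * (t.swap.2 : ℕ) - (u.swap.2 : ℕ) * (t.swap.1 : ℕ) =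
          -((u.1 : ℤ) * t.2 - u.2 * t.1) := by
        simp only [Prod.fst_swap, Prod.snd_swap]
        ring
      rw [h5]
      exact ⟨(dvd_neg).2 h3, neg_ne_zero.2 h4⟩
  rw [Finset.card_image_of_injective _ Prod.swap_injective, mul_comm B A] at h2
  have h3 := Finset.card_filter_add_card_filter_not (s := S) (fun v => v.2 * A ≤ B * v.1)
  omega

end BG
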