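import Pool.Agent.Lib.MP_be7f9f_nt.Defs

/-!
# Chebyshev's lower bound in the intervals (4^n, 4^(n+1)]

Proof.  `θ(4x) - θ(x) ≥ (4 log 2 - log 4) x - small = 2 x log 2 - small` by
`Chebyshev.theta_ge`, `Chebyshev.theta_le_log4_mul_x`; and `θ(4^(n+1)) - θ(4^n) =
∑_{p ∈ Pr n} log p ≤ card (Pr n) * (n+1) * log 4`.  So the bound holds for all large `n` (with
`C = 2`, say); for the finitely many small `n` use that `Pr n` is nonempty (Bertrand:
`Nat.exists_prime_lt_and_le_two_mul`) and take `C ≥ 4 ^ n₀`.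
-/

namespace BG

private theorem prm_theta (n : ℕ) :
    Chebyshev.theta ((4 ^ (n + 1) : ℕ) : ℝ) =
      Chebyshev.theta ((4 ^ n : ℕ) : ℝ) + ∑ p ∈ Pr n, Real.log p := by
  rw [Chebyshev.theta, Chebyshev.theta, Nat.floor_natCast, Nat.floor_natCast, Pr,
    Finset.sum_filter, Finset.sum_filter, Finset.sum_filter]
  exact (Finset.sum_Ioc_consecutive _ (Nat.zero_le _)
    (Nat.pow_le_pow_right (by norm_num) (Nat.le_succ n))).symm

private theorem prm_aux (n : ℕ) (hn : 6 ≤ n) : 2 * (n + 2) + 8 * 2 ^ n * (n + 1) ≤ 4 ^ n := by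
  induction n, hn using Nat.le_induction with
  | base => norm_num
  | succ n hn ih =>
    have h1 : 2 * (n + 1 + 2) + 8 * 2 ^ (n + 1) * (n + 1 + 1) ≤
        4 * (2 * (n + 2) + 8 * 2 ^ n * (n + 1)) := by
      have h2 : 8 * 2 ^ (n + 1) * (n + 1 + 1) ≤ 32 * 2 ^ n * (n + 1) := by
        rw [pow_succ]
        have h3 : 8 * (2 ^ n * 2) * (n + 1 + 1) = 16 * 2 ^ n * (n + 2) := by ring
        have h4 : 32 * 2 ^ n * (n + 1) = 16 * 2 ^ n * (2 * (n + 1)) := by ring
        rw [h3, h4]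
        exact Nat.mul_le_mul_left _ (by omega)
      have h5 : 4 * (2 * (n + 2) + 8 * 2 ^ n * (n + 1)) =
          8 * (n + 2) + 32 * 2 ^ n * (n + 1) := by ring
      rw [h5]
      omega
    calc 2 * (n + 1 + 2) + 8 * 2 ^ (n + 1) * (n + 1 + 1)
        ≤ 4 * (2 * (n + 2) + 8 * 2 ^ n * (n + 1)) := h1
      _ ≤ 4 * 4 ^ n := Nat.mul_le_mul_left _ ih
      _ = 4 ^ (n + 1) := by rw [pow_succ, mul_comm]

theorem prm : ∃ C : ℕ, 0 < C ∧ ∀ n : ℕ, 4 ^ n ≤ C * (n + 1) * (Pr n).card := by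
  refine ⟨1024, by norm_num, fun n => ?_⟩
  rcases lt_or_ge n 6 with h | h
  · have hne : (Pr n).Nonempty := by
      obtain ⟨p, hp, h1, h2⟩ := Nat.exists_prime_lt_and_le_two_mul (4 ^ n) (by positivity)
      refine ⟨p, ?_⟩
      rw [Pr, Finset.mem_filter, Finset.mem_Ioc]
      exact ⟨⟨h1, h2.trans (by rw [pow_succ]; omega)⟩, hp⟩
    have hc := hne.card_pos
    have h3 : 4 ^ n ≤ 4 ^ 5 := Nat.pow_le_pow_right (by norm_num) (by omega)
    calc 4 ^ n ≤ 1024 * 1 * 1 := by norm_num at h3 ⊢; exact h3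
      _ ≤ 1024 * (n + 1) * (Pr n).card :=
        Nat.mul_le_mul (Nat.mul_le_mul_left _ (by omega)) hc
  · have h0 := prm_theta n
    have h1 := Chebyshev.theta_ge (4 ^ (n + 1))
    have h2 := Chebyshev.theta_le_log4_mul_x (x := ((4 ^ n : ℕ) : ℝ)) (Nat.cast_nonneg _)
    have hl2 : 0 < Real.log 2 := Real.log_pos (by norm_num)
    have hl4 : Real.log 4 = 2 * Real.log 2 := by
      rw [show (4 : ℝ) = 2 ^ 2 by norm_num, Real.log_pow]
      norm_num
    have hs : ∑ p ∈ Pr n, Real.log p ≤ ((Pr n).card : ℝ) * ((n + 1) * (2 * Real.log 2)) := by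
      rw [← nsmul_eq_mul]
      refine Finset.sum_le_card_nsmul _ _ _ fun p hp => ?_
      rw [Pr, Finset.mem_filter, Finset.mem_Ioc] at hp
      have h3 : Real.log p ≤ Real.log ((4 : ℝ) ^ (n + 1)) := by
        refine Real.log_le_log (by exact_mod_cast hp.2.pos) ?_
        exact_mod_cast hp.1.2
      rw [Real.log_pow, hl4] at h3
      push_cast at h3
      exact h3
    have e1 : Real.log (((4 ^ (n + 1) : ℕ) : ℝ)) = (n + 1) * (2 * Real.log 2) := by
      push_cast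
      rw [Real.log_pow, hl4]
      push_cast
      ring
    have e2 : Real.sqrt (((4 ^ (n + 1) : ℕ) : ℝ)) = 2 * 2 ^ n := by
      rw [Real.sqrt_eq_iff_mul_self_eq (by positivity) (by positivity)]
      push_cast
      rw [show (4 : ℝ) = 2 * 2 by norm_num, mul_pow, pow_succ]
      ring
    have e3 : Real.log (((4 ^ (n + 1) : ℕ) : ℝ) + 1) ≤ (n + 2) * (2 * Real.log 2) := by
      have h3 : Real.log (((4 ^ (n + 1) : ℕ) : ℝ) + 1) ≤ Real.log ((4 : ℝ) ^ (n + 2)) := by
        refine Real.log_le_log (by positivity) ?_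
        push_cast
        have h4 : (1 : ℝ) ≤ 4 ^ (n + 1) := one_le_pow₀ (by norm_num)
        have h5 : (4 : ℝ) ^ (n + 2) = 4 * 4 ^ (n + 1) := by ring
        rw [h5]
        linarith
      rw [Real.log_pow, hl4] at h3
      push_cast at h3 ⊢
      exact h3
    rw [e1, e2] at h1
    rw [hl4] at h2
    have hA : ((4 ^ (n + 1) : ℕ) : ℝ) = 4 * ((4 ^ n : ℕ) : ℝ) := by
      push_cast
      ring
    have haux : (2 * (n + 2) + 8 * 2 ^ n * (n + 1) : ℝ) ≤ ((4 ^ n : ℕ) : ℝ) := by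
      have := prm_aux n h
      exact_mod_cast this
    have haux2 : (2 * (n + 2) + 8 * 2 ^ n * (n + 1) : ℝ) * Real.log 2 ≤
        ((4 ^ n : ℕ) : ℝ) * Real.log 2 := mul_le_mul_of_nonneg_right haux hl2.le
    have key : ((4 ^ n : ℕ) : ℝ) * Real.log 2 ≤
        (((Pr n).card : ℝ) * (2 * (n + 1))) * Real.log 2 := by
      have hA2 : ((4 ^ (n + 1) : ℕ) : ℝ) * Real.log 2 =
          4 * (((4 ^ n : ℕ) : ℝ) * Real.log 2) := by
        rw [hA]
        ring
      rw [h0, hA2] at h1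
      linarith
    have key2 := le_of_mul_le_mul_right key hl2
    have key3 : 4 ^ n ≤ (Pr n).card * (2 * (n + 1)) := by exact_mod_cast key2
    calc 4 ^ n ≤ (Pr n).card * (2 * (n + 1)) := key3
      _ = 2 * (n + 1) * (Pr n).card := by ring
      _ ≤ 1024 * (n + 1) * (Pr n).card :=
        Nat.mul_le_mul_right _ (Nat.mul_le_mul_right _ (by norm_num))

end BG
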