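import Pool.Agent.Lib.MP_be7f9f_nt.Defs

/-!
# Factors `k^(C k)` are negligible against `4^(δ k^2)`

`NN k = k (k-1) / 2`; `C k log (C (k+1)) ≤ δ log 4 * k (k-1) / 2` for large `k`.
-/

namespace BG

theorem NN_eq (k : ℕ) : (NN k : ℝ) = (k : ℝ) * ((k : ℝ) - 1) / 2 := by
  have h := Finset.sum_range_id_mul_two k
  have h1 : NN k * 2 = k * (k - 1) := h
  rcases Nat.eq_zero_or_pos k with h0 | h0
  · subst h0
    simp [NN]
  · have h2 : ((NN k * 2 : ℕ) : ℝ) = ((k * (k - 1) : ℕ) : ℝ) := by rw [h1]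
    rw [Nat.cast_mul, Nat.cast_mul, Nat.cast_sub h0] at h2
    push_cast at h2
    linarith

theorem slack (C : ℕ) (δ : ℝ) (hδ : 0 < δ) :
    ∃ k₀ : ℕ, ∀ k : ℕ, k₀ ≤ k →
      (((C * (k + 1)) ^ (C * k) : ℕ) : ℝ) ≤ (4 : ℝ) ^ (δ * (NN k : ℝ)) := by
  have hlog4 : 0 < Real.log 4 := Real.log_pos (by norm_num)
  rcases Nat.eq_zero_or_pos C with hC | hC
  · subst hC
    refine ⟨0, fun k _ => ?_⟩
    rw [zero_mul, zero_mul, pow_zero, Nat.cast_one]
    exact Real.one_le_rpow (by norm_num) (mul_nonneg hδ.le (Nat.cast_nonneg _))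
  · have hC0 : (0 : ℝ) < C := by exact_mod_cast hC
    set ε : ℝ := δ * Real.log 4 / (4 * (C : ℝ) ^ 2) with hε
    have hε0 : 0 < ε := by positivity
    have h1 : ∀ᶠ x : ℝ in Filter.atTop, ‖Real.log x‖ ≤ ε * ‖x‖ :=
      Real.isLittleO_log_id_atTop.bound hε0
    have h2 : Filter.Tendsto (fun k : ℕ => (C : ℝ) * ((k : ℝ) + 1)) Filter.atTop
        Filter.atTop :=
      (Filter.tendsto_atTop_add_const_right _ _ tendsto_natCast_atTop_atTop).const_mul_atTop hC0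
    obtain ⟨k₁, hk₁⟩ := Filter.eventually_atTop.1 (h2.eventually h1)
    refine ⟨max k₁ 3, fun k hk => ?_⟩
    have hk3 : 3 ≤ k := (le_max_right _ _).trans hk
    have hk3' : (3 : ℝ) ≤ k := by exact_mod_cast hk3
    have h3 := hk₁ k ((le_max_left _ _).trans hk)
    have hx : (0 : ℝ) < (C : ℝ) * ((k : ℝ) + 1) := by positivity
    rw [Real.norm_eq_abs, Real.norm_eq_abs, abs_of_pos hx] at h3
    have h4 : Real.log ((C : ℝ) * ((k : ℝ) + 1)) ≤ ε * ((C : ℝ) * ((k : ℝ) + 1)) :=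
      (le_abs_self _).trans h3
    have h5 : (((C * (k + 1)) ^ (C * k) : ℕ) : ℝ) =
        Real.exp (((C : ℝ) * k) * Real.log ((C : ℝ) * ((k : ℝ) + 1))) := by
      have h51 : ((C : ℝ) * k) = ((C * k : ℕ) : ℝ) := by push_cast; ring
      rw [h51, Real.exp_nat_mul, Real.exp_log hx, Nat.cast_pow]
      push_cast
      ring
    rw [h5, Real.rpow_def_of_pos (by norm_num), NN_eq]
    apply Real.exp_le_exp.2
    have h6 : ((C : ℝ) * k) * Real.log ((C : ℝ) * ((k : ℝ) + 1)) ≤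
        ((C : ℝ) * k) * (ε * ((C : ℝ) * ((k : ℝ) + 1))) :=
      mul_le_mul_of_nonneg_left h4 (by positivity)
    refine h6.trans ?_
    have h7 : ((C : ℝ) * k) * (ε * ((C : ℝ) * ((k : ℝ) + 1))) =
        δ * Real.log 4 / 4 * (k * (k + 1)) := by
      rw [hε]
      field_simp
    rw [h7]
    have h8 : (k : ℝ) * (k + 1) ≤ 2 * (k * (k - 1)) := by nlinarith
    have h9 : 0 < δ * Real.log 4 / 4 := by positivity
    have h10 := mul_le_mul_of_nonneg_left h8 h9.le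
    refine h10.trans (le_of_eq ?_)
    ring

/-- All the polynomial type factors together. -/
theorem slack_loss (C A : ℕ) (δ : ℝ) (hδ : 0 < δ) :
    ∃ k₀ : ℕ, ∀ k : ℕ, k₀ ≤ k → ∀ D d : ℕ, D ≤ NN k → d ≤ NN k →
      (((D + 2 * d + 6) ^ k * 4 ^ (k + A) * loss C D k : ℕ) : ℝ) ≤
        (4 : ℝ) ^ (δ * (NN k : ℝ)) := by
  obtain ⟨k₀, hk₀⟩ := slack (C + A + 13) δ hδ
  refine ⟨max k₀ 1, fun k hk D d hD hd => ?_⟩
  have hk1 : 1 ≤ k := (le_max_right _ _).trans hk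
  refine le_trans ?_ (hk₀ k ((le_max_left _ _).trans hk))
  rw [Nat.cast_le]
  have hN : NN k * 2 = k * (k - 1) := Finset.sum_range_id_mul_two k
  have hN2 : NN k ≤ k * k := by
    have h1 : k * (k - 1) ≤ k * k := Nat.mul_le_mul_left _ (Nat.sub_le _ _)
    omega
  set B : ℕ := (C + A + 13) * (k + 1) with hB
  have hBk : 13 * (k + 1) ≤ B := Nat.mul_le_mul_right _ (by omega)
  have hB1 : 1 ≤ B := by omega
  have hBC : C ≤ B := by
    calc C ≤ C + A + 13 := by omega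
      _ = (C + A + 13) * 1 := (mul_one _).symm
      _ ≤ B := Nat.mul_le_mul_left _ (by omega)
  have hBB : 169 * ((k + 1) * (k + 1)) ≤ B ^ 2 := by
    calc 169 * ((k + 1) * (k + 1)) = (13 * (k + 1)) * (13 * (k + 1)) := by ring
      _ ≤ B * B := Nat.mul_le_mul hBk hBk
      _ = B ^ 2 := (sq B).symm
  have hkk : k * k ≤ (k + 1) * (k + 1) := Nat.mul_le_mul (by omega) (by omega)
  have hk11 : 1 ≤ (k + 1) * (k + 1) := Nat.one_le_iff_ne_zero.2 (by positivity)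
  have e1 : (D + 2 * d + 6) ^ k ≤ B ^ (2 * k) := by
    rw [pow_mul]
    exact Nat.pow_le_pow_left (by omega) _
  have h4B : 4 ≤ B := by omega
  have h2B : 2 ≤ B := by omega
  have e2 : 4 ^ (k + A) ≤ B ^ ((1 + A) * k) := by
    have e21 : k + A ≤ (1 + A) * k := by
      have : A * 1 ≤ A * k := Nat.mul_le_mul_left _ hk1
      rw [add_mul, one_mul]
      omega
    exact (Nat.pow_le_pow_left h4B (k + A)).trans (Nat.pow_le_pow_right hB1 e21)
  have e3 : k ≤ B ^ k := by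
    calc k ≤ B := by omega
      _ = B ^ 1 := (pow_one B).symm
      _ ≤ B ^ k := Nat.pow_le_pow_right hB1 hk1
  have e4 : 2 ^ (k + 3) ≤ B ^ (4 * k) := by
    have e41 : k + 3 ≤ 4 * k := by omega
    exact (Nat.pow_le_pow_left h2B (k + 3)).trans (Nat.pow_le_pow_right hB1 e41)
  have e5 : C ^ k ≤ B ^ k := Nat.pow_le_pow_left hBC _
  have e6 : k.factorial ≤ B ^ k :=
    (Nat.factorial_le_pow k).trans (Nat.pow_le_pow_left (by omega) _)
  have e7 : C * (D + 1) ≤ B ^ (3 * k) := by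
    calc C * (D + 1) ≤ B * B ^ 2 := Nat.mul_le_mul hBC (by omega)
      _ = B ^ 3 := by ring
      _ ≤ B ^ (3 * k) := Nat.pow_le_pow_right hB1 (by omega)
  calc (D + 2 * d + 6) ^ k * 4 ^ (k + A) * loss C D k
      ≤ B ^ (2 * k) * B ^ ((1 + A) * k) * (B ^ k * B ^ (4 * k) * B ^ k * B ^ k *
          B ^ (3 * k)) := by
        unfold loss
        gcongr
    _ = B ^ ((A + 13) * k) := by
        simp only [← pow_add]
        congr 1
        ring
    _ ≤ B ^ ((C + A + 13) * k) :=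
        Nat.pow_le_pow_right hB1 (Nat.mul_le_mul_right _ (by omega))

end BG
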