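import Pool.Agent.Lib.MP_be7f9f_nt.Dig

/-!
# What a sum of two elements reveals

Proof.  Put `K = max k k'`, write all four elements with `val_ext` as values of length `K`
(digits `0` beyond the block) and add (`val_add`).  The digit of `el k p + el j r` at `i` is in
`[2 q i, 4 q i - 2]` for `i < j`, in `[q i, 2 q i - 1]` for `j ≤ i < k`, and `0` for `i ≥ k`.  All
digits are `< 4 q i` (note `0 < q i` by `hlg`), so by `val_inj` the digits agree.  Hence `k = k'`
(look at the digit `min k k'`), then `j = j'` (look at the digit `min j j'`), and the rest is read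
off.
-/

namespace BG

theorem sum_eq (q : ℕ → ℕ) (lg : ℕ → ℕ → ℕ) (hlg : ∀ i a, lg (q i) a < q i)
    {j k j' k' p r p' r' : ℕ} (hj : j ≤ k) (hj' : j' ≤ k')
    (h : el q lg k p + el q lg j r = el q lg k' p' + el q lg j' r') :
    k = k' ∧ j = j' ∧ (∀ i < j, lg (q i) p + lg (q i) r = lg (q i) p' + lg (q i) r') ∧
      ∀ i, j ≤ i → i < k → lg (q i) p = lg (q i) p' := by
  have hel : ∀ {a K : ℕ} (b : ℕ), a ≤ K →
      el q lg a b = val q (fun i => if i < a then q i + lg (q i) b else 0) K := fun b h =>
    (val_ext q (fun i => q i + lg (q i) b) h).symm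
  have hkK : k ≤ max k k' := le_max_left _ _
  have hkK' : k' ≤ max k k' := le_max_right _ _
  rw [hel p hkK, hel r (hj.trans hkK), hel p' hkK', hel r' (hj'.trans hkK'), val_add,
    val_add] at h
  have hd : ∀ (a b a' b' i : ℕ), (if i < a then q i + lg (q i) b else 0) +
      (if i < a' then q i + lg (q i) b' else 0) < 4 * q i := by
    intro a b a' b' i
    have h1 := hlg i b
    have h2 := hlg i b'
    split_ifs <;> omega
  have key := val_inj q _ _ (max k k') (fun i _ => hd k p j r i) (fun i _ => hd k' p' j' r' i) h
  have hkk : k = k' := by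
    rcases lt_trichotomy k k' with hlt | heq | hgt
    · exfalso
      have h1 := key k (hlt.trans_le hkK')
      have h2 := hlg k p'
      simp only [lt_irrefl, if_false, if_pos hlt, if_neg (not_lt.2 hj)] at h1
      omega
    · exact heq
    · exfalso
      have h1 := key k' (hgt.trans_le hkK)
      have h2 := hlg k' p
      simp only [lt_irrefl, if_false, if_pos hgt, if_neg (not_lt.2 hj')] at h1
      omega
  subst hkk
  rw [max_self] at key
  have hjj : j = j' := by
    rcases lt_trichotomy j j' with hlt | heq | hgt
    · exfalso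
      have h1 := key j (hlt.trans_le hj')
      have h2 := hlg j p
      simp only [lt_irrefl, if_false, if_pos hlt, if_pos (hlt.trans_le hj')] at h1
      omega
    · exact heq
    · exfalso
      have h1 := key j' (hgt.trans_le hj)
      have h2 := hlg j' p'
      simp only [lt_irrefl, if_false, if_pos hgt, if_pos (hgt.trans_le hj)] at h1
      omega
  subst hjj
  refine ⟨rfl, rfl, fun i hi => ?_, fun i hi1 hi2 => ?_⟩
  · have h1 := key i (hi.trans_le hj)
    simp only [if_pos hi, if_pos (hi.trans_le hj)] at h1
    omega
  · have h1 := key i hi2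
    simp only [if_pos hi2, if_neg (not_lt.2 hi1)] at h1
    omega

end BG
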